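import Pool.Agent.WAP.StmtsL
import Pool.Agent.WAP.StmtsT

/-!
# WAP, part L, second file: the exports NQT, RCG, MEE, MEI, APO, APT

The rows use the statements of StmtsL (`Lev`, `nm`, `qn`, `ZlvStmt`, ..) and of StmtsT (`GoodF`,
`GdfStmt`, `KucStmt`, `LocStmt`, `DifStmt`, `InfStmt`) and `FraStmt`.  G = `{P | Big 1 P}`.
`sm 1 P = P`, `sm 0 P = 0`, `sm (a + b) P = sm a P + sm b P` (`add_gsm`),
`sm a (P + Q) = sm a P + sm a Q` (`gsm_add`), `sm (a * b) P = sm a (sm b P)` (`mul_gsm`).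
A step `Step (.act a b c e) z z'` is: `OnU z`, `OnU z'`, `a * e - b * c = 1`, `z' = actf a b c e z`.
`GoodF F` follows from `IsLoc F ϖ` by `GdfStmt` (`Or.inl ⟨ϖ, h⟩`); it gives `(2 : F) ≠ 0`.
-/

namespace Pool.Agent.WAP

open Classical Polynomial WeierstrassCurve.Affine

/-- K2G (part P2, helper8): at the place 2 high multiples of every point are near the origin. -/
def K2gStmt : Prop := ∀ (F : Type) [NormedField F] [Algebra GaussianInt F] (ϖ : GaussianInt),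
  IsLoc F ϖ → ϖ ∣ 2 → ∀ (d : F), d ≠ 0 → ∀ (P : Pt d) (N : ℝ), ∃ j : ℕ, Big N (sm (lam ^ j) P)

/-- LVB (uses ZEQ). Levels and `Big`.  Proof.  For P ≠ 0 in G: `‖X‖ ‖z‖^2 = 1` (ZEQ; `Big 1 P` is
`‖d‖ < ‖X‖`).  (1) ρ with `ρ^2 ‖d‖ (|N| + 1) ≤ 1`: `‖X/d‖ = 1/(‖d‖ ‖z‖^2) ≥ |N| + 1`.  (2)
`N = max 1 (1/(‖d‖ ρ^2))`. -/
def LvbStmt : Prop := ∀ (F : Type) [NormedField F] [Algebra GaussianInt F] (ϖ : GaussianInt),
  IsLoc F ϖ → ∀ (d : F), d ≠ 0 →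
    (∀ N : ℝ, ∃ ρ : ℝ, 0 < ρ ∧ ∀ P : Pt d, Lev ρ P → Big N P) ∧
    (∀ ρ : ℝ, 0 < ρ → ∃ N : ℝ, ∀ P : Pt d, Big N P → Lev ρ P)

/-- MZZ (uses ZEQ). The slope coordinate.  Proof.  (1) `mz (kum d P Q) =
(cY P cY Q/d^3)/((cX P/d)((cX Q/d)^2 - 1))` and `cY Q^2 = cX Q (cX Q^2 - d^2)`; `cX P, cY P, cX Q,
cY Q` are not 0 on U.  (2), (3) ZEQ: `‖X‖ ‖z‖^2 = 1`.  (4) P, Q in G nonzero: `cX, cY ≠ 0`, the equation
of U follows from the equations of the curve. -/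
def MzzStmt : Prop := ∀ (F : Type) [NormedField F] [Algebra GaussianInt F] (ϖ : GaussianInt),
  IsLoc F ϖ → ∀ (d : F), d ≠ 0 → ∀ P Q : Pt d,
    (OnU (kum d P Q) → mz (kum d P Q) = zc Q / zc P ∧ P ≠ 0 ∧ Q ≠ 0 ∧ zc P ≠ 0 ∧ zc Q ≠ 0) ∧
    (P ≠ 0 → Big 1 P → ‖(kum d P Q).1‖ * (‖d‖ * ‖zc P‖ ^ 2) = 1) ∧
    (Q ≠ 0 → Big 1 Q → ‖(kum d P Q).2.1‖ * (‖d‖ * ‖zc Q‖ ^ 2) = 1) ∧
    (P ≠ 0 → Big 1 P → Q ≠ 0 → Big 1 Q → OnU (kum d P Q))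

/-- LIN (uses ZEQ, ZAL, ZSL). Proof.  `|z(aP)|, |z(bQ)| ≤ |z(P)|` (ZSL and `|d|^2 |z(P)|^4 < 1`), then
ZAL; ultrametric inequality. -/
def LinStmt : Prop := ∀ (F : Type) [NormedField F] [Algebra GaussianInt F] (ϖ : GaussianInt),
  IsLoc F ϖ → ∀ (d : F), d ≠ 0 → ∀ (a b : GaussianInt) (P Q : Pt d), Big 1 P → Big 1 Q →
    ‖zc Q‖ ≤ ‖zc P‖ → Big 1 (sm a P + sm b Q) ∧
      ‖zc (sm a P + sm b Q) - (algebraMap GaussianInt F a * zc P + algebraMap GaussianInt F b * zc Q)‖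
        ≤ ‖d‖ ^ 2 * ‖zc P‖ ^ 5

/-- CKF (uses FRA). Proof.  `τ = cX P / d`, `z = kum d P P = (τ, τ, cub τ)` (the equation of the curve)
is on U.  `frP z = mkPt (cub τ) (τ * cub τ) (cub τ ^ 2)` by definition, so by definition
`actf 1 0 k 0 z = kum (cub τ) (sm 1 (frP z) + sm 0 _) (sm k (frP z) + sm 0 _) = ck k τ`; and by FRA (it
has no condition on the determinant) `actf 1 0 k 0 (kum d P P) = kum d P (sm k P)`. -/
def CkfStmt : Prop := ∀ (F : Type) [Field F] [Algebra GaussianInt F], (2 : F) ≠ 0 →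
  ∀ (d : F), d ≠ 0 → ∀ (P : Pt d), cY P ≠ 0 → ∀ k : GaussianInt,
    ck k (cX P / d) = kum d P (sm k P)

/-- NGL (uses DIF). Local coordinates near `Q = O`.  Proof.  `P1 = (X1, Y1)`, `x1 = X1/d`,
`Y1^2 = d^3 cub x1`.  `z = (x, t, y)` on U, `x` near `x1`: `d^3 cub x / Y1^2` is near 1, let `s` be its
square root near 1 (GoodF), `Y = Y1 s`, `P = (d x, Y)` is a point near P1, so `P - P1` is in Big N
(DIF).  `Q = (d t, d^3 y / Y)` is a point since `y^2 = cub x * cub t`, `|t| > 1/r` large,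
`kum d P Q = z`. -/
def NglStmt : Prop := ∀ (F : Type) [NormedField F] [Algebra GaussianInt F], GoodF F →
  ∀ (d : F), d ≠ 0 → ∀ (P1 : Pt d), cY P1 ≠ 0 → ∀ N : ℝ, ∃ r : ℝ, 0 < r ∧
    ∀ z : F × F × F, NearG (cX P1 / d) r z → ∃ p q : Pt d, Big N p ∧ Big N q ∧ z = kum d (P1 + p) q

/-- NQT (uses GDF, FRA, KUC, NRM, KIL, LVB, ZLV, K2G).  Proof.  NRM: `z = kum d P Q`.  KUC at (P, Q): N1
for O.  LVB: ρ with Lev ρ ⊆ Big N1.  Claim: there is e, not divisible by ϖq, with `sm n P`, `sm n Q`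
in Lev ρ for all n divisible by e.  If ¬ ϖ ∣ 2: KIL (l = ϖq) for P and Q, e = the product.  If ϖ ∣ 2:
K2G with N large (LVB (2)) gives j1, j2 with `lam^j1 P`, `lam^j2 Q` in Lev ρ, e = lam^(j1+j2), Lev ρ is
stable under `sm a` (ZLV); ϖq does not divide lam^j as lam ∣ 2.  Then `actf 1 n 0 1 z =
kum d (P + nQ) Q` and `actf 1 0 n 1 z = kum d P (nP + Q)` (FRA) are in O and on U (KUC with q = 0
resp. p = 0; Big N 0 holds). -/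
def NqtRow : Prop := NqtStmt

/-- RCG (uses GDF, FRA, KUC, NRM, UNI, ZLV, LVB, INF, NGL).  Proof.  NRM: `z0 = kum d P0 Q0` in V.  KUC:
N for V.  LVB: ρ with Lev ρ ⊆ Big N.  UNI for (P0, Q0, ρ): a' e' - b' c' = 1, Q1 = c' P0 + e' Q0 in
Lev ρ, P1 = a' P0 + b' Q0, so P0 = e' P1 - b' Q1, Q0 = -c' P1 + a' Q1.  Choose t in Lev ρ (INF, LVB (2))
such that P2 = P1 + t has cY P2 ≠ 0 and 2 cX P2 ≠ -d: only finitely many t are forbidden (for every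
c there are at most three points with X = c: `eq_or_neg` of Add.lean).  x1 = cX P2 / d.  N'' with
Big N'' ⊆ Lev ρ (LVB), r from NGL for (P2, N'').  The matrix is (e', -b'; -c', a').  For z in
NearG x1 r: z = kum d (P2 + p) q with p, q in Lev ρ and (FRA) its image is
`kum d (e'(P2+p) - b' q) (-c'(P2+p) + a' q)`, where e' P2 = P0 + b' Q1 + e' t and
-c' P2 = Q0 - a' Q1 - c' t; Lev ρ is a Z[i]-submodule (ZLV), so the image is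
`kum d (P0 + p') (Q0 + q')` with p', q' in Lev ρ: in V and on U by KUC. -/
def RcgRow : Prop := RcgStmt

/-- MEE (uses GDF, FRA, NRM, MZZ, LIN, ZLV).  Proof.  η > 0 with η < |a|, |c|, η < ρ |a|^2, η ≤ 1, ρ
(`|a|` = norm of the image, not 0 by GDF); r = η, N with q^N < η.  z = kum d P Q (NRM), |x(P)|,
|x(Q)| > 1/r ≥ 1, so P, Q are in G; MZZ: `z(Q) = m z(P)`, |m| < r; `|d| |z(P)|^2 = 1/|x(P)| < r`.  LIN:
z(a'P + b'Q) = z(P)(a' + b' m + err), |err| ≤ r^2, so = z(P)(a + δ1) with |δ1| < η (a' - a is divisible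
by ϖ^N); likewise z(c'P + e'Q) = z(P)(c + δ2), |δ2| < η.  So |z(P')| = |a| |z(P)| ≠ 0,
|z(Q')| = |c| |z(P)| ≠ 0, P', Q' in G; z' = kum d P' Q' is on U (MZZ (4)) and `actf .. z = z'` (FRA).
|x(P')| = |x(P)|/|a|^2 ≥ |x(P)| > 1/ρ, |x(Q')| the same (MZZ (2), (3)); mz z' = (c + δ2)/(a + δ1) and
`(c + δ2)/(a + δ1) - c/a = (a δ2 - c δ1)/(a (a + δ1))` has norm < η/|a|^2 < ρ. -/
def MeeRow : Prop := MeeStmt

/-- MEI (uses GDF, FRA, INF, LVB, ZLV, MZZ, LIN).  Proof.  N = 1, d = 1.  P' ≠ 0 with |x(P')| > max(1, 1/ρ)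
(INF).  k with q^k < min(ρ, 1); Q1 = sm (ϖ^k) P', Q2 = sm (ϖ^(k+1)) P': in G, |z(Q1)| = q^k |z(P')|,
|z(Q2)| = q^(k+1) |z(P')| (ZLV), not 0, different.  Given the matrix, a' is not divisible by ϖ, so
a' Q1 ≠ a' Q2 (|z(a'Q_i)| = |z(Q_i)|); choose Q' in {Q1, Q2} with a' Q' ≠ c' P'.  z' = kum 1 P' Q' is on
U and in NearE 0 ρ (MZZ).  P = e' P' - b' Q', Q = -c' P' + a' Q': in G, Q ≠ 0, |z(P)| = |z(P')| (LIN,
e' prime to ϖ, ϖ ∣ b', error `≤ q^2 |z(P')|` by ZLV (8)), |z(Q)| ≤ |z(P')|.  z = kum 1 P Q is in RegO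
(MZZ) and `actf a' b' c' e' z = kum 1 (a'P + b'Q) (c'P + e'Q) = z'` (FRA). -/
def MeiRow : Prop := MeiStmt

/-- APG (uses GDF, CKF, KUC, LOC, LVB, ZLV). Approximation by the curves ck.  Proof.  O given; KUC at
(P0, Q0): N1; LVB: ρ with Lev ρ ⊆ Big N1; k0, N from the hypothesis; N2 with Big N2 ⊆ Lev ρ;
LOC at (P0, P0) (`kum d P0 P0 = (x0, x0, cub x0)`, x0 = cX P0/d, is on U) gives an open O2.
T = {τ : (τ, τ, cub τ) in O2, cub τ ≠ 0}: open, contains x0.  For τ in T: (τ, τ, cub τ) is on U, so it is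
`kum d (P0 + p) (P0 + q)` with p in Big N2, so cX (P0 + p)/d = τ, cY (P0 + p) ≠ 0 and
ck k τ = kum d (P0 + p) (k (P0 + p)) (CKF), k(P0 + p) = Q0 + ((k P0 - Q0) + k p), in Q0 + Lev ρ (ZLV). -/
def ApgStmt : Prop := ∀ (F : Type) [NormedField F] [Algebra GaussianInt F] (ϖ : GaussianInt),
  IsLoc F ϖ → ∀ (d : F), d ≠ 0 → ∀ (P0 Q0 : Pt d), OnU (kum d P0 Q0) →
    (∀ ρ : ℝ, 0 < ρ → ∃ (k0 : GaussianInt) (N : ℕ), ∀ k : GaussianInt, ϖ ^ N ∣ k - k0 →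
      Lev ρ (sm k P0 - Q0)) →
    Appr F ϖ (kum d P0 Q0)

/-- APO (uses NRM, MZZ, ZLV, DGN, APG).  Proof.  u = kum d P Q (NRM), P, Q in G, |z(Q)| ≤ |z(P)| (MZZ).
DGN (E = P, R = Q, N0 = 1): Q - k0 P in Lev ρ; N with ϖ^N G ⊆ Lev ρ (ZLV (7));
k P - Q = (k - k0) P - (Q - k0 P). -/
def ApoRow : Prop := ApoStmt

/-- APT (uses ZLV, DGN, APG).  Proof.  u = kum d P Q, E = sm (2^j) P from Reg2; `cz = zc`.  DGN (N0 = 1):
Q - a E in Lev ρ; k0 = a 2^j.  N = 2 j + M with ϖ^M G ⊆ Lev ρ: ϖ ∣ 2 and ϖ prime, so ϖ is associated to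
lam (2 = -i lam^2) and ϖ^(2j) to 2^j; if ϖ^N ∣ k - k0, then k - k0 = b 2^j with ϖ^M ∣ b, so
(k - k0) P = b E is in Lev ρ. -/
def AptRow : Prop := AptStmt

end Pool.Agent.WAP
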