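import Pool.Agent.WAP.Defs

/-!
# WAP, part G: algebra of the twists and of the pairs

Everything is proved.  `IsP P x y` means that `P` is the point with normalized coordinates
`(x, y)`, that is `P = (d x, d ^ 2 y)` on `W d`.
-/

namespace Pool.Agent.WAP.G

open Classical
open WeierstrassCurve WeierstrassCurve.Affine

section base

variable {F : Type} [Field F] {d : F}

theorem W_nonsing {d X Y : F} (h2 : (2 : F) ≠ 0) (hd : d ≠ 0) :
    (W d).Nonsingular X Y ↔ Y ^ 2 = X ^ 3 - d ^ 2 * X :=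
  W_nonsingular d X Y h2 hd

theorem W_nonsing_iff (d X Y : F) : (W d).Nonsingular X Y ↔
    Y ^ 2 = X ^ 3 - d ^ 2 * X ∧ (3 * X ^ 2 - d ^ 2 ≠ 0 ∨ 2 * Y ≠ 0) := by
  rw [Affine.nonsingular_iff, W_equation]
  simp only [W]
  constructor
  · rintro ⟨h, h1 | h1⟩
    · refine ⟨h, Or.inl ?_⟩
      intro h2; apply h1; linear_combination (-1) * h2
    · refine ⟨h, Or.inr ?_⟩
      intro h2; apply h1; linear_combination h2
  · rintro ⟨h, h1 | h1⟩
    · refine ⟨h, Or.inl ?_⟩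
      intro h2; apply h1; linear_combination (-1) * h2
    · refine ⟨h, Or.inr ?_⟩
      intro h2; apply h1; linear_combination h2

/-- `P` is the point with normalized coordinates `(x, y)`. -/
def IsP (P : Pt d) (x y : F) : Prop := ∃ h, P = Point.some (d * x) (d ^ 2 * y) h

theorem IsP.ne_zero {P : Pt d} {x y : F} (h : IsP P x y) : P ≠ 0 := by
  obtain ⟨h, rfl⟩ := h
  exact Point.some_ne_zero h

theorem IsP.xn_eq {P : Pt d} {x y : F} (hd : d ≠ 0) (h : IsP P x y) : xn P = x := by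
  obtain ⟨h, rfl⟩ := h
  show d * x / d = x
  field_simp

theorem IsP.yn_eq {P : Pt d} {x y : F} (hd : d ≠ 0) (h : IsP P x y) : yn P = y := by
  obtain ⟨h, rfl⟩ := h
  show d ^ 2 * y / d ^ 2 = y
  field_simp

theorem isP_self {P : Pt d} (hd : d ≠ 0) (h : P ≠ 0) : IsP P (xn P) (yn P) := by
  rcases P with _ | ⟨X, Y, hXY⟩
  · exact absurd rfl h
  · have e1 : d * (X / d) = X := by field_simp
    have e2 : d ^ 2 * (Y / d ^ 2) = Y := by field_simp
    show IsP (Point.some X Y hXY) (X / d) (Y / d ^ 2)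
    unfold IsP
    refine ⟨by rw [e1, e2]; exact hXY, ?_⟩
    congr 1
    · exact e1.symm
    · exact e2.symm

theorem exists_isP {P : Pt d} (hd : d ≠ 0) (h : P ≠ 0) : ∃ x y, IsP P x y :=
  ⟨_, _, isP_self hd h⟩

theorem IsP.eqn {P : Pt d} {x y : F} (hd : d ≠ 0) (h : IsP P x y) : d * y ^ 2 = cub x := by
  obtain ⟨h, rfl⟩ := h
  have h1 := ((W_nonsing_iff d _ _).1 h).1
  have h3 : d ^ 3 ≠ 0 := pow_ne_zero 3 hd
  unfold cub
  apply mul_left_cancel₀ h3
  linear_combination h1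

theorem IsP.ext {P Q : Pt d} {x y : F} (h : IsP P x y) (h' : IsP Q x y) : P = Q := by
  obtain ⟨h, rfl⟩ := h
  obtain ⟨h', rfl⟩ := h'
  rfl

theorem IsP.congr {P : Pt d} {x y x' y' : F} (h : IsP P x y) (hx : x = x') (hy : y = y') :
    IsP P x' y' := by
  subst hx hy
  exact h

/-- two points with the same normalized coordinates are equal -/
theorem eq_of_xn_yn {P Q : Pt d} (hd : d ≠ 0) (hP : P ≠ 0) (hQ : Q ≠ 0) (hx : xn P = xn Q)
    (hy : yn P = yn Q) : P = Q :=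
  (isP_self hd hP).ext ((isP_self hd hQ).congr hx.symm hy.symm)

theorem isP_mk {x y : F} (h2 : (2 : F) ≠ 0) (hd : d ≠ 0) (h : d * y ^ 2 = cub x) :
    IsP (mkPt d (d * x) (d ^ 2 * y)) x y := by
  have h1 : (W d).Nonsingular (d * x) (d ^ 2 * y) := by
    rw [W_nonsing h2 hd]
    unfold cub at h
    linear_combination d ^ 3 * h
  refine ⟨h1, ?_⟩
  unfold mkPt
  rw [dif_pos h1]

theorem IsP.neg {P : Pt d} {x y : F} (h : IsP P x y) : IsP (-P) x (-y) := by
  obtain ⟨h, rfl⟩ := h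
  have e : (W d).negY (d * x) (d ^ 2 * y) = d ^ 2 * -y := by rw [W_negY]; ring
  refine ⟨?_, ?_⟩
  · rw [← e]
    exact (nonsingular_neg _ _).2 h
  · rw [Point.neg_some]
    congr 1

/-- addition of points with different `x` -/
theorem IsP.add {P Q : Pt d} {x1 y1 x2 y2 : F} (hP : IsP P x1 y1)
    (hQ : IsP Q x2 y2) (hd : d ≠ 0) (hx : x1 ≠ x2) :
    IsP (P + Q) (d * ((y1 - y2) / (x1 - x2)) ^ 2 - x1 - x2)
      (-((y1 - y2) / (x1 - x2) * (d * ((y1 - y2) / (x1 - x2)) ^ 2 - x1 - x2 - x1) + y1)) := by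
  obtain ⟨hP, rfl⟩ := hP
  obtain ⟨hQ, rfl⟩ := hQ
  have hX : d * x1 ≠ d * x2 := fun h => hx (mul_left_cancel₀ hd h)
  have hs : (W d).slope (d * x1) (d * x2) (d ^ 2 * y1) (d ^ 2 * y2)
      = d * ((y1 - y2) / (x1 - x2)) := by
    rw [Affine.slope_of_X_ne hX]
    have h1 : x1 - x2 ≠ 0 := sub_ne_zero.2 hx
    rw [← mul_sub, ← mul_sub]
    field_simp
  have hn : ¬ (d * x1 = d * x2 ∧ d ^ 2 * y1 = (W d).negY (d * x2) (d ^ 2 * y2)) :=
    fun h => hX h.1
  have e := Point.add_some hn (h₁ := hP) (h₂ := hQ)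
  rw [e]
  have ex : (W d).addX (d * x1) (d * x2)
      ((W d).slope (d * x1) (d * x2) (d ^ 2 * y1) (d ^ 2 * y2))
      = d * (d * ((y1 - y2) / (x1 - x2)) ^ 2 - x1 - x2) := by
    rw [hs, W_addX]; ring
  have ey : (W d).addY (d * x1) (d * x2) (d ^ 2 * y1)
      ((W d).slope (d * x1) (d * x2) (d ^ 2 * y1) (d ^ 2 * y2))
      = d ^ 2 * (-((y1 - y2) / (x1 - x2) * (d * ((y1 - y2) / (x1 - x2)) ^ 2 - x1 - x2 - x1) + y1))
      := by
    rw [hs, W_addY]; ring
  refine ⟨?_, ?_⟩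
  · rw [← ex, ← ey]
    exact nonsingular_add hP hQ hn
  · congr 1

/-- duplication -/
theorem IsP.dbl {P : Pt d} {x y : F} (hP : IsP P x y) (h2 : (2 : F) ≠ 0) (hd : d ≠ 0)
    (hy : y ≠ 0) :
    IsP (P + P) ((x ^ 2 + 1) ^ 2 / (4 * cub x))
      ((x ^ 6 - 5 * x ^ 4 - 5 * x ^ 2 + 1) / (8 * d ^ 2 * y ^ 3)) := by
  have heq := hP.eqn hd
  obtain ⟨hP, rfl⟩ := hP
  have hY : d ^ 2 * y ≠ (W d).negY (d * x) (d ^ 2 * y) := by
    rw [W_negY]
    intro h
    have : 2 * (d ^ 2 * y) = 0 := by linear_combination h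
    rcases mul_eq_zero.1 this with h | h
    · exact h2 h
    · exact mul_ne_zero (pow_ne_zero 2 hd) hy h
  have hs : (W d).slope (d * x) (d * x) (d ^ 2 * y) (d ^ 2 * y)
      = (3 * x ^ 2 - 1) / (2 * y) := by
    rw [Affine.slope_of_Y_ne rfl hY, W_negY]
    simp only [W]
    rw [div_eq_div_iff]
    · ring
    · intro h
      apply mul_ne_zero h2 (mul_ne_zero (pow_ne_zero 2 hd) hy)
      linear_combination h
    · exact mul_ne_zero h2 hy
  have hn : ¬ (d * x = d * x ∧ d ^ 2 * y = (W d).negY (d * x) (d ^ 2 * y)) :=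
    fun h => hY h.2
  have hc : cub x ≠ 0 := by
    rw [← heq]
    exact mul_ne_zero hd (pow_ne_zero 2 hy)
  have h4 : (4 : F) ≠ 0 := by
    have : (4 : F) = 2 * 2 := by norm_num
    rw [this]; exact mul_ne_zero h2 h2
  have e := Point.add_some hn (h₁ := hP) (h₂ := hP)
  rw [e]
  have ex : (W d).addX (d * x) (d * x)
      ((W d).slope (d * x) (d * x) (d ^ 2 * y) (d ^ 2 * y))
      = d * ((x ^ 2 + 1) ^ 2 / (4 * cub x)) := by
    rw [hs, W_addX, ← heq]
    field_simp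
    unfold cub at heq
    linear_combination (-32 * x) * heq
  have ey : (W d).addY (d * x) (d * x) (d ^ 2 * y)
      ((W d).slope (d * x) (d * x) (d ^ 2 * y) (d ^ 2 * y))
      = d ^ 2 * ((x ^ 6 - 5 * x ^ 4 - 5 * x ^ 2 + 1) / (8 * d ^ 2 * y ^ 3)) := by
    rw [hs, W_addY]
    have h8 : (8 : F) ≠ 0 := by
      have : (8 : F) = 2 * 4 := by norm_num
      rw [this]; exact mul_ne_zero h2 h4
    field_simp
    unfold cub at heq
    linear_combination (8 * (12 * x * (3 * x ^ 2 - 1) - 8 * (d * y ^ 2 + x ^ 3 - x))) * heq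
  refine ⟨?_, ?_⟩
  · rw [← ex, ← ey]
    exact nonsingular_add hP hP hn
  · congr 1

/-- two points with the same `x` -/
theorem IsP.y_eq_or {P Q : Pt d} {x y1 y2 : F} (hP : IsP P x y1) (hQ : IsP Q x y2) (hd : d ≠ 0) :
    y1 = y2 ∨ y1 = -y2 := by
  have h1 := hP.eqn hd
  have h2 := hQ.eqn hd
  have h3 : d * ((y1 - y2) * (y1 + y2)) = 0 := by linear_combination h1 - h2
  rcases mul_eq_zero.1 h3 with h | h
  · exact absurd h hd
  rcases mul_eq_zero.1 h with h | h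
  · exact Or.inl (sub_eq_zero.1 h)
  · exact Or.inr (eq_neg_of_add_eq_zero_left h)

theorem eq_or_neg_of_xn {P Q : Pt d} (hd : d ≠ 0) (hP : P ≠ 0) (hQ : Q ≠ 0) (hx : xn P = xn Q) :
    P = Q ∨ P = -Q := by
  have h1 := isP_self hd hP
  have h2 := isP_self hd hQ
  rw [hx] at h1
  rcases h1.y_eq_or h2 hd with h | h
  · left
    rw [h] at h1
    exact h1.ext h2
  · right
    rw [h] at h1
    exact h1.ext h2.neg

theorem xn_neg (P : Pt d) : xn (-P) = xn P := by
  rcases P with _ | ⟨X, Y, h⟩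
  · rfl
  · rfl

theorem yn_neg (P : Pt d) : yn (-P) = -yn P := by
  rcases P with _ | ⟨X, Y, h⟩
  · show yn (-(0 : Pt d)) = -yn (0 : Pt d)
    rw [neg_zero, yn_zero, neg_zero]
  · show (W d).negY X Y / d ^ 2 = -(Y / d ^ 2)
    rw [W_negY]; ring

theorem zc_neg (P : Pt d) : zc (-P) = -zc P := by
  rcases P with _ | ⟨X, Y, h⟩
  · show zc (-(0 : Pt d)) = -zc (0 : Pt d)
    rw [neg_zero, zc_zero, neg_zero]
  · show X / (W d).negY X Y = -(X / Y)
    rw [W_negY, div_neg]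

theorem kum_def (P Q : Pt d) : kum d P Q = (xn P, xn Q, d * yn P * yn Q) := by
  by_cases hd : d = 0
  · subst hd
    unfold kum xn yn
    simp
  · exact kum_eq hd P Q

theorem IsP.zc_eq {P : Pt d} {x y : F} (hd : d ≠ 0) (h : IsP P x y) : zc P = x / (d * y) := by
  obtain ⟨h, rfl⟩ := h
  show d * x / (d ^ 2 * y) = x / (d * y)
  rw [pow_two, mul_assoc, mul_div_mul_left _ _ hd]

/-- the sum and the difference: the product of the `x`-coordinates -/
theorem IsP.xn_mul {P Q : Pt d} {x1 y1 x2 y2 : F} (hP : IsP P x1 y1) (hQ : IsP Q x2 y2)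
    (hd : d ≠ 0) (hx : x1 ≠ x2) :
    xn (P + Q) * xn (P - Q) = ((x1 * x2 + 1) / (x1 - x2)) ^ 2 := by
  have h1 := (hP.add hQ hd hx).xn_eq hd
  have h2 := (hP.add hQ.neg hd hx).xn_eq hd
  rw [← sub_eq_add_neg] at h2
  rw [h1, h2]
  have e1 := hP.eqn hd
  have e2 := hQ.eqn hd
  have h3 : x1 - x2 ≠ 0 := sub_ne_zero.2 hx
  unfold cub at e1 e2
  field_simp
  linear_combination (d * y1 ^ 2 - d * y2 ^ 2 + (x1 ^ 3 - x1) - (x2 ^ 3 - x2)
    - 2 * (x1 + x2) * (x1 - x2) ^ 2) * e1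
    + (-(d * y1 ^ 2 - d * y2 ^ 2 + (x1 ^ 3 - x1) - (x2 ^ 3 - x2))
    - 2 * (x1 + x2) * (x1 - x2) ^ 2) * e2

theorem IsP.add_same {P Q : Pt d} {x y : F} (hP : IsP P x y) (hQ : IsP Q x (-y)) : P + Q = 0 := by
  have h : Q = -P := hQ.ext hP.neg
  rw [h, add_neg_cancel]

/-! ### The 2-torsion points -/

theorem isP_tor (h2 : (2 : F) ≠ 0) (hd : d ≠ 0) {e : F} (he : e ^ 3 = e) :
    IsP (tor d e) e 0 := by
  have h := isP_mk (d := d) (x := e) (y := 0) h2 hd (by unfold cub; linear_combination -he)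
  have e1 : tor d e = mkPt d (d * e) (d ^ 2 * 0) := by
    unfold tor
    rw [mul_comm d e, mul_zero]
  rw [e1]
  exact h

theorem IsP.neg_self {P : Pt d} {x : F} (hP : IsP P x 0) : -P = P :=
  hP.neg.ext (hP.congr rfl (by ring))

theorem tor_add_self (h2 : (2 : F) ≠ 0) (hd : d ≠ 0) {e : F} (he : e ^ 3 = e) :
    tor d e + tor d e = 0 :=
  (isP_tor h2 hd he).add_same ((isP_tor h2 hd he).congr rfl (by ring))

/-- `P + (0, 0)` -/
theorem IsP.add_tor0 {P : Pt d} {x y : F} (hP : IsP P x y) (h2 : (2 : F) ≠ 0) (hd : d ≠ 0)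
    (hx : x ≠ 0) : IsP (P + tor d 0) (-1 / x) (y / x ^ 2) := by
  have h := hP.add (isP_tor (e := 0) h2 hd (by ring)) hd hx
  have e := hP.eqn hd
  unfold cub at e
  have ex : d * ((y - 0) / (x - 0)) ^ 2 - x - 0 = -1 / x := by
    rw [sub_zero, sub_zero, sub_zero]
    field_simp
    linear_combination e
  rw [ex] at h
  refine h.congr rfl ?_
  rw [sub_zero, sub_zero]
  field_simp
  ring

/-- `P + (1, 0)` -/
theorem IsP.add_tor1 {P : Pt d} {x y : F} (hP : IsP P x y) (h2 : (2 : F) ≠ 0) (hd : d ≠ 0)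
    (hx : x ≠ 1) : IsP (P + tor d 1) ((x + 1) / (x - 1)) (-2 * y / (x - 1) ^ 2) := by
  have h := hP.add (isP_tor (e := 1) h2 hd (by ring)) hd hx
  have e := hP.eqn hd
  unfold cub at e
  have hx1 : x - 1 ≠ 0 := sub_ne_zero.2 hx
  have ex : d * ((y - 0) / (x - 1)) ^ 2 - x - 1 = (x + 1) / (x - 1) := by
    rw [sub_zero]
    field_simp
    linear_combination e
  rw [ex] at h
  refine h.congr rfl ?_
  rw [sub_zero]
  field_simp
  ring

/-- `P + (-1, 0)` -/
theorem IsP.add_torm {P : Pt d} {x y : F} (hP : IsP P x y) (h2 : (2 : F) ≠ 0) (hd : d ≠ 0)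
    (hx : x ≠ -1) : IsP (P + tor d (-1)) ((1 - x) / (1 + x)) (-2 * y / (x + 1) ^ 2) := by
  have h := hP.add (isP_tor (e := -1) h2 hd (by ring)) hd hx
  have e := hP.eqn hd
  unfold cub at e
  have hx1 : x + 1 ≠ 0 := by
    intro h; exact hx (eq_neg_of_add_eq_zero_left h)
  have hx2 : 1 + x ≠ 0 := by rw [add_comm]; exact hx1
  have ex : d * ((y - 0) / (x - -1)) ^ 2 - x - -1 = (1 - x) / (1 + x) := by
    rw [sub_zero, sub_neg_eq_add, sub_neg_eq_add]
    field_simp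
    linear_combination (1 + x) * e
  rw [ex] at h
  refine h.congr rfl ?_
  rw [sub_zero, sub_neg_eq_add]
  field_simp
  ring

end base

section gauss

variable {F : Type} [Field F] [Algebra GaussianInt F] {d : F}

theorem ii_ne : ii F ≠ 0 := by
  intro h
  have := ii_sq (F := F)
  rw [h] at this
  simp at this

theorem ii_inv : (ii F)⁻¹ = -ii F := by
  rw [inv_eq_iff_eq_inv, ← one_div, eq_div_iff (neg_ne_zero.mpr ii_ne)]
  linear_combination -(ii_sq (F := F))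

theorem iPt_zero : iPt (0 : Pt d) = 0 := rfl

theorem iPt_add (P Q : Pt d) : iPt (P + Q) = iPt P + iPt Q := Jf_add ii_sq P Q

theorem iPt_iPt (P : Pt d) : iPt (iPt P) = -P := Jf_Jf ii_sq P

/-- the endomorphism `[i]` -/
noncomputable def ih : Pt d →+ Pt d where
  toFun := iPt
  map_zero' := rfl
  map_add' := iPt_add

theorem iPt_neg (P : Pt d) : iPt (-P) = -iPt P := map_neg ih P

theorem iPt_sub (P Q : Pt d) : iPt (P - Q) = iPt P - iPt Q := map_sub ih P Q

theorem iPt_zsmul (n : ℤ) (P : Pt d) : iPt (n • P) = n • iPt P := map_zsmul ih n P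

theorem iPt_eq_zero {P : Pt d} : iPt P = 0 ↔ P = 0 := by
  constructor
  · intro h
    have := iPt_iPt P
    rw [h, iPt_zero] at this
    exact (neg_eq_zero.1 this.symm)
  · rintro rfl; rfl

theorem sm_add (a : GaussianInt) (P Q : Pt d) : sm a (P + Q) = sm a P + sm a Q :=
  gsm_add _ a P Q

theorem add_sm (a b : GaussianInt) (P : Pt d) : sm (a + b) P = sm a P + sm b P :=
  add_gsm _ a b P

theorem mul_sm (a b : GaussianInt) (P : Pt d) : sm (a * b) P = sm a (sm b P) :=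
  mul_gsm _ a b P

@[simp] theorem sm_zero (a : GaussianInt) : sm a (0 : Pt d) = 0 := by
  simp [sm_def, iPt_zero]

@[simp] theorem zero_sm (P : Pt d) : sm 0 P = 0 := by
  simp [sm_def]

@[simp] theorem one_sm (P : Pt d) : sm 1 P = P := by
  simp [sm_def]

theorem neg_sm (a : GaussianInt) (P : Pt d) : sm (-a) P = -sm a P := by
  simp only [sm_def, Zsqrtd.re_neg, Zsqrtd.im_neg, neg_smul]
  abel

theorem sub_sm (a b : GaussianInt) (P : Pt d) : sm (a - b) P = sm a P - sm b P := by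
  rw [sub_eq_add_neg, add_sm, neg_sm, sub_eq_add_neg]

/-- `P ↦ a P` as a homomorphism -/
noncomputable def smh (a : GaussianInt) : Pt d →+ Pt d where
  toFun := sm a
  map_zero' := sm_zero a
  map_add' := sm_add a

theorem sm_neg (a : GaussianInt) (P : Pt d) : sm a (-P) = -sm a P := map_neg (smh a) P

theorem sm_sub (a : GaussianInt) (P Q : Pt d) : sm a (P - Q) = sm a P - sm a Q :=
  map_sub (smh a) P Q

theorem sm_zsmul (a : GaussianInt) (n : ℤ) (P : Pt d) : sm a (n • P) = n • sm a P :=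
  map_zsmul (smh a) n P

theorem intCast_sm (n : ℤ) (P : Pt d) : sm (n : GaussianInt) P = n • P := by
  simp [sm_def]

theorem natCast_sm (n : ℕ) (P : Pt d) : sm (n : GaussianInt) P = n • P := by
  simp [sm_def]

theorem two_sm (P : Pt d) : sm 2 P = P + P := by
  have h : (2 : GaussianInt) = 1 + 1 := by norm_num
  rw [h, add_sm, one_sm]

theorem i_sm (P : Pt d) : sm (⟨0, 1⟩ : GaussianInt) P = iPt P := by
  simp [sm_def]

theorem lam_sm (P : Pt d) : sm lam P = P + iPt P := by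
  simp [sm_def, lam]

theorem sm_comm (a b : GaussianInt) (P : Pt d) : sm a (sm b P) = sm b (sm a P) := by
  rw [← mul_sm, mul_comm, mul_sm]

theorem iPt_sm (a : GaussianInt) (P : Pt d) : iPt (sm a P) = sm a (iPt P) := by
  rw [← i_sm, ← i_sm, sm_comm]

/-- the points of `W d` form a module over the Gaussian integers -/
@[reducible] noncomputable def gmod : Module GaussianInt (Pt d) where
  smul := sm
  one_smul := one_sm
  mul_smul := mul_sm
  smul_zero := sm_zero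
  smul_add := sm_add
  add_smul := add_sm
  zero_smul := zero_sm

theorem nonsing_iPt {d X Y : F} (h : (W d).Nonsingular X Y) :
    (W d).Nonsingular (-X) (ii F * Y) := by
  rw [W_nonsing_iff] at h ⊢
  have hi : ii F * ii F = -1 := by rw [← pow_two]; exact ii_sq
  have hi0 := ii_ne (F := F)
  refine ⟨?_, ?_⟩
  · linear_combination (Y ^ 2) * hi - h.1
  · rcases h.2 with h2 | h2
    · left; intro h3; apply h2; linear_combination h3
    · right; intro h3; apply h2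
      have : ii F * (2 * Y) = 0 := by linear_combination h3
      rcases mul_eq_zero.1 this with h4 | h4
      · exact absurd h4 hi0
      · exact h4

theorem IsP.iPt {P : Pt d} {x y : F} (h : IsP P x y) : IsP (iPt P) (-x) (ii F * y) := by
  obtain ⟨h, rfl⟩ := h
  have e1 : -(d * x) = d * -x := by ring
  have e2 : ii F * (d ^ 2 * y) = d ^ 2 * (ii F * y) := by ring
  refine ⟨?_, ?_⟩
  · rw [← e1, ← e2]
    exact nonsing_iPt h
  · show Point.some _ _ _ = _
    congr 1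

theorem xn_iPt (P : Pt d) : xn (iPt P) = -xn P := by
  rcases P with _ | ⟨X, Y, h⟩
  · show xn (iPt (0 : Pt d)) = -xn (0 : Pt d)
    rw [iPt_zero, xn_zero, neg_zero]
  · show -X / d = -(X / d)
    ring

theorem yn_iPt (P : Pt d) : yn (iPt P) = ii F * yn P := by
  rcases P with _ | ⟨X, Y, h⟩
  · show yn (iPt (0 : Pt d)) = ii F * yn (0 : Pt d)
    rw [iPt_zero, yn_zero, mul_zero]
  · show ii F * Y / d ^ 2 = ii F * (Y / d ^ 2)
    ring

theorem zc_iPt (P : Pt d) : zc (iPt P) = ii F * zc P := by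
  rcases P with _ | ⟨X, Y, h⟩
  · show zc (iPt (0 : Pt d)) = ii F * zc (0 : Pt d)
    rw [iPt_zero, zc_zero, mul_zero]
  · show -X / (ii F * Y) = ii F * (X / Y)
    rw [div_eq_mul_inv, mul_inv, ii_inv]
    ring

/-- `(1 + i) P` for `x(P) ≠ 0` -/
theorem IsP.lam {P : Pt d} {x y : F} (hP : IsP P x y) (h2 : (2 : F) ≠ 0) (hd : d ≠ 0)
    (hx : x ≠ 0) :
    IsP (sm lam P) ((x ^ 2 - 1) / (2 * ii F * x))
      (-(1 + ii F) * y * (x ^ 2 + 1) / (4 * x ^ 2)) := by
  have hxx : x ≠ -x := by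
    intro h
    have : 2 * x = 0 := by linear_combination h
    rcases mul_eq_zero.1 this with h | h
    · exact h2 h
    · exact hx h
  have h := hP.add hP.iPt hd hxx
  rw [← lam_sm] at h
  have e := hP.eqn hd
  have hi : ii F * ii F = -1 := by rw [← pow_two]; exact ii_sq
  have hi0 := ii_ne (F := F)
  have h4 : (4 : F) ≠ 0 := by
    have : (4 : F) = 2 * 2 := by norm_num
    rw [this]; exact mul_ne_zero h2 h2
  unfold cub at e
  have e3 : x - -x = 2 * x := by ring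
  have ex : d * ((y - ii F * y) / (x - -x)) ^ 2 - x - -x = (x ^ 2 - 1) / (2 * ii F * x) := by
    rw [e3]
    field_simp
    linear_combination 2 * e + (ii F * d * y ^ 2 - 2 * d * y ^ 2) * hi
  rw [ex, e3] at h
  refine h.congr rfl ?_
  field_simp
  linear_combination (4 * y * (1 - x ^ 2)) * hi

/-! ### Scaling -/

end gauss

section scale

variable {F : Type} [Field F] {d : F}

theorem nonsing_sc {u X Y : F} (hu : u ≠ 0) (h : (W d).Nonsingular X Y) :
    (W (u ^ 2 * d)).Nonsingular (u ^ 2 * X) (u ^ 3 * Y) := by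
  rw [W_nonsing_iff] at h ⊢
  refine ⟨?_, ?_⟩
  · linear_combination u ^ 6 * h.1
  · rcases h.2 with h2 | h2
    · left
      have e : 3 * (u ^ 2 * X) ^ 2 - (u ^ 2 * d) ^ 2 = u ^ 4 * (3 * X ^ 2 - d ^ 2) := by ring
      rw [e]
      exact mul_ne_zero (pow_ne_zero 4 hu) h2
    · right
      have e : 2 * (u ^ 3 * Y) = u ^ 3 * (2 * Y) := by ring
      rw [e]
      exact mul_ne_zero (pow_ne_zero 3 hu) h2

/-- the isomorphism `(X, Y) ↦ (u ^ 2 X, u ^ 3 Y)` -/
noncomputable def scf (u : F) (hu : u ≠ 0) : Pt d → Pt (u ^ 2 * d)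
  | .zero => .zero
  | .some X Y h => .some (u ^ 2 * X) (u ^ 3 * Y) (nonsing_sc hu h)

theorem slope_sc {u x1 x2 y1 y2 : F} (hu : u ≠ 0) :
    (W (u ^ 2 * d)).slope (u ^ 2 * x1) (u ^ 2 * x2) (u ^ 3 * y1) (u ^ 3 * y2)
      = u * (W d).slope x1 x2 y1 y2 := by
  have hu2 : u ^ 2 ≠ 0 := pow_ne_zero 2 hu
  have hu3 : u ^ 3 ≠ 0 := pow_ne_zero 3 hu
  by_cases hx : x1 = x2
  · subst hx
    by_cases hy : y1 = -y2
    · rw [Affine.slope_of_Y_eq rfl (by rw [W_negY, hy]; ring),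
        Affine.slope_of_Y_eq rfl (by rw [W_negY, hy])]
      ring
    · rw [Affine.slope_of_Y_ne rfl (by
        rw [W_negY]
        intro h
        apply hy
        apply mul_left_cancel₀ hu3
        rw [h]; ring), Affine.slope_of_Y_ne rfl (by rw [W_negY]; exact hy)]
      simp only [W, Affine.negY]
      by_cases hz : y1 - (-y1 - 0 * x1 - 0) = 0
      · have h1 : u ^ 3 * y1 - (-(u ^ 3 * y1) - 0 * (u ^ 2 * x1) - 0)
            = u ^ 3 * (y1 - (-y1 - 0 * x1 - 0)) := by ring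
        rw [h1, hz]
        simp only [mul_zero, div_zero]
      · have h1 : u ^ 3 * y1 - (-(u ^ 3 * y1) - 0 * (u ^ 2 * x1) - 0)
            = u ^ 3 * (y1 - (-y1 - 0 * x1 - 0)) := by ring
        rw [h1, ← mul_div_assoc, div_eq_div_iff (mul_ne_zero hu3 hz) hz]
        ring
  · have hx' : u ^ 2 * x1 ≠ u ^ 2 * x2 := fun h => hx (mul_left_cancel₀ hu2 h)
    rw [Affine.slope_of_X_ne hx', Affine.slope_of_X_ne hx]
    have h1 : x1 - x2 ≠ 0 := sub_ne_zero.2 hx
    rw [← mul_sub, ← mul_sub]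
    field_simp

theorem scf_add {u : F} (hu : u ≠ 0) (P Q : Pt d) : scf u hu (P + Q) = scf u hu P + scf u hu Q := by
  have hu2 : u ^ 2 ≠ 0 := pow_ne_zero 2 hu
  have hu3 : u ^ 3 ≠ 0 := pow_ne_zero 3 hu
  rcases P with _ | ⟨x1, y1, h1⟩
  · show scf u hu (0 + Q) = 0 + scf u hu Q
    rw [zero_add, zero_add]
  rcases Q with _ | ⟨x2, y2, h2⟩
  · show scf u hu (_ + 0) = scf u hu _ + 0
    rw [add_zero, add_zero]
  by_cases hxy : x1 = x2 ∧ y1 = (W d).negY x2 y2
  · rw [Affine.Point.add_of_Y_eq hxy.1 hxy.2]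
    simp only [scf]
    rw [Affine.Point.add_of_Y_eq (by rw [hxy.1]) (by rw [hxy.2, W_negY, W_negY]; ring)]
    rfl
  · rw [Affine.Point.add_some hxy]
    have hxy' : ¬ (u ^ 2 * x1 = u ^ 2 * x2 ∧
        u ^ 3 * y1 = (W (u ^ 2 * d)).negY (u ^ 2 * x2) (u ^ 3 * y2)) := by
      rintro ⟨h3, h4⟩
      apply hxy
      refine ⟨mul_left_cancel₀ hu2 h3, ?_⟩
      rw [W_negY] at h4 ⊢
      apply mul_left_cancel₀ hu3
      rw [h4]; ring
    simp only [scf]
    rw [Affine.Point.add_some hxy']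
    congr 1
    · rw [slope_sc hu, W_addX, W_addX]
      ring
    · rw [slope_sc hu, W_addY, W_addY]
      ring

/-- the scaling homomorphism -/
noncomputable def sc (u : F) (hu : u ≠ 0) : Pt d →+ Pt (u ^ 2 * d) where
  toFun := scf u hu
  map_zero' := rfl
  map_add' := scf_add hu

theorem IsP.sc {P : Pt d} {x y u : F} (h : IsP P x y) (hu : u ≠ 0) :
    IsP (sc u hu P) x (y / u) := by
  obtain ⟨h, rfl⟩ := h
  have e1 : u ^ 2 * (d * x) = u ^ 2 * d * x := by ring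
  have e2 : u ^ 3 * (d ^ 2 * y) = (u ^ 2 * d) ^ 2 * (y / u) := by field_simp
  refine ⟨?_, ?_⟩
  · rw [← e1, ← e2]
    exact nonsing_sc hu h
  · show Point.some _ _ _ = _
    congr 1

theorem xn_sc {u : F} (hu : u ≠ 0) (P : Pt d) : xn (sc u hu P) = xn P := by
  rcases P with _ | ⟨X, Y, h⟩
  · show xn (sc u hu (0 : Pt d)) = xn (0 : Pt d)
    rw [map_zero, xn_zero, xn_zero]
  · show u ^ 2 * X / (u ^ 2 * d) = X / d
    exact mul_div_mul_left _ _ (pow_ne_zero 2 hu)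

theorem yn_sc {u : F} (hu : u ≠ 0) (P : Pt d) : yn (sc u hu P) = yn P / u := by
  rcases P with _ | ⟨X, Y, h⟩
  · show yn (sc u hu (0 : Pt d)) = yn (0 : Pt d) / u
    rw [map_zero, yn_zero, yn_zero, zero_div]
  · show u ^ 3 * Y / (u ^ 2 * d) ^ 2 = Y / d ^ 2 / u
    have e : u ^ 3 * Y / (u ^ 2 * d) ^ 2 = (u ^ 3 * Y) / (u ^ 3 * (u * d ^ 2)) := by ring
    rw [e, mul_div_mul_left _ _ (pow_ne_zero 3 hu), div_div, mul_comm]

theorem zc_sc {u : F} (hu : u ≠ 0) (P : Pt d) : zc (sc u hu P) = zc P / u := by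
  rcases P with _ | ⟨X, Y, h⟩
  · show zc (sc u hu (0 : Pt d)) = zc (0 : Pt d) / u
    rw [map_zero, zc_zero, zc_zero, zero_div]
  · show u ^ 2 * X / (u ^ 3 * Y) = X / Y / u
    have e : u ^ 2 * X / (u ^ 3 * Y) = (u ^ 2 * X) / (u ^ 2 * (u * Y)) := by ring
    rw [e, mul_div_mul_left _ _ (pow_ne_zero 2 hu), div_div, mul_comm]

theorem sc_eq_zero {u : F} (hu : u ≠ 0) {P : Pt d} : sc u hu P = 0 ↔ P = 0 := by
  constructor
  · intro h
    rcases P with _ | ⟨X, Y, hXY⟩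
    · rfl
    · exact absurd h (Point.some_ne_zero _)
  · rintro rfl; exact map_zero _

theorem kum_sc {u : F} (hu : u ≠ 0) (P Q : Pt d) :
    kum (u ^ 2 * d) (sc u hu P) (sc u hu Q) = kum d P Q := by
  rw [kum_def, kum_def, xn_sc, xn_sc, yn_sc, yn_sc]
  congr 2
  field_simp

theorem iPt_sc [Algebra GaussianInt F] {u : F} (hu : u ≠ 0) (P : Pt d) :
    iPt (sc u hu P) = sc u hu (iPt P) := by
  rcases P with _ | ⟨X, Y, h⟩
  · rfl
  · show Point.some (-(u ^ 2 * X)) (ii F * (u ^ 3 * Y)) _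
      = Point.some (u ^ 2 * -X) (u ^ 3 * (ii F * Y)) _
    congr 1
    · ring
    · ring

theorem sm_sc [Algebra GaussianInt F] {u : F} (hu : u ≠ 0) (a : GaussianInt) (P : Pt d) :
    sm a (sc u hu P) = sc u hu (sm a P) := by
  rw [sm_def, sm_def, iPt_sc, ← map_zsmul, ← map_zsmul, ← map_add]

theorem tor_sc {u : F} (h2 : (2 : F) ≠ 0) (hd : d ≠ 0) (hu : u ≠ 0) {e : F} (he : e ^ 3 = e) :
    sc u hu (tor d e) = tor (u ^ 2 * d) e :=
  ((isP_tor h2 hd he).sc hu).ext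
    ((isP_tor h2 (mul_ne_zero (pow_ne_zero 2 hu) hd) he).congr rfl (by rw [zero_div]))

end scale

/-! ### The frame of a point of the surface -/

section frames

variable {F : Type} [Field F]

theorem onU_cub1 {z : F × F × F} (h : OnU z) : cub z.1 ≠ 0 := by
  intro h0
  have h1 := h.1
  rw [h0, zero_mul] at h1
  exact h.2 ((pow_eq_zero_iff two_ne_zero).1 h1)

theorem onU_cub2 {z : F × F × F} (h : OnU z) : cub z.2.1 ≠ 0 := by
  intro h0
  have h1 := h.1
  rw [h0, mul_zero] at h1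
  exact h.2 ((pow_eq_zero_iff two_ne_zero).1 h1)

theorem ne_of_cub_ne {x : F} (h : cub x ≠ 0) : x ≠ 0 ∧ x ≠ 1 ∧ x ≠ -1 := by
  refine ⟨?_, ?_, ?_⟩
  · rintro rfl; apply h; unfold cub; ring
  · rintro rfl; apply h; unfold cub; ring
  · rintro rfl; apply h; unfold cub; ring

theorem isP_frP {z : F × F × F} (h2 : (2 : F) ≠ 0) (h : OnU z) : IsP (frP z) z.1 1 := by
  have hd := onU_cub1 h
  have h1 := isP_mk (d := cub z.1) (x := z.1) (y := 1) h2 hd (by ring)
  have e : frP z = mkPt (cub z.1) (cub z.1 * z.1) (cub z.1 ^ 2 * 1) := by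
    unfold frP
    rw [mul_comm (cub z.1) z.1, mul_one]
  rw [e]
  exact h1

theorem isP_frQ {z : F × F × F} (h2 : (2 : F) ≠ 0) (h : OnU z) :
    IsP (frQ z) z.2.1 (z.2.2 / cub z.1) := by
  have hd := onU_cub1 h
  have h1 := isP_mk (d := cub z.1) (x := z.2.1) (y := z.2.2 / cub z.1) h2 hd (by
    field_simp
    exact h.1)
  have e : frQ z = mkPt (cub z.1) (cub z.1 * z.2.1) (cub z.1 ^ 2 * (z.2.2 / cub z.1)) := by
    unfold frQ
    have e2 : cub z.1 ^ 2 * (z.2.2 / cub z.1) = z.2.2 * cub z.1 := by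
      field_simp
    rw [e2, mul_comm (cub z.1) z.2.1]
  rw [e]
  exact h1

/-- a pair of points with nonzero `y`-coordinates gives a point of `U` -/
theorem onU_kum {d : F} {P Q : Pt d} (hd : d ≠ 0) (hP : yn P ≠ 0) (hQ : yn Q ≠ 0) :
    OnU (kum d P Q) := by
  have hP0 : P ≠ 0 := by rintro rfl; exact hP yn_zero
  have hQ0 : Q ≠ 0 := by rintro rfl; exact hQ yn_zero
  have e1 := (isP_self hd hP0).eqn hd
  have e2 := (isP_self hd hQ0).eqn hd
  rw [kum_def]
  refine ⟨?_, mul_ne_zero (mul_ne_zero hd hP) hQ⟩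
  show (d * yn P * yn Q) ^ 2 = cub (xn P) * cub (xn Q)
  rw [← e1, ← e2]; ring

theorem kum_fr {z : F × F × F} (h2 : (2 : F) ≠ 0) (h : OnU z) :
    kum (cub z.1) (frP z) (frQ z) = z := by
  have hd := onU_cub1 h
  rw [kum_def, (isP_frP h2 h).xn_eq hd, (isP_frQ h2 h).xn_eq hd, (isP_frP h2 h).yn_eq hd,
    (isP_frQ h2 h).yn_eq hd]
  have e : cub z.1 * 1 * (z.2.2 / cub z.1) = z.2.2 := by field_simp
  rw [e]

theorem yn_ne_of_onU {d : F} {P Q : Pt d} (h : OnU (kum d P Q)) :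
    d ≠ 0 ∧ yn P ≠ 0 ∧ yn Q ≠ 0 := by
  have h1 := h.2
  rw [kum_def] at h1
  simp only at h1
  refine ⟨?_, ?_, ?_⟩
  · rintro rfl; apply h1; ring
  · intro h0; apply h1; rw [h0]; ring
  · intro h0; apply h1; rw [h0]; ring

theorem kum_neg {d : F} (P Q : Pt d) : kum d (-P) (-Q) = kum d P Q := by
  rw [kum_def, kum_def, xn_neg, xn_neg, yn_neg, yn_neg]
  congr 2
  ring

theorem swf_kum {d : F} (P Q : Pt d) : swf (kum d P Q) = kum d Q P := by
  rw [kum_def, kum_def]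
  unfold swf
  congr 2
  ring

theorem onU_swf {z : F × F × F} (h : OnU z) : OnU (swf z) := by
  refine ⟨?_, h.2⟩
  show z.2.2 ^ 2 = cub z.2.1 * cub z.1
  rw [h.1]; ring

omit [Field F] in
theorem swf_swf (z : F × F × F) : swf (swf z) = z := rfl

/-- uniqueness of the pair up to a common sign -/
theorem kum_inj {d : F} {P Q P' Q' : Pt d} (h : OnU (kum d P Q))
    (he : kum d P' Q' = kum d P Q) : (P' = P ∧ Q' = Q) ∨ (P' = -P ∧ Q' = -Q) := by
  obtain ⟨hd, hP, hQ⟩ := yn_ne_of_onU h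
  have h' : OnU (kum d P' Q') := by rw [he]; exact h
  obtain ⟨_, hP', hQ'⟩ := yn_ne_of_onU h'
  have hP0 : P ≠ 0 := by rintro rfl; exact hP yn_zero
  have hQ0 : Q ≠ 0 := by rintro rfl; exact hQ yn_zero
  have hP0' : P' ≠ 0 := by rintro rfl; exact hP' yn_zero
  have hQ0' : Q' ≠ 0 := by rintro rfl; exact hQ' yn_zero
  rw [kum_def, kum_def] at he
  simp only [Prod.mk.injEq] at he
  obtain ⟨h1, h2, h3⟩ := he
  rcases eq_or_neg_of_xn hd hP0' hP0 h1 with e1 | e1
  · left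
    refine ⟨e1, ?_⟩
    rw [e1] at h3
    exact eq_of_xn_yn hd hQ0' hQ0 h2 (mul_left_cancel₀ (mul_ne_zero hd hP) h3)
  · right
    refine ⟨e1, ?_⟩
    rw [e1, yn_neg] at h3
    have h4 : d * yn P * yn Q' = d * yn P * yn (-Q) := by
      rw [yn_neg]; linear_combination -h3
    exact eq_of_xn_yn hd hQ0' (neg_ne_zero.2 hQ0) (by rw [xn_neg]; exact h2)
      (mul_left_cancel₀ (mul_ne_zero hd hP) h4)

/-- `m = z(Q) / z(P)` -/
theorem mz_kum {d : F} {P Q : Pt d} (h : OnU (kum d P Q)) :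
    mz (kum d P Q) = zc Q / zc P := by
  obtain ⟨hd, hP, hQ⟩ := yn_ne_of_onU h
  have hP0 : P ≠ 0 := by rintro rfl; exact hP yn_zero
  have hQ0 : Q ≠ 0 := by rintro rfl; exact hQ yn_zero
  have iP := isP_self hd hP0
  have iQ := isP_self hd hQ0
  have e1 := iP.eqn hd
  have e2 := iQ.eqn hd
  have hc1 : cub (xn P) ≠ 0 := by rw [← e1]; exact mul_ne_zero hd (pow_ne_zero 2 hP)
  have hc2 : cub (xn Q) ≠ 0 := by rw [← e2]; exact mul_ne_zero hd (pow_ne_zero 2 hQ)
  have hx := (ne_of_cub_ne hc1).1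
  have ht := (ne_of_cub_ne hc2).1
  rw [iP.zc_eq hd, iQ.zc_eq hd, kum_def]
  show d * yn P * yn Q / (xn P * (xn Q ^ 2 - 1)) = xn Q / (d * yn Q) / (xn P / (d * yn P))
  unfold cub at e2 hc2
  have h3 : xn Q ^ 2 - 1 ≠ 0 := by
    intro h0; apply hc2; linear_combination xn Q * h0
  field_simp
  linear_combination e2

/-- translation of `Q` by `(0, 0)` -/
theorem t0f_kum (h2 : (2 : F) ≠ 0) {d : F} {P Q : Pt d} (h : OnU (kum d P Q)) :
    t0f (kum d P Q) = kum d P (Q + tor d 0) ∧ OnU (t0f (kum d P Q)) := by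
  obtain ⟨hd, hP, hQ⟩ := yn_ne_of_onU h
  have hQ0 : Q ≠ 0 := by rintro rfl; exact hQ yn_zero
  have iQ := isP_self hd hQ0
  have e2 := iQ.eqn hd
  have hc2 : cub (xn Q) ≠ 0 := by rw [← e2]; exact mul_ne_zero hd (pow_ne_zero 2 hQ)
  have ht := (ne_of_cub_ne hc2).1
  have hT := iQ.add_tor0 h2 hd ht
  have e : t0f (kum d P Q) = kum d P (Q + tor d 0) := by
    rw [kum_def, kum_def]
    unfold t0f
    rw [hT.xn_eq hd, hT.yn_eq hd]
    simp only
    congr 2
    ring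
  refine ⟨e, ?_⟩
  rw [e]
  apply onU_kum hd hP
  rw [hT.yn_eq hd]
  exact div_ne_zero hQ (pow_ne_zero 2 ht)

/-- translation of `Q` by `(1, 0)` -/
theorem tpf_kum (h2 : (2 : F) ≠ 0) {d : F} {P Q : Pt d} (h : OnU (kum d P Q)) :
    tpf (kum d P Q) = kum d P (Q + tor d 1) ∧ OnU (tpf (kum d P Q)) := by
  obtain ⟨hd, hP, hQ⟩ := yn_ne_of_onU h
  have hQ0 : Q ≠ 0 := by rintro rfl; exact hQ yn_zero
  have iQ := isP_self hd hQ0
  have e2 := iQ.eqn hd
  have hc2 : cub (xn Q) ≠ 0 := by rw [← e2]; exact mul_ne_zero hd (pow_ne_zero 2 hQ)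
  have ht := (ne_of_cub_ne hc2).2.1
  have hT := iQ.add_tor1 h2 hd ht
  have e : tpf (kum d P Q) = kum d P (Q + tor d 1) := by
    rw [kum_def, kum_def]
    unfold tpf
    rw [hT.xn_eq hd, hT.yn_eq hd]
    simp only
    congr 2
    ring
  refine ⟨e, ?_⟩
  rw [e]
  apply onU_kum hd hP
  rw [hT.yn_eq hd]
  exact div_ne_zero (mul_ne_zero (neg_ne_zero.2 h2) hQ) (pow_ne_zero 2 (sub_ne_zero.2 ht))

/-- translation of `Q` by `(-1, 0)` -/
theorem tmf_kum (h2 : (2 : F) ≠ 0) {d : F} {P Q : Pt d} (h : OnU (kum d P Q)) :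
    tmf (kum d P Q) = kum d P (Q + tor d (-1)) ∧ OnU (tmf (kum d P Q)) := by
  obtain ⟨hd, hP, hQ⟩ := yn_ne_of_onU h
  have hQ0 : Q ≠ 0 := by rintro rfl; exact hQ yn_zero
  have iQ := isP_self hd hQ0
  have e2 := iQ.eqn hd
  have hc2 : cub (xn Q) ≠ 0 := by rw [← e2]; exact mul_ne_zero hd (pow_ne_zero 2 hQ)
  have ht := (ne_of_cub_ne hc2).2.2
  have hT := iQ.add_torm h2 hd ht
  have e : tmf (kum d P Q) = kum d P (Q + tor d (-1)) := by
    rw [kum_def, kum_def]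
    unfold tmf
    rw [hT.xn_eq hd, hT.yn_eq hd]
    simp only
    congr 2
    ring
  refine ⟨e, ?_⟩
  rw [e]
  apply onU_kum hd hP
  rw [hT.yn_eq hd]
  refine div_ne_zero (mul_ne_zero (neg_ne_zero.2 h2) hQ) (pow_ne_zero 2 ?_)
  intro h0; exact ht (eq_neg_of_add_eq_zero_left h0)

/-- translation of both points by `(0, 0)` -/
theorem t00f_kum (h2 : (2 : F) ≠ 0) {d : F} {P Q : Pt d} (h : OnU (kum d P Q)) :
    t00f (kum d P Q) = kum d (P + tor d 0) (Q + tor d 0) ∧ OnU (t00f (kum d P Q)) := by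
  obtain ⟨hd, hP, hQ⟩ := yn_ne_of_onU h
  have hP0 : P ≠ 0 := by rintro rfl; exact hP yn_zero
  have hQ0 : Q ≠ 0 := by rintro rfl; exact hQ yn_zero
  have iP := isP_self hd hP0
  have iQ := isP_self hd hQ0
  have e1 := iP.eqn hd
  have e2 := iQ.eqn hd
  have hc1 : cub (xn P) ≠ 0 := by rw [← e1]; exact mul_ne_zero hd (pow_ne_zero 2 hP)
  have hc2 : cub (xn Q) ≠ 0 := by rw [← e2]; exact mul_ne_zero hd (pow_ne_zero 2 hQ)
  have hx := (ne_of_cub_ne hc1).1
  have ht := (ne_of_cub_ne hc2).1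
  have hT := iQ.add_tor0 h2 hd ht
  have hT1 := iP.add_tor0 h2 hd hx
  have e : t00f (kum d P Q) = kum d (P + tor d 0) (Q + tor d 0) := by
    rw [kum_def, kum_def]
    unfold t00f
    rw [hT.xn_eq hd, hT.yn_eq hd, hT1.xn_eq hd, hT1.yn_eq hd]
    simp only
    congr 2
    field_simp
  refine ⟨e, ?_⟩
  rw [e]
  apply onU_kum hd
  · rw [hT1.yn_eq hd]
    exact div_ne_zero hP (pow_ne_zero 2 hx)
  · rw [hT.yn_eq hd]
    exact div_ne_zero hQ (pow_ne_zero 2 ht)

/-- transport of a representation to the frame -/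
theorem exists_transport [Algebra GaussianInt F] (h2 : (2 : F) ≠ 0) {z : F × F × F} (hz : OnU z)
    {d : F} {P Q : Pt d} (h : z = kum d P Q) :
    ∃ φ : Pt d →+ Pt (cub z.1), (∀ R, φ R = 0 → R = 0) ∧ (∀ R, xn (φ R) = xn R) ∧
      (∀ R, yn (φ R) = yn R / yn P) ∧ (∀ R, zc (φ R) = zc R / yn P) ∧
      (∀ R S, kum (cub z.1) (φ R) (φ S) = kum d R S) ∧ φ P = frP z ∧ φ Q = frQ z ∧
      (∀ a R, sm a (φ R) = φ (sm a R)) ∧ (∀ e : F, e ^ 3 = e → φ (tor d e) = tor (cub z.1) e) := by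
  have hz' := hz
  rw [h] at hz'
  obtain ⟨hd, hP, hQ⟩ := yn_ne_of_onU hz'
  have hP0 : P ≠ 0 := by rintro rfl; exact hP yn_zero
  have hQ0 : Q ≠ 0 := by rintro rfl; exact hQ yn_zero
  have iP := isP_self hd hP0
  have iQ := isP_self hd hQ0
  have e1 := iP.eqn hd
  have hx : z.1 = xn P := by rw [h, kum_def]
  have ht : z.2.1 = xn Q := by rw [h, kum_def]
  have hy : z.2.2 = d * yn P * yn Q := by rw [h, kum_def]
  have key : cub z.1 = yn P ^ 2 * d := by rw [hx, ← e1]; ring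
  have fP := isP_frP h2 hz
  have fQ := isP_frQ h2 hz
  generalize frP z = A at fP ⊢
  generalize frQ z = B at fQ ⊢
  have hB : z.2.2 / cub z.1 = yn Q / yn P := by
    rw [hy, key]; field_simp
  replace fQ := fQ.congr ht hB
  replace fP := fP.congr hx rfl
  revert A B
  rw [key]
  intro A B fQ fP
  refine ⟨sc (yn P) hP, fun R hR => (sc_eq_zero hP).1 hR, xn_sc hP, yn_sc hP, zc_sc hP,
    kum_sc hP, ?_, ?_, sm_sc hP, fun e he => tor_sc h2 hd hP he⟩
  · exact ((iP.sc hP).congr rfl (by rw [div_self hP])).ext fP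
  · exact (iQ.sc hP).ext fQ

/-- the action of a matrix in any representation -/
theorem actf_kum [Algebra GaussianInt F] (h2 : (2 : F) ≠ 0) {d : F} {P Q : Pt d}
    (h : OnU (kum d P Q)) (a b c e : GaussianInt) :
    actf a b c e (kum d P Q) = kum d (sm a P + sm b Q) (sm c P + sm e Q) := by
  obtain ⟨φ, -, -, -, -, h4, h5, h6, h7, -⟩ := exists_transport h2 h rfl
  unfold actf
  rw [← h5, ← h6, h7, h7, h7, h7, ← map_add, ← map_add, h4]

/-- composition of the actions of matrices -/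
theorem actf_actf [Algebra GaussianInt F] (h2 : (2 : F) ≠ 0) {z : F × F × F}
    (a b c e a' b' c' e' : GaussianInt) (h : OnU (actf a b c e z)) :
    actf a' b' c' e' (actf a b c e z)
      = actf (a' * a + b' * c) (a' * b + b' * e) (c' * a + e' * c) (c' * b + e' * e) z := by
  have e1 : actf a b c e z
      = kum (cub z.1) (sm a (frP z) + sm b (frQ z)) (sm c (frP z) + sm e (frQ z)) := rfl
  rw [e1] at h ⊢
  rw [actf_kum h2 h]
  unfold actf
  congr 1
  · simp only [sm_add, add_sm, mul_sm]; abel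
  · simp only [sm_add, add_sm, mul_sm]; abel

theorem actf_one [Algebra GaussianInt F] (h2 : (2 : F) ≠ 0) {z : F × F × F} (hz : OnU z) :
    actf 1 0 0 1 z = z := by
  unfold actf
  simp only [one_sm, zero_sm, add_zero, zero_add]
  exact kum_fr h2 hz

end frames

end Pool.Agent.WAP.G
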