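import Pool.Agent.WAP.Defs

/-!
# Exports: the statements which the parts deliver to the induction (part I)

Universe: all fields live in `Type`.  Topologies: `F × F × F` with the product (norm) topology.
`nrm a = N(a)` for a Gaussian integer `a`.
-/

namespace Pool.Agent.WAP

open Classical

/-- local or complex field. -/
def IsLC (F : Type) [NormedField F] [Algebra GaussianInt F] : Prop :=
  (∃ ϖ, IsLoc F ϖ) ∨ IsCx F

/-- inverse letter. -/
def Letter.inv : Letter → Letter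
  | .act a b c e => .act e (-b) (-c) a
  | .sw => .sw
  | .t0 => .t0
  | .tp => .tp
  | .tm => .tm
  | .io => .io
  | .jj => .jj

/-- admissible letters: matrices of determinant 1. -/
def Letter.ok : Letter → Prop
  | .act a b c e => a * e - b * c = 1
  | _ => True

/-- the point `(P, k P)` with `x(P) = τ`. -/
noncomputable def ck {F : Type} [Field F] [Algebra GaussianInt F] (k : GaussianInt) (τ : F) :
    F × F × F :=
  kum (cub τ) (mkPt (cub τ) (τ * cub τ) (cub τ ^ 2))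
    (sm k (mkPt (cub τ) (τ * cub τ) (cub τ ^ 2)))

/-- base change of a triple. -/
def bc {K F : Type} (σ : K → F) (z : K × K × K) : F × F × F := (σ z.1, σ z.2.1, σ z.2.2)

/-! ## Part G (algebra over a field, `2 ≠ 0`) -/

/-- FRA: frames are arbitrary: if `z = kum d P Q` with `d ≠ 0` then
`actf a b c e z = kum d (aP + bQ) (cP + eQ)`, provided `z` is on `U`. -/
def FraStmt : Prop :=
  ∀ (F : Type) [Field F] [Algebra GaussianInt F], (2 : F) ≠ 0 →
  ∀ (d : F) (P Q : Pt d) (a b c e : GaussianInt), d ≠ 0 → OnU (kum d P Q) →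
    actf a b c e (kum d P Q) = kum d (sm a P + sm b Q) (sm c P + sm e Q)

/-- FRE: the canonical frame of a point of `U` is a frame and consists of nonzero points. -/
def FreStmt : Prop :=
  ∀ (F : Type) [Field F] [Algebra GaussianInt F], (2 : F) ≠ 0 →
  ∀ z : F × F × F, OnU z → cub z.1 ≠ 0 ∧ kum (cub z.1) (frP z) (frQ z) = z ∧
    frP z ≠ 0 ∧ frQ z ≠ 0

/-- INV: inverse letters. -/
def InvStmt : Prop :=
  ∀ (F : Type) [Field F] [Algebra GaussianInt F], (2 : F) ≠ 0 →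
  ∀ (l : Letter) (z z' : F × F × F), Step l z z' → Step l.inv z' z

/-- CMP: composition of two matrices. -/
def CmpStmt : Prop :=
  ∀ (F : Type) [Field F] [Algebra GaussianInt F], (2 : F) ≠ 0 →
  ∀ (a b c e a' b' c' e' : GaussianInt) (z z1 z2 : F × F × F),
    Step (.act a b c e) z z1 → Step (.act a' b' c' e') z1 z2 →
    Step (.act (a' * a + b' * c) (a' * b + b' * e) (c' * a + e' * c) (c' * b + e' * e)) z z2

/-- BCH: base change: a step over `F` starting from a `K`-rational point comes from a step over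
`K`. -/
def BchStmt : Prop :=
  ∀ (K F : Type) [Field K] [Field F] [Algebra GaussianInt K] [Algebra GaussianInt F]
    (σ : K →ₐ[GaussianInt] F), (2 : F) ≠ 0 →
  ∀ (l : Letter) (z : K × K × K) (z' : F × F × F), Step l (bc σ z) z' →
    ∃ z1 : K × K × K, Step l z z1 ∧ bc σ z1 = z'

/-- BCK: base change of the points `ck`. -/
def BckStmt : Prop :=
  ∀ (K F : Type) [Field K] [Field F] [Algebra GaussianInt K] [Algebra GaussianInt F]
    (σ : K →ₐ[GaussianInt] F), (2 : F) ≠ 0 →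
  ∀ (k : GaussianInt) (τ : K), bc σ (ck k τ) = ck k (σ τ)

/-! ## Part T (topology) -/

/-- CON: letters have open domain in `U` and are continuous there. -/
def ConStmt : Prop :=
  ∀ (F : Type) [NormedField F] [Algebra GaussianInt F], IsLC F →
  ∀ (l : Letter) (z z' : F × F × F), Step l z z' → ∀ V : Set (F × F × F), IsOpen V → z' ∈ V →
    ∃ O : Set (F × F × F), IsOpen O ∧ z ∈ O ∧ ∀ z1 ∈ O, OnU z1 → ∃ z2 ∈ V, Step l z1 z2

/-- DEN: domains of admissible letters are dense in `U`. -/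
def DenStmt : Prop :=
  ∀ (F : Type) [NormedField F] [Algebra GaussianInt F], IsLC F →
  ∀ l : Letter, l.ok → ∀ V : Set (F × F × F), IsOpen V → (∃ z ∈ V, OnU z) →
    ∃ z ∈ V, ∃ z', Step l z z'

/-- RGO: the regions are relatively open. -/
def RgoStmt : Prop :=
  ∀ (F : Type) [NormedField F] [Algebra GaussianInt F] (ϖ : GaussianInt), IsLoc F ϖ →
    (∀ z : F × F × F, RegO z → ∃ O : Set (F × F × F), IsOpen O ∧ z ∈ O ∧
      ∀ z1 ∈ O, OnU z1 → RegO z1) ∧
    (∀ z : F × F × F, Reg2 z → ∃ O : Set (F × F × F), IsOpen O ∧ z ∈ O ∧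
      ∀ z1 ∈ O, OnU z1 → Reg2 z1)

/-! ## Part L (odd and even finite places) -/

/-- NQT: small multiples which are units at `ϖq`. -/
def NqtStmt : Prop :=
  ∀ (F : Type) [NormedField F] [Algebra GaussianInt F] (ϖ ϖq : GaussianInt), IsLoc F ϖ →
    Prime ϖq → ¬ ϖq ∣ 2 → ¬ Associated ϖ ϖq → (ϖ ∣ 2 ∨ ϖ.norm ≤ ϖq.norm) →
    ∀ z : F × F × F, OnU z → ∀ O : Set (F × F × F), IsOpen O → z ∈ O →
    ∃ e : GaussianInt, ¬ ϖq ∣ e ∧ ∀ n : GaussianInt, e ∣ n →
      (∃ z' ∈ O, Step (.act 1 n 0 1) z z') ∧ (∃ z' ∈ O, Step (.act 1 0 n 1) z z')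

/-- RCG: at an odd place every open set is reached from a neighbourhood of a point of `Q = O`. -/
def RcgStmt : Prop :=
  ∀ (F : Type) [NormedField F] [Algebra GaussianInt F] (ϖ : GaussianInt), IsLoc F ϖ → ¬ ϖ ∣ 2 →
  ∀ V : Set (F × F × F), IsOpen V → (∃ z ∈ V, OnU z) →
    ∃ (a b c e : GaussianInt) (x1 : F) (r : ℝ), a * e - b * c = 1 ∧ 0 < r ∧ x1 ≠ 0 ∧ x1 ≠ 1 ∧
      x1 ≠ -1 ∧ 2 * x1 ≠ -1 ∧ ∀ z : F × F × F, NearG x1 r z → ∃ z' ∈ V, Step (.act a b c e) z z'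

/-- MEE: matrices near the exceptional curve (`a, c ≠ 0`, so no coordinate can vanish). -/
def MeeStmt : Prop :=
  ∀ (F : Type) [NormedField F] [Algebra GaussianInt F] (ϖ : GaussianInt), IsLoc F ϖ → ¬ ϖ ∣ 2 →
  ∀ (a b c e : GaussianInt) (ρ : ℝ), a * e - b * c = 1 → a ≠ 0 → c ≠ 0 → 0 < ρ →
    ∃ (r : ℝ) (N : ℕ), 0 < r ∧ ∀ a' b' c' e' : GaussianInt, a' * e' - b' * c' = 1 →
      ϖ ^ N ∣ a' - a → ϖ ^ N ∣ b' - b → ϖ ^ N ∣ c' - c → ϖ ^ N ∣ e' - e →
      ∀ z : F × F × F, NearE 0 r z → ∃ z', Step (.act a' b' c' e') z z' ∧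
        NearE (algebraMap GaussianInt F c / algebraMap GaussianInt F a) ρ z'

/-- MEI: for a matrix close to the identity there is a point in `RegO` which it moves near the
corner (choose the image `(P', Q')` first, `Q'` not a multiple relation, and apply the inverse). -/
def MeiStmt : Prop :=
  ∀ (F : Type) [NormedField F] [Algebra GaussianInt F] (ϖ : GaussianInt), IsLoc F ϖ → ¬ ϖ ∣ 2 →
  ∀ ρ : ℝ, 0 < ρ → ∃ N : ℕ, ∀ a' b' c' e' : GaussianInt, a' * e' - b' * c' = 1 →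
      ϖ ^ N ∣ a' - 1 → ϖ ^ N ∣ b' → ϖ ^ N ∣ c' → ϖ ^ N ∣ e' - 1 →
      ∃ z z' : F × F × F, RegO z ∧ Step (.act a' b' c' e') z z' ∧ NearE 0 ρ z'

/-- the approximation property of a point by the curves `ck`. -/
def Appr (F : Type) [NormedField F] [Algebra GaussianInt F] (ϖ : GaussianInt)
    (u : F × F × F) : Prop :=
  ∀ O : Set (F × F × F), IsOpen O → u ∈ O → ∃ (k0 : GaussianInt) (N : ℕ) (T : Set F),
    IsOpen T ∧ T.Nonempty ∧ ∀ (k : GaussianInt) (τ : F), ϖ ^ N ∣ k - k0 → τ ∈ T →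
      ck k τ ∈ O ∧ OnU (ck k τ)

/-- APO: odd places. -/
def ApoStmt : Prop :=
  ∀ (F : Type) [NormedField F] [Algebra GaussianInt F] (ϖ : GaussianInt), IsLoc F ϖ → ¬ ϖ ∣ 2 →
  ∀ u : F × F × F, RegO u → Appr F ϖ u

/-- APT: the place 2. -/
def AptStmt : Prop :=
  ∀ (F : Type) [NormedField F] [Algebra GaussianInt F] (ϖ : GaussianInt), IsLoc F ϖ → ϖ ∣ 2 →
  ∀ u : F × F × F, Reg2 u → Appr F ϖ u

/-! ## Part J -/

/-- JNE: `J` near a point of the exceptional curve, `m1 = -1/(2 x1)`. -/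
def JneStmt : Prop :=
  ∀ (F : Type) [NormedField F] [Algebra GaussianInt F] (ϖ : GaussianInt), IsLoc F ϖ → ¬ ϖ ∣ 2 →
  ∀ (x1 : F) (ρ : ℝ), 0 < ρ → x1 ≠ 0 → x1 ≠ 1 → x1 ≠ -1 → 2 * x1 ≠ -1 →
    ∃ r : ℝ, 0 < r ∧ ∀ z : F × F × F, NearE (-1 / (2 * x1)) r z →
      ∃ z', Step .jj z z' ∧ NearG x1 ρ z'

/-- JCO: `J` near the corner. -/
def JcoStmt : Prop :=
  ∀ (F : Type) [NormedField F] [Algebra GaussianInt F] (ϖ : GaussianInt), IsLoc F ϖ → ¬ ϖ ∣ 2 →
  ∀ ρ : ℝ, 0 < ρ → ∃ r : ℝ, 0 < r ∧ ∀ z : F × F × F, NearE 0 r z →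
    ∃ z', Step .jj z z' ∧ NearE 0 ρ z'

/-! ## Part P2 and C -/

/-- BAT: base case at the place 2. -/
def BatStmt : Prop :=
  ∀ (F : Type) [NormedField F] [Algebra GaussianInt F] (ϖ : GaussianInt), IsLoc F ϖ → ϖ ∣ 2 →
  ∀ V : Set (F × F × F), IsOpen V → (∃ z ∈ V, OnU z) →
    ∃ (L : List Letter) (u w : F × F × F), Reg2 u ∧ w ∈ V ∧ Run L u w

/-- CXD: the complex place. -/
def CxdStmt : Prop :=
  ∀ (F : Type) [NormedField F] [Algebra GaussianInt F], IsCx F →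
  ∀ V : Set (F × F × F), IsOpen V → (∃ z ∈ V, OnU z) → ∀ k0 m : GaussianInt, m ≠ 0 →
    ∃ (k : GaussianInt) (T : Set F), m ∣ k - k0 ∧ IsOpen T ∧ T.Nonempty ∧
      ∀ τ ∈ T, ck k τ ∈ V ∧ OnU (ck k τ)

end Pool.Agent.WAP
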