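import Pool.Agent.WAP.StmtsI

/-!
# Part B: bridge to the completions, approximation in `K`, the final theorem (helper95)
-/

namespace Pool.Agent.WAP

open Classical IsDedekindDomain

/-- `Z[i]` is `Z ^ 2` as a module. -/
noncomputable def giBasis : Module.Basis (Fin 2) ℤ GaussianInt :=
  Module.Basis.ofEquivFun
    { toFun := fun a => ![a.re, a.im]
      map_add' := fun a b => by
        ext i
        fin_cases i <;> simp
      map_smul' := fun n a => by
        ext i
        fin_cases i <;> simp
      invFun := fun f => ⟨f 0, f 1⟩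
      left_inv := fun a => by
        ext <;> simp
      right_inv := fun f => by
        ext i
        fin_cases i <;> simp }

instance giFree : Module.Free ℤ GaussianInt := Module.Free.of_basis giBasis

instance giFinite : Module.Finite ℤ GaussianInt := Module.Finite.of_basis giBasis

/-- **BLO** (bridge).  The completion of `Q(i)` at a prime of `Z[i]`, with the norm of Mathlib
(`N(v) ^ (- v(x))`), is a local field in the sense of `IsLoc`.
PROOF. `v.asIdeal` is principal (`Z[i]` is a PID), generated by a prime `ϖ`.  `int`, `lt_one`: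
`FinitePlace.norm_le_one`, `norm_lt_one_iff_mem`.  `res`: `K` is dense, and for `x` in `K` with
`v(x) ≤ 1` there is `a` in `Z[i]` near `x` (`exists_valuation_sub_lt_of_integer`).  `val`: the
norm is `N ^ n` with `n` an integer, and `‖ϖ‖ = N ^ (-1)`.  `sqrt`: `x = 1 + 4 a` with `‖a‖ < 1`; the map
`s ↦ a - s ^ 2` is a contraction of the closed ball with radius `‖a‖` (complete), its fixed point `s`
satisfies `s + s ^ 2 = a`, `r = 1 + 2 s`. -/
def BloStmt : Prop :=
  ∀ (K : Type) [Field K] [Algebra GaussianInt K] [IsFractionRing GaussianInt K]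
    (v : HeightOneSpectrum GaussianInt),
    ∃ ϖ : GaussianInt, v.asIdeal = Ideal.span {ϖ} ∧ IsLoc (v.adicCompletion K) ϖ

/-- **BWA** (uses CRT): weak approximation in `K = Q(i)` at finitely many finite places and the
complex place.
PROOF. `K` is dense in every `F v` (`res`, `val`): choose `s v` in `K` with `σ v (s v)` in `T v`.
Common denominator `D`: `D s v = a v` in `Z[i]`.  By CRT there is `a` with `a = a v` modulo high
powers of `ϖ v`, so `a / D` is in all `T v`.  Let `M` be the product of high powers of the `ϖ v`,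
`m` its norm; for `b` in `Z[i]` and `n` in `N` the number `a / D + M b / (1 + m) ^ n` is still in
all `T v` (`1 + m` is a unit at `ϖ v`), and these numbers are dense in `C`. -/
def BwaStmt : Prop :=
  ∀ (K : Type) [Field K] [Algebra GaussianInt K] [IsFractionRing GaussianInt K]
    (ι : Type) (F : ι → Type) [∀ v, NormedField (F v)] [∀ v, Algebra GaussianInt (F v)]
    (ϖ : ι → GaussianInt) (C : Type) [NormedField C] [Algebra GaussianInt C]
    (σ : ∀ v, K →ₐ[GaussianInt] F v) (τ : K →ₐ[GaussianInt] C) (S : Finset ι),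
    (∀ v ∈ S, IsLoc (F v) (ϖ v)) → (∀ v ∈ S, ∀ w ∈ S, v ≠ w → ¬ Associated (ϖ v) (ϖ w)) →
    IsCx C → ∀ (T : ∀ v, Set (F v)) (T' : Set C), (∀ v ∈ S, IsOpen (T v) ∧ (T v).Nonempty) →
      IsOpen T' → T'.Nonempty → ∃ t : K, (∀ v ∈ S, σ v t ∈ T v) ∧ τ t ∈ T'

/-- The `F`-points of the open surface `y ^ 2 = (x ^ 3 - x) * (t ^ 3 - t)`, `y ≠ 0`. -/
def XU (F : Type) [Field F] : Set (F × F × F) :=
  {z | z.2.2 ^ 2 = (z.1 ^ 3 - z.1) * (z.2.1 ^ 3 - z.2.1) ∧ z.2.2 ≠ 0}

/-- base change of points -/
def XU.map {K F : Type} [Field K] [Field F] (σ : K →+* F) (z : XU K) : XU F :=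
  ⟨(σ z.1.1, σ z.1.2.1, σ z.1.2.2), by
    refine ⟨?_, ?_⟩
    · have h := congrArg σ z.2.1
      simpa only [map_mul, map_pow, map_sub] using h
    · intro h
      exact z.2.2 ((map_eq_zero σ).1 h)⟩

/-- **BFI** (uses BLO, BWA, FIN): the points over `K = Q(i)` are dense in the product of the points
over all completions. -/
def BfiStmt : Prop :=
  ∀ (K : Type) [Field K] [Algebra GaussianInt K] [IsFractionRing GaussianInt K] (σ : K →+* ℂ),
    DenseRange (fun z : XU K =>
      (((fun v : HeightOneSpectrum GaussianInt =>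
        XU.map (algebraMap K (v.adicCompletion K)) z), XU.map σ z) :
        (∀ v : HeightOneSpectrum GaussianInt, XU (v.adicCompletion K)) × XU ℂ))

end Pool.Agent.WAP
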