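import Pool.Agent.WAP.Exports

/-!
# WAP, part C: the complex place (statements with complete proofs)

`F` is the field of complex numbers (`IsCx F`), `Pt (1 : F)` the group of the points of `Y ^ 2 = X ^ 3 - X`, `lam = 1 + i`,
`cz = X / Y`, `w = 1 / Y`.  No uniformisation is used.  Main row: CXD (`CxdStmt` of `Exports.lean`).

Every row: file `Pool/Agent/HelperNN_WAP/XXX.lean`, `import Pool.Agent.WAP.StmtsC`, namespace `Pool.Agent.WAP.HNN`,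
`open Pool.Agent.WAP Pool.Agent.WAP.C Classical`, theorem `xxx (h1 : UseStmt) .. : XxxStmt`.
Proved algebra: `Pool/Agent/WAP/Alg.lean` (helper40).
-/

set_option autoImplicit false

namespace Pool.Agent.WAP.C

open Classical

/-- `P` is near the point at infinity, with the size `r` -/
def nO {F : Type} [NormedField F] (r : ℝ) (P : Pt (1 : F)) : Prop := P = 0 ∨ (1 < ‖cX P‖ ∧ ‖cz P‖ ≤ r)

/-- **CZA** (medium-strong; uses nothing).  Addition in the coordinates `z = X / Y`, `w = 1 / Y`, general field.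
PROOF.  Let `P = (X1, Y1)`, `Q = (X2, Y2)`, `zi = Xi / Yi`, `wi = 1 / Yi`; `wi = zi ^ 3 - d ^ 2 * zi * wi ^ 2`.  Subtraction:
`(w1 - w2) * D = (z1 - z2) * (z1 ^ 2 + z1 * z2 + z2 ^ 2 - d ^ 2 * w1 ^ 2)`, so `w1 - w2 = α * (z1 - z2)` (also for `P = Q`, then `α` is the
slope of the tangent).  The line `w = α * z + β` contains both points; in the coordinates `X, Y`: `1 = α * X + β * Y`.  The third
point `(z3, w3)` of the line: `z ^ 3 * (1 - d ^ 2 α ^ 2) - 2 d ^ 2 α β z ^ 2 - .. = 0`, so `z1 + z2 + z3 = 2 d ^ 2 α β / (1 - d ^ 2 α ^ 2)`,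
`w3 = α z3 + β`, and `P + Q = - (third point)` has `z = - z3`, `w = - w3`.  IN LEAN it is easier to start from the formulas of
Mathlib: if `X1 ≠ X2` the slope is `l = (Y1 - Y2) / (X1 - X2)`; `β ≠ 0` (otherwise `wi = α zi`, `1 = α Xi` and `X1 = X2`) and `l = - α / β`,
`Y1 - l * X1 = 1 / β`; if `P = Q` the slope is `(3 X1 ^ 2 - d ^ 2) / (2 Y1)` and again `l = - α / β` (`β ≠ 0`: `β D = w - ..`; compute
`β * D = - 2 z ^ 3 + w + 3 d ^ 2 z w ^ 2 .. ` with the equation, or use that the tangent is not the line through the origin).  Then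
`X3 = l ^ 2 - X1 - X2`, `Y3 = - (l * X3 + 1 / β)` are the coordinates of `P + Q`; Vieta for `X ^ 3 - d ^ 2 X - (l X + 1 / β) ^ 2`:
`X1 X2 X3 = (1 / β) ^ 2`, `X1 X2 + X1 X3 + X2 X3 = - d ^ 2 - 2 l / β`, so
`Y1 * Y2 * (-Y3) = ∏ (l Xi + 1 / β) = (1 - d ^ 2 α ^ 2) / β ^ 3`, in particular `Y3 ≠ 0`, and the formula for `X3 / Y3` follows by clearing
denominators (`field_simp`, `linear_combination` with the equations of the two points); `α * (X3 / Y3) - β = 1 / Y3` is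
`α X3 + β (-Y3) = 1`.  All formulas were checked by computer. -/
def CzaStmt : Prop := ∀ (F : Type) [Field F] (d : F), (2 : F) ≠ 0 → d ≠ 0 →
  ∀ P Q : Pt d, cY P ≠ 0 → cY Q ≠ 0 → P + Q ≠ 0 → ∀ D α β : F,
    D = 1 + d ^ 2 * cz Q * (1 / cY P + 1 / cY Q) → D ≠ 0 →
    α = (cz P ^ 2 + cz P * cz Q + cz Q ^ 2 - d ^ 2 * (1 / cY P) ^ 2) / D →
    β = 1 / cY P - α * cz P → 1 - d ^ 2 * α ^ 2 ≠ 0 →
      cY (P + Q) ≠ 0 ∧ cz (P + Q) = cz P + cz Q - 2 * d ^ 2 * α * β / (1 - d ^ 2 * α ^ 2) ∧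
        1 / cY (P + Q) = α * cz (P + Q) - β

/-- **LAY** (easy; uses nothing; see `IsP.lam` in Alg.lean).  The formula for `[1 + i]`, general field (the same as `LaxStmt` in StmtsP2).
PROOF.  `P = (X, Y)`, `[i] P = (-X, i Y)`, `sm lam P = P + [i] P` (`gsm φ ⟨1, 1⟩ P = 1 • P + 1 • Jh ..`).  If `X = 0` then `Y = 0` and
`[i] P = P = - P`.  Otherwise `X ≠ - X`, the slope is `l = (Y - i Y) / (2 X)` and `X' = l ^ 2 - X + X = (1 - i) ^ 2 Y ^ 2 / (4 X ^ 2) =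
- 2 i Y ^ 2 / (4 X ^ 2)`, `X' * 2 i X = Y ^ 2 / X = X ^ 2 - d ^ 2`. -/
def LayStmt : Prop := ∀ (F : Type) [Field F] [Algebra GaussianInt F] (d : F), (2 : F) ≠ 0 → d ≠ 0 →
  ∀ P : Pt d, P ≠ 0 → (cX P = 0 → sm lam P = 0) ∧
    (cX P ≠ 0 → sm lam P ≠ 0 ∧
      cX (sm lam P) * (2 * algebraMap GaussianInt F ⟨0, 1⟩ * cX P) = cX P ^ 2 - d ^ 2)

/-- **CXF** (medium; uses nothing).  Facts about the complex numbers.
PROOF.  Transport with `σ : F ≃+* ℂ`, `‖σ x‖ = ‖x‖`; `σ (algebraMap a) = a.re + a.im * ι` with `ι = σ (algebraMap i)`, `ι ^ 2 = -1`, so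
`ι = ± I`.  (1) norms.  (2) quadratic equations: `Complex` is algebraically closed (or `exists_root` of `b ^ 2 - 4 c`).  (3) a ball of positive
radius in `ℂ` is not countable (it contains the image of a real interval, cardinality of the continuum).  (4) a bounded
infinite subset of `ℂ × ℂ` has two different points at distance `< η` (totally bounded: finitely many balls of radius `η / 2`).
(5) one of `|Re|`, `|Im|` of `z1 * conj z2` is at least `|z1| |z2| / √2 ≥ 0.7 |z1| |z2|`, so for a unit `c`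
`Re (z1 * conj (c z2)) ≥ 0.7 |z1| |z2|`; with `|z2| = θ |z1|`, `0.7 ≤ θ ≤ 1`: `|z1 - c z2| ^ 2 ≤ |z1| ^ 2 (1 + θ ^ 2 - 1.4 θ) ≤ 0.6 |z1| ^ 2 ≤
(0.78 |z1|) ^ 2`. -/
def CxfStmt : Prop := ∀ (F : Type) [NormedField F] [Algebra GaussianInt F], IsCx F →
  ((∀ n : ℕ, ‖(n : F)‖ = n) ∧ (∀ a : GaussianInt, ‖algebraMap GaussianInt F a‖ ^ 2 = (a.norm : ℝ))) ∧
  (∀ b c : F, ∃ x : F, x ^ 2 + b * x + c = 0) ∧
  (∀ (S : Set F) (x0 : F) (ε : ℝ), S.Countable → 0 < ε → ∃ τ : F, τ ∉ S ∧ ‖τ - x0‖ < ε) ∧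
  (∀ (S : Set (F × F)) (B η : ℝ), S.Infinite → (∀ p ∈ S, ‖p.1‖ ≤ B ∧ ‖p.2‖ ≤ B) → 0 < η →
    ∃ p ∈ S, ∃ q ∈ S, p ≠ q ∧ ‖p.1 - q.1‖ < η ∧ ‖p.2 - q.2‖ < η) ∧
  (∀ z1 z2 : F, z1 ≠ 0 → ‖z2‖ ≤ ‖z1‖ → 7 / 10 * ‖z1‖ ≤ ‖z2‖ →
    ∃ c : GaussianInt, (c = 1 ∨ c = -1 ∨ c = ⟨0, 1⟩ ∨ c = ⟨0, -1⟩) ∧
      ‖z1 - algebraMap GaussianInt F c * z2‖ ≤ 78 / 100 * ‖z1‖)

/-- **ZES** (medium; uses CZA, CXF).  Addition near the point at infinity.
PROOF.  `P = 0` or `Q = 0`: clear (`cz 0 = 0`).  Otherwise `1 < |X1|`, `|z1| ≤ r ≤ 1/10`, and `Y1 ≠ 0` (`Y1 ^ 2 = X1 (X1 ^ 2 - 1)`).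
`1 / z1 ^ 2 = X1 - 1 / X1`, so `|X1| ≥ |z1|⁻² - 1 ≥ 99`, `w1 = z1 / X1`, `|w1| ≤ 1.02 r ^ 3`.  If `P + Q = 0` then `z2 = - z1` and all is
clear.  Otherwise CZA with `d = 1`: `|D - 1| ≤ r * 2.04 r ^ 3`, `|α| ≤ 3.1 r ^ 2`, `|β| ≤ 4.2 r ^ 3`,
`|2 α β / (1 - α ^ 2)| ≤ 27 r ^ 5 ≤ r ^ 3`.  `|z3| ≤ 2 r + r ^ 3 ≤ 3 r` for `z3 = cz (P + Q)`.  `1 < |X3|`: otherwise `|z3| = |X3| |w3| ≤ |w3|`
(`w3 = 1 / Y3 ≠ 0`), and `w3 (1 + z3 w3) = z3 ^ 3` with `|w3| ≤ 11 r ^ 3`: `|w3| * 0.9 ≤ |z3| ^ 3 ≤ |w3| * |z3| ^ 2 ≤ |w3| * 0.09`,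
contradiction. -/
def ZesStmt : Prop := ∀ (F : Type) [NormedField F] [Algebra GaussianInt F], IsCx F →
  ∀ r : ℝ, 0 < r → r ≤ 1 / 10 → ∀ P Q : Pt (1 : F), nO r P → nO r Q →
    nO (3 * r) (P + Q) ∧ ‖cz (P + Q) - cz P - cz Q‖ ≤ r ^ 3

/-- **CLI** (medium; uses ZES).  Multiplication by a fixed Gaussian integer near the point at infinity.
PROOF.  The set of the `a` for which the statement is true contains `0`, `1`, `-1` (`cz (-P) = - cz P`, `|X|` is unchanged), `i`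
(`[i] (X, Y) = (-X, i Y)`, `cz ([i] P) = i * cz P`), is closed under `+` (ZES with `(C_a + C_b) * r`, `r1` small: the error is at
most `C r ^ 3`) and under multiplication (`mul_gsm`; or only under multiplication by `i`), so it is everything:
`a = a.re + a.im * i`, induction over natural numbers. -/
def CliStmt : Prop := ∀ (F : Type) [NormedField F] [Algebra GaussianInt F], IsCx F →
  ∀ a : GaussianInt, ∃ C r1 : ℝ, 0 < C ∧ 0 < r1 ∧ ∀ r, 0 < r → r ≤ r1 → ∀ P : Pt (1 : F), nO r P →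
    nO (C * r) (sm a P) ∧ ‖cz (sm a P) - algebraMap GaussianInt F a * cz P‖ ≤ C * r ^ 3

/-- **CGR** (medium-strong; uses ZES, CXF).  Greedy algorithm: the multiples of a small point are a net near the
point at infinity.
PROOF.  `ρ = |cz e| > 0` (`e ≠ 0`: `X ≠ 0`).  Induction over `n` with `|cz Q| ≤ ρ * (5/4) ^ n` (or `Q = 0`).  If `Q = 0` or `|cz Q| ≤ ρ` take
`a = 0`.  Otherwise let `e_j = [lam ^ j] e`.  As long as `|cz e_j| ≤ 1/20`: `e_(j+1) = e_j + [i] e_j`, by ZES (`r = |cz e_j|`)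
`|cz e_(j+1) - (1 + i) cz e_j| ≤ |cz e_j| ^ 3 ≤ |cz e_j| / 400`, so `1.41 |cz e_j| ≤ |cz e_(j+1)| ≤ 1.42 |cz e_j|` and `e_(j+1)` is near the point at
infinity (`1 < |X|`).  So there is `j` with `|cz e_j| ≤ |cz Q| ≤ 1.42 |cz e_j|`.  Let `z1 = cz Q`, `z2 = cz e_j`, `c` the unit of CXF:
`|z1 - c z2| ≤ 0.78 |z1|`, and by ZES for `Q` and `- [c] e_j` (`r = |z1|`): `|cz (Q - [c] e_j)| ≤ 0.78 |z1| + |z1| ^ 3 ≤ 0.8 |z1|`.
Induction for `Q - [c lam ^ j] e`. -/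
def CgrStmt : Prop := ∀ (F : Type) [NormedField F] [Algebra GaussianInt F], IsCx F →
  ∀ e Q : Pt (1 : F), e ≠ 0 → nO (1 / 20) e → nO (1 / 20) Q → ∃ a : GaussianInt, nO ‖cz e‖ (Q - sm a e)

/-- **CDV** (medium-strong; uses LAY, CXF).  Division by powers of `1 + i` converges to the point at infinity.
PROOF.  One step: for every `T` there is `Q` with `[lam] Q = T`; if `T = (x0, y0)`, let `X` be the root of `X ^ 2 - 2 ι x0 X - 1 = 0`
(`ι` = image of `i`) with `1 ≤ |X|` (the product of the roots is `-1`), `Y` a square root of `X ^ 3 - X`; `Q = (X, Y)` (nonsingular by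
`W_nonsingular`); LAY: `cX ([lam] Q) = x0`, so `[lam] Q = ± T`; change the sign of `Q`.  For `T = 0` take `Q = 0`.  So there is a sequence
`Q_0 = T`, `[lam] Q_(m+1) = Q_m` with `X_(m+1) - 1 / X_(m+1) = 2 ι X_m`, `1 ≤ |X_(m+1)|` (all `Q_m = 0` if `T = 0`: done).  If
`1 < |X_m|` then `|X_(m+1)| ≥ 2 |X_m| - 1`, so `|X_(m+k)| - 1 ≥ 2 ^ k (|X_m| - 1)` tends to infinity, and `|z| ^ 2 = |X / (X ^ 2 - 1)|` tends
to `0`: done.  One of `|X_1|, |X_2|, |X_3|` is `> 1`: if `|X_1| = |X_2| = 1` then `1 / X_2 = conj X_2`, `|2 ι X_1| = 2 = |X_2 - conj X_2|`, so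
`X_2 = ± i`, `X_2 ^ 2 = -1`; then `(X_3 - 1 / X_3) ^ 2 = (2 ι X_2) ^ 2 = 4`, `X_3 = ± 1 ± √2`, and `|X_3| = 1 + √2`.  (WITHOUT conj: if
`|X| = 1` and `|X - 1 / X| = 2` then `|X ^ 2 - 1| = 2`, `|X ^ 2| = 1`, so `X ^ 2 = -1` by the equality case of the triangle inequality.) -/
def CdvStmt : Prop := ∀ (F : Type) [NormedField F] [Algebra GaussianInt F], IsCx F →
  ∀ (T : Pt (1 : F)) (r : ℝ), 0 < r → ∃ (m : ℕ) (Q : Pt (1 : F)), sm (lam ^ m) Q = T ∧ nO r Q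

/-- **CDF** (medium; uses CXF).  The difference of two close points is near the point at infinity.
PROOF.  `P = (X, Y)`, `P' = (X', Y')`, `- P' = (X', - Y')`, `|X - X'| < η`, `|Y - Y'| < η`.
(1) `X ≠ X'`: the slope of `P - P'` is `l = (Y + Y') / (X - X')`, and also `l = (X ^ 2 + X X' + X' ^ 2 - 1) / (Y - Y')` if `Y ≠ Y'`
(`Y ^ 2 - Y' ^ 2 = (X - X') (X ^ 2 + X X' + X' ^ 2 - 1)`).  `Y ^ 2` and `3 X ^ 2 - 1` are not both small: `|Y| ≥ c` or `|3 X ^ 2 - 1| ≥ c` with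
`c = 1/10` for all points (if `|3 X ^ 2 - 1| < 1/10` then `0.3 ≤ |X| ^ 2 ≤ 0.4` and `|Y| ^ 2 = |X| |X ^ 2 - 1| ≥ 0.5 * 0.6`).  So
`|l| ≥ c' / η` with a constant `c' > 0` (in the second case `Y = Y'` is impossible for small `η`: it would give
`X ^ 2 + X X' + X' ^ 2 = 1`, which is excluded by `|3 X ^ 2 - 1| ≥ c` for `η` small against `B`), and `cX (P - P') = l ^ 2 - X - X'`
is as large as we want, so `1 < |cX|` and `|cz| ^ 2 = |X / (X ^ 2 - 1)| ≤ r ^ 2`.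
(2) `X = X'`: then `Y' = - Y` (`P ≠ P'`, `Y ^ 2 = Y' ^ 2`), `2 |Y| < η`, `Y ≠ 0`, `P - P' = P + P`, slope `(3 X ^ 2 - 1) / (2 Y)`,
`|3 X ^ 2 - 1| ≥ c` for small `η`, the same conclusion. -/
def CdfStmt : Prop := ∀ (F : Type) [NormedField F] [Algebra GaussianInt F], IsCx F →
  ∀ B r : ℝ, 0 < r → ∃ η > 0, ∀ P P' : Pt (1 : F), P ≠ 0 → P' ≠ 0 → P ≠ P' →
    ‖cX P‖ ≤ B → ‖cX P'‖ ≤ B → ‖cX P - cX P'‖ < η → ‖cY P - cY P'‖ < η → nO r (P - P')

/-- **CPH** (medium; uses CDF, CXF).  Pigeonhole.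
PROOF.  There is `B` such that every point `P ≠ 0` with `|cX P| > B` is `nO r` (`|z| ^ 2 = |X / (X ^ 2 - 1)|`).  If some nonzero point of `S` has
`|cX| > B` take it.  Otherwise the points of the infinite set `S` minus `0` have `|cX| ≤ B` and `|cY| ≤ B'` (`Y ^ 2 = X ^ 3 - X`), and
`P ↦ (cX P, cY P)` is injective on nonzero points, so by CXF there are `P ≠ P'` in `S` with coordinates closer than the `η` of CDF, and
`P - P'` is in `S`, not `0` and `nO r`. -/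
def CphStmt : Prop := ∀ (F : Type) [NormedField F] [Algebra GaussianInt F], IsCx F →
  ∀ S : AddSubgroup (Pt (1 : F)), (S : Set (Pt (1 : F))).Infinite → ∀ r : ℝ, 0 < r → ∃ P ∈ S, P ≠ 0 ∧ nO r P

/-- **CTB** (easy-medium; uses CLI, CPH, CXF).  Finitely many `a`-torsion points.
PROOF.  Otherwise CPH for the subgroup `{P | [a] P = 0}` gives `P ≠ 0`, `nO r P`, `[a] P = 0` for arbitrarily small `r`; apply CLI with
`|cz P|` instead of `r` (`cz P ≠ 0`): `|a| |cz P| ≤ C |cz P| ^ 3`, `|a| > 0` by CXF (`a.norm > 0`), contradiction for small `|cz P|`. -/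
def CtbStmt : Prop := ∀ (F : Type) [NormedField F] [Algebra GaussianInt F], IsCx F →
  ∀ a : GaussianInt, a ≠ 0 → {P : Pt (1 : F) | sm a P = 0}.Finite

/-- **CNO** (easy-medium; uses CTB, CXF).  Points without torsion are dense.
PROOF.  The set of the `cX P` for torsion points `P` is countable (the Gaussian integers are countable), together with `0, 1, -1` too;
CXF (3). -/
def CnoStmt : Prop := ∀ (F : Type) [NormedField F] [Algebra GaussianInt F], IsCx F →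
  ∀ (x0 : F) (ε : ℝ), 0 < ε → ∃ τ : F, ‖τ - x0‖ < ε ∧ cub τ ≠ 0 ∧
    ∀ P : Pt (1 : F), P ≠ 0 → cX P = τ → ∀ a : GaussianInt, a ≠ 0 → sm a P ≠ 0

/-- **CCT** (easy; uses GDF, TRX of StmtsT).  Continuity of the subtraction of a small point.
PROOF.  `T - D = T + (-D)`, TRX with `d = 1`, `P0 = T` gives `N`; `nO r D` implies `Big N (-D)` for small `r`, because
`|cz D| ^ 2 = |X / (X ^ 2 - 1)| ≥ 1 / (|X| + 1)`.
(Direct proof:)  `D = 0`: clear.  `D = (x, y)`, `|x|` large (as in ZES `|x| ≥ |cz D|⁻² - 1`), `T = (X, Y)`, `T - D = T + (x, -y)`, slope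
`l = (Y + y) / (X - x)` (`x ≠ X`), `cX (T - D) = l ^ 2 - X - x = ((X + x) (X x - 1) + 2 Y y) / (X - x) ^ 2` (use both curve equations),
`cX (T - D) - X = (3 X ^ 2 x - X ^ 3 - X - x + 2 Y y) / (X - x) ^ 2`; with `|y| ≤ 2 |x| ^ (3/2)` (write `y = x / z`, `|x z ^ 2| ≤ 2`) it tends to
`0` like `|x| ^ (-1/2)`; `cY (T - D) = l (X - cX (T - D)) - Y`, the main term of `l (X - cX (T - D))` is
`(y / (- x)) * (- 2 Y y / x ^ 2) = 2 Y (y ^ 2 / x ^ 3)`, which tends to `2 Y`, so `cY (T - D) → Y`.  `T - D ≠ 0` since `x ≠ X`. -/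
def CctStmt : Prop := ∀ (F : Type) [NormedField F] [Algebra GaussianInt F], IsCx F →
  ∀ (T : Pt (1 : F)) (ε : ℝ), T ≠ 0 → 0 < ε → ∃ r > 0, ∀ D : Pt (1 : F), nO r D →
    T - D ≠ 0 ∧ ‖cX (T - D) - cX T‖ < ε ∧ ‖cY (T - D) - cY T‖ < ε

/-- **CGE** (medium; uses CLI, CGR, CDV, CPH, CCT).  The multiples of a point without torsion are dense.
PROOF.  `T = T0 - U`.  CDV: `[lam ^ m] Q = T`, `nO (1/20) Q`.  Let `r` be from CCT for `T0, ε`, `C, r1` from CLI for `lam ^ m`.  CPH for the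
subgroup of the multiples `[b] P` (infinite since `P` has no torsion: `b ↦ [b] P` is injective) gives `e = [b] P ≠ 0`,
`nO r' e`, `r' ≤ 1/20`, `r' ≤ r1`, `C r' ≤ r`.  CGR: `a0` with `nO |cz e| (Q - [a0] e)`, so `nO r' ..`.  `D = [lam ^ m] (Q - [a0] e) =
T - [lam ^ m * a0 * b] P` is `nO r` by CLI.  So with `a = lam ^ m * a0 * b`: `U + [a] P = U + T - D = T0 - D`. -/
def CgeStmt : Prop := ∀ (F : Type) [NormedField F] [Algebra GaussianInt F], IsCx F →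
  ∀ P : Pt (1 : F), (∀ a : GaussianInt, a ≠ 0 → sm a P ≠ 0) →
  ∀ (U T0 : Pt (1 : F)) (ε : ℝ), T0 ≠ 0 → 0 < ε → ∃ a : GaussianInt, U + sm a P ≠ 0 ∧
    ‖cX (U + sm a P) - cX T0‖ < ε ∧ ‖cY (U + sm a P) - cY T0‖ < ε

/-- **KSC** (easy; uses nothing).  Scaling, general field (see `sc`, `sm_sc` in Alg.lean).
PROOF.  `σ 0 = 0`, `σ (X, Y) = (s ^ 2 X, s ^ 3 Y)`; the equation of `W (s ^ 2 d)` is `Y ^ 2 = X ^ 3 - s ^ 4 d ^ 2 X`.  Additivity as in `Jf_add` of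
`Curve.lean` (the slope is multiplied by `s`, `addX` by `s ^ 2`, `addY` by `s ^ 3`); it commutes with `Jf` by the definition, so with `gsm`. -/
def KscStmt : Prop := ∀ (F : Type) [Field F] [Algebra GaussianInt F] (d s : F), (2 : F) ≠ 0 → d ≠ 0 →
  s ≠ 0 → ∃ σ : Pt d →+ Pt (s ^ 2 * d), Function.Injective σ ∧
    (∀ P, cX (σ P) = s ^ 2 * cX P ∧ cY (σ P) = s ^ 3 * cY P) ∧ ∀ (a : GaussianInt) (P : Pt d), σ (sm a P) = sm a (σ P)

/-- **CFI** (medium; uses CNO, CGE, KSC, CXF).  Near every point of the surface there are points `(P, k P)`, `k` in a given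
residue class.
PROOF.  Let `(x0, t0, y0) ∈ V` be on `U`, `s0` a square root of `cub x0` (`≠ 0`), `Q0 = (t0, y0 / s0)` in `Pt 1` (affine,
`(y0 / s0) ^ 2 = cub t0`).  For `τ` near `x0` there is a square root `s` of `cub τ` near `s0` (any square root `s` satisfies
`(s - s0) (s + s0) = cub τ - cub x0`; choose the sign), and `(τ, t, s * Y)` is in `V` (and `s * Y ≠ 0`) for `(t, Y)` near `(t0, y0 / s0)`.  CNO
gives such `τ` without torsion, `P = (τ, s)` in `Pt 1`.  CGE for the point `[m] P` (without torsion), `U = [k0] P`, `T0 = Q0`: `n` with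
`Q = [k] P` near `Q0`, `k = k0 + n m`.  KSC with `d = 1`, this `s`: `σ P = (s ^ 2 τ, s ^ 4) = (D τ, D ^ 2)` for `D = s ^ 2 = cub τ`, this is
the point `mkPt D (τ * D) (D ^ 2)` of `ck` (`D = s ^ 2 * 1`: rewrite with `subst` or `Eq.rec` for the parameter), `σ Q = [k] (σ P)` has
`cX = D * cX Q`, `cY = s ^ 3 cY Q`, so `ck k τ = (τ, cX Q, D ^ 2 * s ^ 3 * cY Q / D ^ 3) = (τ, cX Q, s * cY Q)`. -/
def CfiStmt : Prop := ∀ (F : Type) [NormedField F] [Algebra GaussianInt F], IsCx F →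
  ∀ V : Set (F × F × F), IsOpen V → (∃ z ∈ V, OnU z) → ∀ k0 m : GaussianInt, m ≠ 0 →
    ∃ (k : GaussianInt) (τ : F), m ∣ k - k0 ∧ ck k τ ∈ V ∧ OnU (ck k τ)

/-- **CXD** (easy-medium; uses CFI, CON, FRA).  The complex place, theorem `cxd (..) : Pool.Agent.WAP.CxdStmt`.
PROOF.  CFI: `k, τ0`.  `D0 = cub τ0 ≠ 0` (otherwise `kum 0 ..` has zero coordinates and is not on `U`).  For `cub τ ≠ 0` let
`P = mkPt (cub τ) (τ * cub τ) (cub τ ^ 2)` (it is on the curve), `ck 1 τ = kum (cub τ) P P = (τ, τ, cub τ)` is on `U`, and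
`actf 1 0 (k - 1) 1 (ck 1 τ) = kum (cub τ) (sm 1 P + sm 0 P) (sm (k - 1) P + sm 1 P) = ck k τ` by FRA (`add_gsm`).  So
`Step (.act 1 0 (k - 1) 1) (ck 1 τ0) (ck k τ0)`.  CON: an open set `O` with `ck 1 τ0 ∈ O` such that for `z1 ∈ O` on `U` the image is in `V`.
`T = {τ | cub τ ≠ 0 ∧ (τ, τ, cub τ) ∈ O}` is open and contains `τ0`; for `τ ∈ T` the image `ck k τ` of `ck 1 τ` is in `V` and on `U`. -/
def CxdRow : Prop := CxdStmt

end Pool.Agent.WAP.C
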