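import Pool.Agent.WAP.Exports

/-!
# WAP, part P2: the place above 2 (statements with complete proofs)

Main rows: BAT (`BatStmt` of `Exports.lean`) and K2G.

Every row: file `Pool/Agent/HelperNN_WAP/XXX.lean`, `import Pool.Agent.WAP.StmtsP2`, namespace `Pool.Agent.WAP.HNN`,
`open Pool.Agent.WAP Pool.Agent.WAP.P2 Classical`, theorem `xxx (h1 : UseStmt) .. : XxxStmt`.
Proved algebra: `Pool/Agent/WAP/Alg.lean` (helper40).

`v` is the valuation with `v lam = 1`, `lam = 1 + i`, `v 2 = 2`.  A number `x` is of type A if `v x = 0` and `v (x - 1) = 1`.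
-/

set_option autoImplicit false

namespace Pool.Agent.WAP.P2

open Classical

/-- the image of `1 + i` -/
noncomputable def la (F : Type) [NormedField F] [Algebra GaussianInt F] : F := algebraMap GaussianInt F lam

/-- `v` is the valuation of a local field above 2 -/
structure IsV (F : Type) [NormedField F] [Algebra GaussianInt F] (v : F → ℤ) : Prop where
  pos : 0 < ‖la F‖
  lt : ‖la F‖ < 1
  norm : ∀ x : F, x ≠ 0 → ‖x‖ = ‖la F‖ ^ (v x)
  mul : ∀ x y : F, x ≠ 0 → y ≠ 0 → v (x * y) = v x + v y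
  add : ∀ x y : F, x ≠ 0 → y ≠ 0 → x + y ≠ 0 → min (v x) (v y) ≤ v (x + y)
  two_ne : (2 : F) ≠ 0
  two : v 2 = 2
  res : ∀ x : F, x ≠ 0 → v x = 0 → x ≠ 1 → 1 ≤ v (x - 1)

section tools

variable {F : Type} [NormedField F] [Algebra GaussianInt F] {v : F → ℤ}

theorem IsV.one (h : IsV F v) : v 1 = 0 := by
  have := h.mul 1 1 one_ne_zero one_ne_zero
  rw [one_mul] at this
  omega

theorem IsV.neg_one (h : IsV F v) : v (-1) = 0 := by
  have := h.mul (-1) (-1) (neg_ne_zero.2 one_ne_zero) (neg_ne_zero.2 one_ne_zero)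
  rw [neg_mul_neg, one_mul, h.one] at this
  omega

theorem IsV.neg (h : IsV F v) (x : F) (hx : x ≠ 0) : v (-x) = v x := by
  have := h.mul (-1) x (neg_ne_zero.2 one_ne_zero) hx
  rw [neg_one_mul, h.neg_one] at this
  omega

theorem IsV.inv (h : IsV F v) (x : F) (hx : x ≠ 0) : v x⁻¹ = - v x := by
  have := h.mul x x⁻¹ hx (inv_ne_zero hx)
  rw [mul_inv_cancel₀ hx, h.one] at this
  omega

theorem IsV.div (h : IsV F v) (x y : F) (hx : x ≠ 0) (hy : y ≠ 0) : v (x / y) = v x - v y := by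
  rw [div_eq_mul_inv, h.mul x y⁻¹ hx (inv_ne_zero hy), h.inv y hy]
  omega

theorem IsV.pow (h : IsV F v) (x : F) (hx : x ≠ 0) (n : ℕ) : v (x ^ n) = n * v x := by
  induction n with
  | zero => rw [pow_zero, h.one]; simp
  | succ n ih => rw [pow_succ, h.mul _ _ (pow_ne_zero n hx) hx, ih]; push_cast; ring

/-- the sum of two numbers with different valuations is not zero and has the smaller valuation -/
theorem IsV.add_lt (h : IsV F v) (x y : F) (hx : x ≠ 0) (hy : y = 0 ∨ v x < v y) :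
    x + y ≠ 0 ∧ v (x + y) = v x := by
  rcases hy with rfl | hlt
  · rw [add_zero]; exact ⟨hx, rfl⟩
  by_cases hy0 : y = 0
  · rw [hy0, add_zero]; exact ⟨hx, rfl⟩
  have hne : x + y ≠ 0 := by
    intro h0
    have h1 : y = -x := by rw [eq_neg_iff_add_eq_zero, add_comm]; exact h0
    rw [h1, h.neg x hx] at hlt
    exact lt_irrefl _ hlt
  refine ⟨hne, ?_⟩
  have h1 := h.add x y hx hy0 hne
  rw [min_eq_left hlt.le] at h1
  have h2 := h.add (x + y) (-y) hne (neg_ne_zero.2 hy0) (by rw [add_neg_cancel_right]; exact hx)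
  rw [add_neg_cancel_right, h.neg y hy0] at h2
  rcases le_total (v (x + y)) (v y) with h3 | h3
  · rw [min_eq_left h3] at h2
    omega
  · rw [min_eq_right h3] at h2
    omega

theorem IsV.lt_iff (h : IsV F v) (x y : F) (hx : x ≠ 0) (hy : y ≠ 0) : ‖x‖ < ‖y‖ ↔ v y < v x := by
  rw [h.norm x hx, h.norm y hy]
  exact zpow_lt_zpow_iff_right_of_lt_one₀ h.pos h.lt

theorem IsV.one_lt_iff (h : IsV F v) (x : F) (hx : x ≠ 0) : 1 < ‖x‖ ↔ v x < 0 := by
  have := h.lt_iff 1 x one_ne_zero hx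
  rw [norm_one, h.one] at this
  exact this

end tools

/-- `x` is of type A -/
def TypA {F : Type} [Field F] (v : F → ℤ) (x : F) : Prop := x ≠ 0 ∧ x ≠ 1 ∧ v x = 0 ∧ v (x - 1) = 1

/-- **VEX** (medium; uses nothing).  The valuation.
PROOF.  `2 = (0 - i) * lam ^ 2` in the Gaussian integers, `ϖ` is prime and divides `2`, so `ϖ ∣ lam`; `lam` is prime (norm 2), so `lam = ϖ u` with
a unit `u` (or: norms), and `‖u‖ = 1` for units (`int` for `u` and `u⁻¹`), so `‖la F‖ = ‖ϖ‖`, which is positive (`uni`) and smaller than `1`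
(`lt_one`).  `v x` = the exponent of `val` (unique), `v 0 = 0`.  `mul`: `norm_mul`, uniqueness.  `add`: `ultra`.  `two`: `2 = - i lam ^ 2`,
`‖i‖ = 1`.  `res`: `‖x‖ = 1`, `res` of `IsLoc` gives `a` with `‖x - a‖ < 1`; `‖a‖ = 1`, so `ϖ` does not divide `a`, so `lam` does not divide
`a`, so `lam ∣ a - 1` (`a = p + q i`, `p + q` is odd), `‖a - 1‖ < 1`, `‖x - 1‖ < 1` by `ultra`. -/
def VexStmt : Prop := ∀ (F : Type) [NormedField F] [Algebra GaussianInt F] (ϖ : GaussianInt), IsLoc F ϖ → ϖ ∣ 2 →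
  ∃ v : F → ℤ, IsV F v

/-- **TYS** (easy; uses nothing).  Numbers which are not of type A.
PROOF.  `v x < 0`: first.  `v x > 0`: second (`IsV.div`).  `v x = 0`: `v (x - 1) ≥ 1` by `res`, not `1`.  If `v (x - 1) ≥ 3` then
`x + 1 = 2 + (x - 1)`, `v (x + 1) = 2` (`IsV.add_lt`), third.  If `v (x - 1) = 2` then `x - 1 = 2 e` with `v e = 0`, `e ≠ -1`,
`v (e + 1) ≥ 1` (`res` for `-e`), `x + 1 = 2 (e + 1)`, `v (x + 1) ≥ 3`, fourth (`v (1 - x) = 2`). -/
def TysStmt : Prop := ∀ (F : Type) [NormedField F] [Algebra GaussianInt F] (v : F → ℤ), IsV F v →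
  ∀ x : F, x ≠ 0 → x ≠ 1 → x ≠ -1 → ¬ TypA v x →
    v x < 0 ∨ v (-1 / x) < 0 ∨ v ((x + 1) / (x - 1)) < 0 ∨ v ((1 - x) / (1 + x)) < 0

/-- **TYO** (easy-medium; uses nothing).  Types are locally constant.
PROOF.  For `‖x1 - x‖` smaller than `‖x‖`, `‖x - 1‖`, `‖x + 1‖` (all positive): `v x1 = v x`, `v (x1 - 1) = v (x - 1)`,
`v (x1 + 1) = v (x + 1)` (`x1 = x + (x1 - x)`, `IsV.add_lt`), and `cub x1 = x1 (x1 - 1) (x1 + 1)`. -/
def TyoStmt : Prop := ∀ (F : Type) [NormedField F] [Algebra GaussianInt F] (v : F → ℤ), IsV F v →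
  ∀ x : F, x ≠ 0 → x ≠ 1 → x ≠ -1 → ∃ ε > 0, ∀ x1 : F, ‖x1 - x‖ < ε →
    x1 ≠ 0 ∧ x1 ≠ 1 ∧ x1 ≠ -1 ∧ (TypA v x1 ↔ TypA v x) ∧ v (cub x1) = v (cub x)

/-- **IDN** (easy-medium; uses nothing).  The class of the image of `ι`, general field.
PROOF.  Clear denominators, `ring` (a polynomial identity in `x`, `t`; with `a = x - 1`, `b = t - 1`: `D = 2 a + 2 b + 3 a b`,
`s = - 2 (3 + a + b) / D`, `cub (1 + s a) = s a (1 + s a) (2 + s a)`).  The second identity is the first one with `x` and `t` exchanged. -/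
def IdnStmt : Prop := ∀ (F : Type) [Field F] (x t : F), 3 * x * t - x - t - 1 ≠ 0 →
  cub (1 + (-2 * (x + t + 1) / (3 * x * t - x - t - 1)) * (x - 1)) =
    (-4 * (x + t + 1) * (t - 2 * x + 1) * (2 * t - x - 1) / (3 * x * t - x - t - 1) ^ 3) * cub x ∧
  cub (1 + (-2 * (x + t + 1) / (3 * x * t - x - t - 1)) * (t - 1)) =
    (-4 * (x + t + 1) * (t - 2 * x + 1) * (2 * t - x - 1) / (3 * x * t - x - t - 1) ^ 3) * cub t

/-- **RHO** (medium; uses nothing).  The valuation of the factor is odd.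
PROOF.  `a = x - 1`, `b = t - 1`, `v b = 1`, `v (t + 1) = 1` (`t + 1 = b + 2`), `v 4 = 4`, `v 3 = 0` (`3 = 1 + 2`), `v (3 t - 1) = 1`
(`3 b + 2`), `D = x (3 t - 1) - (t + 1) = 2 a + 2 b + 3 a b`.  `cub x = x (x - 1) (x + 1)`.  All steps with `IsV.add_lt`.
(1) `v x = n < 0`: `v (cub x) = 3 n`, so `n` is even, `n ≤ -2`.  `v (x + t + 1) = n`, `v (t - 2 x + 1) = n + 2`, `v (2 t - x - 1) = n`,
`v D = n + 1`: `4 + n + (n + 2) + n - 3 (n + 1) = 3`.
(2) `v x = n > 0`: `v (cub x) = n` is even, `n ≥ 2`.  `v (x + t + 1) = 1`, `v (t - 2 x + 1) = 1`, `v (2 t - x - 1) = 0`, `v D = 1`: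
`4 + 1 + 1 + 0 - 3 = 3`.
(3) `v x = 0`, `v a = 2`: `v (cub x) = 2 + v (x + 1)`, `v (x + 1) ≥ 3` (see TYS), so `v (x + 1) ≥ 4`.  `v (x + t + 1) = 0` (`a + b + 3`),
`v (t - 2 x + 1) = 1` (`b - 2 a`), `v (2 t - x - 1) = 2` (`2 b - a`), `D = 2 a + b (2 + 3 a)`, `2 + 3 a = (x + 1) + 2 a`, `v ≥ 4` (or zero), so
`v D = 4`: `4 + 0 + 1 + 2 - 12 = -5`.
(4) `v x = 0`, `v a = m ≥ 3`: `v (x + 1) = 2`, `v (cub x) = m + 2`, so `m ≥ 4`.  `v (x + t + 1) = 0`, `v (b - 2 a) = 1`, `v (2 b - a) = 3`,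
`v D = 3` (`v (2 b) = 3`, the other terms have `v ≥ 5`): `4 + 0 + 1 + 3 - 9 = -1`. -/
def RhoStmt : Prop := ∀ (F : Type) [NormedField F] [Algebra GaussianInt F] (v : F → ℤ), IsV F v →
  ∀ x t : F, x ≠ 0 → x ≠ 1 → x ≠ -1 → ¬ TypA v x → TypA v t → Even (v (cub x)) →
    3 * x * t - x - t - 1 ≠ 0 ∧
    Odd (v (-4 * (x + t + 1) * (t - 2 * x + 1) * (2 * t - x - 1) / (3 * x * t - x - t - 1) ^ 3)) ∧
    -4 * (x + t + 1) * (t - 2 * x + 1) * (2 * t - x - 1) / (3 * x * t - x - t - 1) ^ 3 ≠ 0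

/-- **EVN** (easy; uses nothing).  Parity of the class.
PROOF.  `cub t = t (t - 1) (t + 1)`, `v = 0 + 1 + 1 = 2` (`t + 1 = (t - 1) + 2`).  `z.2.2 ^ 2 = cub z.1 * cub z.2.1`, all nonzero, so the sum of the
two valuations is even. -/
def EvnStmt : Prop := ∀ (F : Type) [NormedField F] [Algebra GaussianInt F] (v : F → ℤ), IsV F v →
  (∀ t : F, TypA v t → cub t ≠ 0 ∧ v (cub t) = 2) ∧
  ∀ z : F × F × F, OnU z → Even (v (cub z.1) + v (cub z.2.1))

/-- **COL** (medium; uses nothing).  Three collinear points, general field.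
PROOF.  `P = (X1, Y1)`, `Q = (X2, Y2)`, `P + Q = (X3, -Y3)`, all affine; the line `Y = l X + n` through `P` and `Q` (slope of Mathlib,
`X1 ≠ X2` or `P = Q` with `Y1 ≠ 0`) contains `(X3, Y3)`: `X ^ 3 - d ^ 2 X - (l X + n) ^ 2 = (X - X1) (X - X2) (X - X3)` (`X1 + X2 + X3 = l ^ 2`,
and both sides vanish in the same points; for `P = Q` the tangent).  `X = d`: `- (l d + n) ^ 2 = (d - X1) (d - X2) (d - X3)`, divide by
`- d ^ 3`: `∏ (Xi / d - 1) = (l d + n) ^ 2 / d ^ 3 = d * ((l d + n) / d ^ 2) ^ 2`. -/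
def ColStmt : Prop := ∀ (F : Type) [Field F] (d : F), (2 : F) ≠ 0 → d ≠ 0 → ∀ P Q : Pt d, P ≠ 0 → Q ≠ 0 →
  P + Q ≠ 0 → ∃ m : F, (cX P / d - 1) * (cX Q / d - 1) * (cX (P + Q) / d - 1) = d * m ^ 2

/-- **AAS** (easy-medium; uses COL, EVN).  The sum of two points of type A is not of type A.
PROOF.  If `P + Q = 0` then `cX (P + Q) / d = 0`.  If `cX (P + Q) / d = 1` clear.  `P = (X, Y)` with `x = X / d` of type A:
`Y ^ 2 = X ^ 3 - d ^ 2 X = d ^ 3 * cub x`, so `3 v d + 2` is even and `v d` is even.  COL: `1 + 1 + v (x3 - 1) = v d + 2 v m` (`m ≠ 0` since the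
left side is not zero), so `v (x3 - 1)` is even. -/
def AasStmt : Prop := ∀ (F : Type) [NormedField F] [Algebra GaussianInt F] (v : F → ℤ), IsV F v →
  ∀ (d : F) (P Q : Pt d), d ≠ 0 → P ≠ 0 → Q ≠ 0 → TypA v (cX P / d) → TypA v (cX Q / d) →
    ¬ TypA v (cX (P + Q) / d)

/-- **BS1** (medium; uses TYS, FRE).  Both coordinates are not of type A.
PROOF.  `OnU z`: `x, t` are different from `0, 1, -1`.  By TYS for `t` one of `t`, `-1/t`, `(t+1)/(t-1)`, `(1-t)/(1+t)` has negative valuation: apply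
the letter `t0`, `tp`, `tm` or nothing; the image is on `U` (`cub (-1/t) = cub t / t ^ 4`, `cub ((t+1)/(t-1)) = 4 cub t / (t - 1) ^ 4`,
`cub ((1-t)/(1+t)) = 4 cub t / (1+t) ^ 4`), the first coordinate is unchanged.  `sw`, the same for the other coordinate.  So a word of at
most four letters maps `z` to `z1` with `1 < ‖z1.1‖`, `1 < ‖z1.2.1‖`; `t0, tp, tm, sw` are involutions, so the reversed word maps `z1` to `z`.
`z1 = kum d P Q` with `d = cub z1.1`, `P = frP z1`, `Q = frQ z1` (FRE), nonzero, `Big 1 P`, `Big 1 Q` (`cX P / d = z1.1`), `sm (2 ^ 0) P = P`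
(`gsm φ 1 P = P`, `Curve.lean`).  If `‖cz Q‖ ≤ ‖cz P‖` then `Reg2 z1`, otherwise `Reg2 (swf z1)` (`swf (kum d P Q) = kum d Q P`), one more
letter `sw`. -/
def Bs1Stmt : Prop := ∀ (F : Type) [NormedField F] [Algebra GaussianInt F] (v : F → ℤ), IsV F v →
  ∀ z : F × F × F, OnU z → ¬ TypA v z.1 → ¬ TypA v z.2.1 → ∃ (L : List Letter) (u : F × F × F), Reg2 u ∧ Run L u z

/-- **BAT** (medium; uses VEX, TYO, IDN, RHO, EVN, AAS, BS1, FRA, FRE, INV, CON, DEN).  The base case, theorem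
`bat (..) : Pool.Agent.WAP.BatStmt`.
PROOF.  `v` from VEX, `z0 ∈ V` on `U`.
(1) `x, t` not of type A: BS1 for `z0`.
(2) `t` of type A, `x` not: by TYO there is an open neighbourhood `V' ⊆ V` of `z0` in which the types of `x`, `t` and `v (cub x)`, `v (cub t)` do
not change; DEN for the letter `io`: `z ∈ V'` and `z' = iotaf z`, `Step .io z z'`.  `v (cub t) = 2`, so `v (cub x)` is even (EVN), so by RHO and
IDN `v (cub z'.1) = v ρ + v (cub x)` is odd and `v (cub z'.2.1) = v ρ + 2` is odd, so `z'.1`, `z'.2.1` are not of type A (EVN).  BS1 for `z'`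
gives `L, u`; `Step .io z' z` (INV): the word `L ++ [.io]` maps `u` to `z ∈ V`.
(3) `x` of type A, `t` not: (2) for the open set `{z | swf z ∈ V}` and the point `swf z0`, append the letter `sw`.
(4) both of type A: `V'` as in (2); DEN for the letter `act 1 0 1 1`: `z ∈ V'`, `z' = actf 1 0 1 1 z = kum d P (P + Q)` for `d = cub z.1`, `P = frP z`,
`Q = frQ z` (FRE, FRA); `z'.1 = z.1` is of type A, `z'.2.1` is not (AAS).  Let `O` be an open set with `z' ∈ O` such that every point of `O` on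
`U` is mapped into `V'` by `act 1 0 (-1) 1` (CON of the exports for `Step (act 1 0 (-1) 1) z' z`, INV); (3) for `O` and
`z'` gives `L, u`, `w ∈ O`, and one more letter. -/
def BatRow : Prop := BatStmt

/-- **LAX** (easy; uses nothing).  The formula for `[1 + i]`, general field (see `IsP.lam` in Alg.lean).
PROOF.  `P = (X, Y)`, `[i] P = (-X, i Y)`, `sm lam P = P + [i] P` (`gsm φ ⟨1, 1⟩ P = 1 • P + 1 • Jh ..`).  If `X = 0` then `Y = 0` and
`[i] P = P = - P`.  Otherwise `X ≠ - X`, the slope is `l = (Y - i Y) / (2 X)` and `X' = l ^ 2 - X + X = (1 - i) ^ 2 Y ^ 2 / (4 X ^ 2) =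
- 2 i Y ^ 2 / (4 X ^ 2)`, `X' * 2 i X = Y ^ 2 / X = X ^ 2 - d ^ 2`. -/
def LaxStmt : Prop := ∀ (F : Type) [Field F] [Algebra GaussianInt F] (d : F), (2 : F) ≠ 0 → d ≠ 0 →
  ∀ P : Pt d, P ≠ 0 → (cX P = 0 → sm lam P = 0) ∧
    (cX P ≠ 0 → sm lam P ≠ 0 ∧
      cX (sm lam P) * (2 * algebraMap GaussianInt F ⟨0, 1⟩ * cX P) = cX P ^ 2 - d ^ 2)

/-- **K2G** (medium; uses VEX, LAX).  Every point goes to the origin under the powers of `1 + i`.
PROOF.  `x = cX P / d`, `x' = cX (sm lam P) / d = (x ^ 2 - 1) / (2 i x)` (`x ≠ 0`), `v (2 i) = 2`.  (a) `v x < 0`: `v x' = v x - 2`.  (b) `v x > 0`: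
`v x' = - 2 - v x < 0`.  (c) `v x = 0`, `v (x - 1) ≥ 2` (`x ≠ 1, -1`): `v (x ^ 2 - 1) ≥ 5` (see TYS), `v x' ≥ 3`; then (b).  (d) `v x = 0`,
`v (x - 1) = 1`: `x = 1 + la e`, `v e = 0`, `x ^ 2 - 1 = la ^ 2 e (e - i la)` (`2 = - i la ^ 2`), `la ^ 2 = 2 i`, so
`x' = e (e - i la) / (1 + la e)` and `x' - 1 = (e ^ 2 - 1 - la (i e + e)) / (1 + la e)`, `e ^ 2 - 1 = (e - 1) (e + 1)` has `v ≥ 2` or is zero,
`la (1 + i) e = la ^ 2 e`: so `v (x' - 1) ≥ 2` (or `x' = 1`): case (c).  (e) `x = 0, 1, -1` or `P = 0`: `sm lam P` is `0` or has `x' = 0`, then `0`.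
So after at most four steps the point is `0` or `v x < 0`, and then `v x` decreases by 2 in every step; `sm (lam ^ (j + 1)) P = sm lam (sm (lam ^ j) P)`
(`mul_gsm`). -/
def K2gStmt : Prop := ∀ (F : Type) [NormedField F] [Algebra GaussianInt F] (ϖ : GaussianInt), IsLoc F ϖ → ϖ ∣ 2 →
  ∀ (d : F) (P : Pt d) (N : ℝ), d ≠ 0 → ∃ j : ℕ, Big N (sm (lam ^ j) P)

end Pool.Agent.WAP.P2
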