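import Mathlib

/-!
# A smooth projective K3 surface over every field with `2 ≠ 0`

`F4(a, b) = a ^ 3 * b - a * b ^ 3` is the binary quartic form with the roots `0, 1, -1, ∞`
(so `F4(s, 1) = s ^ 3 - s`).

**The surface.**  Let `P` be the `P ^ 1`-bundle over `P ^ 1 × P ^ 1` with the homogeneous coordinates
`([x0 : x1], [t0 : t1], [u : v])`, that is the quotient of
`(A ^ 2 - 0) × (A ^ 2 - 0) × (A ^ 2 - 0)` by the torus `G_m ^ 3` acting by
`(l, m, n) : (x0, x1) ↦ (l x0, l x1)`, `(t0, t1) ↦ (m t0, m t1)`, `(u, v) ↦ (n l ^ 2 u, n m ^ 2 v)`.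
The surface `X` is the zero locus in `P` of the (well defined) equation
`u ^ 2 * F4(t0, t1) = v ^ 2 * F4(x0, x1)`.

**`X` is a smooth projective K3 surface.**  `P` is a smooth projective threefold.  Charts: one of
`x0, x1`, one of `t0, t1` and one of `u, v` is `1`; with `v = 1` the equation is `u ^ 2 g(t) = h(x)`
with `g, h` among `s ^ 3 - s` and `s - s ^ 3`, and it is symmetric for `u = 1`.  At a singular point
the derivative `h'(x)` vanishes, so `h(x) ≠ 0` (`s ^ 3 - s` has simple roots), so `u ≠ 0` and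
`g(t) ≠ 0`, and the derivative `2 u g(t)` with respect to `u` is nonzero; so `X` is smooth.
The divisor of `u` (resp. `v`) has class `ξ + (2, 0)` (resp. `ξ + (0, 2)`), so the anticanonical class
of `P` is `2 ξ + (4, 4)`, the class of `X`; hence `ω_X` is trivial and, as
`H ^ 1(P, O) = H ^ 2(P, O) = 0`, `X` is geometrically connected and `H ^ 1(X, O) = 0`.

**Birational model.**  `(x, t, y) ↦ ([x : 1], [t : 1], [y : t ^ 3 - t])` identifies the affine surface
`y ^ 2 = (x ^ 3 - x) * (t ^ 3 - t)`, `y ≠ 0`, with the open subset `F4(x) ≠ 0, F4(t) ≠ 0` of `X`;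
`X` is the minimal desingularization of the double cover of `P ^ 1 × P ^ 1` given by this equation
(`u / v = y / (t ^ 3 - t)` resolves its 16 nodes), i.e. the Kummer surface of `E × E` with
`E : Y ^ 2 = X ^ 3 - X`.

**Points.**  `XP F` is the set `X(F)` (every `F`-point of `P` has homogeneous coordinates in `F`,
unique up to the torus), with its usual topology when `F` is a topological field: the quotient
topology of the subspace topology of the space `XC F` of homogeneous coordinates.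
-/

namespace Pool.Agent.WAP

/-- the binary quartic form with the roots `0, 1, -1, ∞` -/
def F4 {F : Type} [Field F] (p : F × F) : F := p.1 ^ 3 * p.2 - p.1 * p.2 ^ 3

/-- The homogeneous coordinates `((x0, x1), (t0, t1), (u, v))` of the points of the surface:
each of the three pairs is nonzero and `u ^ 2 * F4(t0, t1) = v ^ 2 * F4(x0, x1)`. -/
def XC (F : Type) [Field F] : Set ((F × F) × (F × F) × (F × F)) :=
  {p | p.1 ≠ 0 ∧ p.2.1 ≠ 0 ∧ p.2.2 ≠ 0 ∧ p.2.2.1 ^ 2 * F4 p.2.1 = p.2.2.2 ^ 2 * F4 p.1}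

/-- Two sets of homogeneous coordinates of the same point: they differ by the action of
`(l, m, n)` in `(Fˣ) ^ 3`. -/
def XCRel {F : Type} [Field F] (p q : XC F) : Prop :=
  ∃ l m n : F, l ≠ 0 ∧ m ≠ 0 ∧ n ≠ 0 ∧
    q.1.1 = (l * p.1.1.1, l * p.1.1.2) ∧ q.1.2.1 = (m * p.1.2.1.1, m * p.1.2.1.2) ∧
    q.1.2.2 = (n * l ^ 2 * p.1.2.2.1, n * m ^ 2 * p.1.2.2.2)

theorem XCRel.equiv {F : Type} [Field F] : Equivalence (XCRel (F := F)) where
  refl p := ⟨1, 1, 1, one_ne_zero, one_ne_zero, one_ne_zero, by simp, by simp, by simp⟩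
  symm := by
    rintro ⟨⟨⟨x0, x1⟩, ⟨t0, t1⟩, ⟨u, v⟩⟩, hp⟩ ⟨⟨⟨x0', x1'⟩, ⟨t0', t1'⟩, ⟨u', v'⟩⟩, hq⟩
      ⟨l, m, n, hl, hm, hn, h1, h2, h3⟩
    simp only [Prod.mk.injEq] at h1 h2 h3
    obtain ⟨rfl, rfl⟩ := h1
    obtain ⟨rfl, rfl⟩ := h2
    obtain ⟨rfl, rfl⟩ := h3
    refine ⟨l⁻¹, m⁻¹, n⁻¹, inv_ne_zero hl, inv_ne_zero hm, inv_ne_zero hn, ?_, ?_, ?_⟩
    · simp only [Prod.mk.injEq]
      constructor <;> field_simp
    · simp only [Prod.mk.injEq]
      constructor <;> field_simp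
    · simp only [Prod.mk.injEq]
      constructor <;> field_simp
  trans := by
    rintro ⟨⟨⟨x0, x1⟩, ⟨t0, t1⟩, ⟨u, v⟩⟩, hp⟩ ⟨⟨⟨x0', x1'⟩, ⟨t0', t1'⟩, ⟨u', v'⟩⟩, hq⟩
      ⟨⟨⟨x0'', x1''⟩, ⟨t0'', t1''⟩, ⟨u'', v''⟩⟩, hr⟩
      ⟨l, m, n, hl, hm, hn, h1, h2, h3⟩ ⟨l', m', n', hl', hm', hn', h1', h2', h3'⟩
    simp only [Prod.mk.injEq] at h1 h2 h3 h1' h2' h3'
    obtain ⟨rfl, rfl⟩ := h1
    obtain ⟨rfl, rfl⟩ := h2
    obtain ⟨rfl, rfl⟩ := h3
    obtain ⟨rfl, rfl⟩ := h1'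
    obtain ⟨rfl, rfl⟩ := h2'
    obtain ⟨rfl, rfl⟩ := h3'
    refine ⟨l' * l, m' * m, n' * n, mul_ne_zero hl' hl, mul_ne_zero hm' hm, mul_ne_zero hn' hn,
      ?_, ?_, ?_⟩
    · simp only [Prod.mk.injEq]
      constructor <;> ring
    · simp only [Prod.mk.injEq]
      constructor <;> ring
    · simp only [Prod.mk.injEq]
      constructor <;> ring

/-- The equivalence relation `XCRel`. -/
def xcSetoid (F : Type) [Field F] : Setoid (XC F) := ⟨XCRel, XCRel.equiv⟩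

/-- The `F`-points of the smooth projective K3 surface `X`. -/
def XP (F : Type) [Field F] : Type := Quotient (xcSetoid F)

/-- The topology of `XP F`: the quotient topology of the space of homogeneous coordinates. -/
instance {F : Type} [Field F] [TopologicalSpace F] : TopologicalSpace (XP F) :=
  inferInstanceAs (TopologicalSpace (Quotient (xcSetoid F)))

theorem F4_map {K F : Type} [Field K] [Field F] (σ : K →+* F) (p : K × K) :
    F4 (σ p.1, σ p.2) = σ (F4 p) := by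
  simp only [F4, map_sub, map_mul, map_pow]

/-- Base change of homogeneous coordinates along a homomorphism of fields. -/
def XC.map {K F : Type} [Field K] [Field F] (σ : K →+* F) (p : XC K) : XC F :=
  ⟨((σ p.1.1.1, σ p.1.1.2), (σ p.1.2.1.1, σ p.1.2.1.2), (σ p.1.2.2.1, σ p.1.2.2.2)), by
    obtain ⟨p, h1, h2, h3, h4⟩ := p
    have key : ∀ q : K × K, q ≠ 0 → ((σ q.1, σ q.2) : F × F) ≠ 0 := by
      intro q hq h
      apply hq
      rw [Prod.mk_eq_zero] at h
      exact Prod.ext ((map_eq_zero σ).1 h.1) ((map_eq_zero σ).1 h.2)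
    refine ⟨key _ h1, key _ h2, key _ h3, ?_⟩
    simp only [F4_map]
    rw [← map_pow, ← map_pow, ← map_mul, ← map_mul, h4]⟩

/-- Base change of points: the map `X(K) → X(F)` of a homomorphism `σ : K → F` of fields. -/
def XP.map {K F : Type} [Field K] [Field F] (σ : K →+* F) : XP K → XP F :=
  Quotient.map (sa := xcSetoid K) (sb := xcSetoid F) (XC.map σ) (by
    rintro ⟨⟨⟨x0, x1⟩, ⟨t0, t1⟩, ⟨u, v⟩⟩, hp⟩ ⟨⟨⟨x0', x1'⟩, ⟨t0', t1'⟩, ⟨u', v'⟩⟩, hq⟩
      ⟨l, m, n, hl, hm, hn, h1, h2, h3⟩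
    simp only [Prod.mk.injEq] at h1 h2 h3
    obtain ⟨rfl, rfl⟩ := h1
    obtain ⟨rfl, rfl⟩ := h2
    obtain ⟨rfl, rfl⟩ := h3
    refine ⟨σ l, σ m, σ n, (map_ne_zero σ).2 hl, (map_ne_zero σ).2 hm, (map_ne_zero σ).2 hn,
      ?_, ?_, ?_⟩ <;> simp [XC.map])

end Pool.Agent.WAP
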