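import Mathlib

/-!
# WAP: the curves Y^2 = X^3 - d^2 X and the action of Z[i]

MP_ff4683_nt.  `f x = x ^ 3 - x`.  The twist `d * y ^ 2 = f x` has the Weierstrass form
`W d : Y ^ 2 = X ^ 3 - d ^ 2 * X`, `X = d * x`, `Y = d ^ 2 * y`.
-/

namespace Pool.Agent.WAP

open WeierstrassCurve WeierstrassCurve.Affine

section Curve

variable {F : Type} [Field F]

/-- the curve `Y ^ 2 = X ^ 3 - d ^ 2 * X` -/
def W (d : F) : WeierstrassCurve.Affine F := ⟨0, 0, 0, -d ^ 2, 0⟩

theorem W_equation (d X Y : F) : (W d).Equation X Y ↔ Y ^ 2 = X ^ 3 - d ^ 2 * X := by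
  rw [Affine.equation_iff]
  simp only [W]
  constructor <;> intro h <;> linear_combination h

theorem W_nonsingular (d X Y : F) (h2 : (2 : F) ≠ 0) (hd : d ≠ 0) :
    (W d).Nonsingular X Y ↔ Y ^ 2 = X ^ 3 - d ^ 2 * X := by
  rw [Affine.nonsingular_iff, W_equation]
  refine ⟨fun h => h.1, fun h => ⟨h, ?_⟩⟩
  by_contra hcon
  push Not at hcon
  obtain ⟨h1, h3⟩ := hcon
  simp only [W] at h1 h3
  have hY : Y = 0 := by
    have : 2 * Y = 0 := by linear_combination h3
    rcases mul_eq_zero.mp this with h | h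
    · exact absurd h h2
    · exact h
  have h4 : 3 * X ^ 2 = d ^ 2 := by
    rw [hY] at h1
    linear_combination -h1
  have h5 : X * (X ^ 2 - d ^ 2) = 0 := by
    rw [hY] at h
    linear_combination -h
  rcases mul_eq_zero.mp h5 with h | h
  · rw [h] at h4
    exact hd (pow_eq_zero_iff (two_ne_zero)|>.mp (by linear_combination -h4))
  · have : 2 * d ^ 2 = 0 := by linear_combination h4 - 3 * h
    rcases mul_eq_zero.mp this with h | h
    · exact h2 h
    · exact hd (pow_eq_zero_iff (two_ne_zero)|>.mp h)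

theorem W_negY (d X Y : F) : (W d).negY X Y = -Y := by
  simp [Affine.negY, W]

/-- the point `(X, Y)` as a proposition -/
def Is {d : F} (P : (W d).Point) (X Y : F) : Prop := ∃ h, P = Point.some X Y h

/-- the X-coordinate (0 for the point at infinity) -/
def cX {d : F} : (W d).Point → F
  | Point.zero => 0
  | Point.some X _ _ => X

/-- the Y-coordinate (0 for the point at infinity) -/
def cY {d : F} : (W d).Point → F
  | Point.zero => 0
  | Point.some _ Y _ => Y

/-- the formal parameter `X / Y` -/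
def cz {d : F} (P : (W d).Point) : F := cX P / cY P

/-- the map `(X, Y) ↦ (-X, ι Y)` -/
def Jf {d : F} (ι : F) (hι : ι ^ 2 = -1) : (W d).Point → (W d).Point
  | Point.zero => Point.zero
  | Point.some X Y h => Point.some (-X) (ι * Y) (by
      rw [Affine.nonsingular_iff, W_equation] at h ⊢
      obtain ⟨h1, h2⟩ := h
      have hι0 : ι ≠ 0 := by
        rintro rfl
        simp at hι
      refine ⟨by linear_combination Y ^ 2 * hι - h1, ?_⟩
      simp only [W] at h2 ⊢
      rcases h2 with h2 | h2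
      · left
        intro h3
        apply h2
        linear_combination h3
      · right
        intro h3
        apply h2
        have h4 : ι * (2 * Y) = 0 := by linear_combination h3
        rcases mul_eq_zero.mp h4 with h | h
        · exact absurd h hι0
        · linear_combination h)

theorem W_addX (d x1 x2 l : F) : (W d).addX x1 x2 l = l ^ 2 - x1 - x2 := by
  simp only [Affine.addX, W]
  ring

theorem W_addY (d x1 x2 y1 l : F) :
    (W d).addY x1 x2 y1 l = -(l * (l ^ 2 - x1 - x2 - x1) + y1) := by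
  simp only [Affine.addY, Affine.negAddY, W_negY, W_addX]

variable [DecidableEq F]

theorem slope_J {d ι : F} (hι : ι ^ 2 = -1) {x1 x2 y1 y2 : F} :
    (W d).slope (-x1) (-x2) (ι * y1) (ι * y2) = -ι * (W d).slope x1 x2 y1 y2 := by
  have hι0 : ι ≠ 0 := by
    rintro rfl
    simp at hι
  have hinv : ι⁻¹ = -ι := by
    rw [inv_eq_iff_eq_inv, ← one_div, eq_div_iff (neg_ne_zero.mpr hι0)]
    linear_combination -hι
  by_cases hx : x1 = x2
  · subst hx
    by_cases hy : y1 = -y2
    · rw [Affine.slope_of_Y_eq rfl (by rw [W_negY, hy]; ring), Affine.slope_of_Y_eq rfl (by rw [W_negY, hy])]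
      ring
    · rw [Affine.slope_of_Y_ne rfl (by
        rw [W_negY]
        intro h
        apply hy
        apply mul_left_cancel₀ hι0
        rw [h]; ring), Affine.slope_of_Y_ne rfl (by rw [W_negY]; exact hy)]
      simp only [W, Affine.negY]
      have h1 : ι * y1 - (-(ι * y1) - 0 * -x1 - 0) = ι * (y1 - (-y1 - 0 * x1 - 0)) := by ring
      rw [h1, div_eq_mul_inv, div_eq_mul_inv, mul_inv, hinv]
      ring
  · rw [Affine.slope_of_X_ne (by simpa using hx), Affine.slope_of_X_ne hx]
    have h1 : -x1 - -x2 = -(x1 - x2) := by ring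
    rw [h1, div_neg, ← mul_sub, mul_div_assoc]
    ring

theorem Jf_add {d ι : F} (hι : ι ^ 2 = -1) (P Q : (W d).Point) :
    Jf ι hι (P + Q) = Jf ι hι P + Jf ι hι Q := by
  have hι0 : ι ≠ 0 := by
    rintro rfl
    simp at hι
  rcases P with _ | ⟨x1, y1, h1⟩
  · rfl
  rcases Q with _ | ⟨x2, y2, h2⟩
  · rfl
  by_cases hxy : x1 = x2 ∧ y1 = (W d).negY x2 y2
  · rw [Affine.Point.add_of_Y_eq hxy.1 hxy.2]
    simp only [Jf]
    rw [Affine.Point.add_of_Y_eq (by rw [hxy.1]) (by rw [hxy.2, W_negY, W_negY]; ring)]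
    rfl
  · rw [Affine.Point.add_some hxy]
    have hxy' : ¬ (-x1 = -x2 ∧ ι * y1 = (W d).negY (-x2) (ι * y2)) := by
      rintro ⟨h3, h4⟩
      apply hxy
      refine ⟨neg_injective h3, ?_⟩
      rw [W_negY] at h4 ⊢
      apply mul_left_cancel₀ hι0
      rw [h4]; ring
    simp only [Jf]
    rw [Affine.Point.add_some hxy']
    congr 1
    · rw [slope_J hι, W_addX, W_addX]
      linear_combination -((W d).slope x1 x2 y1 y2) ^ 2 * hι
    · rw [slope_J hι, W_addY, W_addY]
      linear_combination (-ι * ((W d).slope x1 x2 y1 y2) ^ 3) * hι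

omit [DecidableEq F] in
theorem Jf_Jf {d ι : F} (hι : ι ^ 2 = -1) (P : (W d).Point) : Jf ι hι (Jf ι hι P) = -P := by
  rcases P with _ | ⟨x1, y1, h1⟩
  · rfl
  simp only [Jf, Affine.Point.neg_some]
  congr 1
  · ring
  · rw [W_negY]
    linear_combination y1 * hι

/-- the endomorphism `[i]` -/
def Jh {d : F} (ι : F) (hι : ι ^ 2 = -1) : (W d).Point →+ (W d).Point where
  toFun := Jf ι hι
  map_zero' := rfl
  map_add' := Jf_add hι

/-- the image of `i` in a field over the Gaussian integers -/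
def gi (φ : GaussianInt →+* F) : F := φ ⟨0, 1⟩

omit [DecidableEq F] in
theorem gi_sq (φ : GaussianInt →+* F) : gi φ ^ 2 = -1 := by
  unfold gi
  rw [← map_pow]
  have : (⟨0, 1⟩ : GaussianInt) ^ 2 = -1 := by decide
  rw [this, map_neg, map_one]

/-- the action of the Gaussian integer `a` on the points of `W d` -/
def gsm {d : F} (φ : GaussianInt →+* F) (a : GaussianInt) (P : (W d).Point) : (W d).Point :=
  a.re • P + a.im • Jh (gi φ) (gi_sq φ) P

theorem gsm_add {d : F} (φ : GaussianInt →+* F) (a : GaussianInt) (P Q : (W d).Point) :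
    gsm φ a (P + Q) = gsm φ a P + gsm φ a Q := by
  simp only [gsm, map_add, smul_add]
  abel

theorem add_gsm {d : F} (φ : GaussianInt →+* F) (a b : GaussianInt) (P : (W d).Point) :
    gsm φ (a + b) P = gsm φ a P + gsm φ b P := by
  simp only [gsm, Zsqrtd.re_add, Zsqrtd.im_add, add_smul]
  abel

theorem mul_gsm {d : F} (φ : GaussianInt →+* F) (a b : GaussianInt) (P : (W d).Point) :
    gsm φ (a * b) P = gsm φ a (gsm φ b P) := by
  simp only [gsm, map_add, map_zsmul]
  have h : (Jh (gi φ) (gi_sq φ)) ((Jh (gi φ) (gi_sq φ)) P) = -P := Jf_Jf (gi_sq φ) P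
  rw [h]
  simp only [Zsqrtd.re_mul, Zsqrtd.im_mul, add_smul, smul_add, mul_smul, smul_neg]
  simp only [smul_smul, ← mul_assoc]
  have e1 : a.re * b.re = b.re * a.re := mul_comm _ _
  simp only [neg_smul, neg_mul, one_mul]
  abel

/-- the points of `W d` form a module over the Gaussian integers -/
@[reducible] def gmod {d : F} (φ : GaussianInt →+* F) : Module GaussianInt (W d).Point where
  smul := gsm φ
  one_smul P := by
    show gsm φ 1 P = P
    simp [gsm]
  mul_smul a b P := mul_gsm φ a b P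
  smul_zero a := by
    show gsm φ a 0 = 0
    simp [gsm]
  smul_add a P Q := gsm_add φ a P Q
  add_smul a b P := add_gsm φ a b P
  zero_smul P := by
    show gsm φ 0 P = 0
    simp [gsm]

end Curve

section Transfer

variable {F L : Type} [Field F] [Field L]

theorem Trf_aux {d : F} {d' : L} (σ : F →+* L) (c : L) (hc : c ≠ 0) (h : d' = c ^ 2 * σ d)
    {X Y : F} (hn : (W d).Nonsingular X Y) :
    (W d').Nonsingular (c ^ 2 * σ X) (c ^ 3 * σ Y) := by
  rw [Affine.nonsingular_iff, W_equation] at hn ⊢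
  obtain ⟨h1, h2⟩ := hn
  have h1' : σ Y ^ 2 = σ X ^ 3 - σ d ^ 2 * σ X := by
    rw [← map_pow, h1]; simp
  refine ⟨by rw [h]; linear_combination c ^ 6 * h1', ?_⟩
  simp only [W] at h2 ⊢
  rcases h2 with h2 | h2
  · left
    intro h3
    apply h2
    have h4 : c ^ 4 * (3 * σ X ^ 2 - σ d ^ 2) = 0 := by
      rw [h] at h3
      linear_combination -h3
    rcases mul_eq_zero.mp h4 with h5 | h5
    · exact absurd h5 (pow_ne_zero _ hc)
    · apply σ.injective
      simp only [map_mul, map_pow, map_add, map_neg, map_zero, map_ofNat]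
      linear_combination -h5
  · right
    intro h3
    apply h2
    have h4 : c ^ 3 * (2 * σ Y) = 0 := by linear_combination h3
    rcases mul_eq_zero.mp h4 with h5 | h5
    · exact absurd h5 (pow_ne_zero _ hc)
    · apply σ.injective
      simp only [map_mul, map_neg, map_sub, map_zero]
      linear_combination h5

/-- transfer of points: `(X, Y) ↦ (c ^ 2 * σ X, c ^ 3 * σ Y)` (base change and scaling) -/
def Trf {d : F} {d' : L} (σ : F →+* L) (c : L) (hc : c ≠ 0) (h : d' = c ^ 2 * σ d) :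
    (W d).Point → (W d').Point
  | Point.zero => Point.zero
  | Point.some _ _ hn => Point.some _ _ (Trf_aux σ c hc h hn)

variable [DecidableEq F] [DecidableEq L]

theorem slope_Trf {d : F} {d' : L} (σ : F →+* L) (c : L) (hc : c ≠ 0) (h : d' = c ^ 2 * σ d)
    (x1 x2 y1 y2 : F) :
    (W d').slope (c ^ 2 * σ x1) (c ^ 2 * σ x2) (c ^ 3 * σ y1) (c ^ 3 * σ y2) =
      c * σ ((W d).slope x1 x2 y1 y2) := by
  by_cases hx : x1 = x2
  · subst hx
    by_cases hy : y1 = -y2
    · rw [Affine.slope_of_Y_eq rfl (by rw [W_negY, hy, map_neg]; ring),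
        Affine.slope_of_Y_eq rfl (by rw [W_negY, hy]), map_zero, mul_zero]
    · rw [Affine.slope_of_Y_ne rfl (by
        rw [W_negY]
        intro h1
        apply hy
        apply σ.injective
        apply mul_left_cancel₀ (pow_ne_zero 3 hc)
        rw [h1, map_neg]; ring), Affine.slope_of_Y_ne rfl (by rw [W_negY]; exact hy)]
      simp only [W, Affine.negY]
      rw [h]
      simp only [map_div₀, map_mul, map_pow, map_add, map_neg, map_sub, map_zero, map_ofNat]
      have h1 : c ^ 3 * σ y1 - (-(c ^ 3 * σ y1) - 0 * (c ^ 2 * σ x1) - 0) =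
        c ^ 3 * (σ y1 - (-σ y1 - 0 * σ x1 - 0)) := by ring
      rw [h1, ← mul_div_assoc, div_mul_eq_div_div]
      congr 1
      rw [div_eq_iff (pow_ne_zero 3 hc)]
      ring
  · rw [Affine.slope_of_X_ne (by
      intro h1
      apply hx
      apply σ.injective
      exact mul_left_cancel₀ (pow_ne_zero 2 hc) h1), Affine.slope_of_X_ne hx, map_div₀, map_sub, map_sub,
      ← mul_sub, ← mul_sub, ← mul_div_assoc, div_mul_eq_div_div]
    congr 1
    rw [div_eq_iff (pow_ne_zero 2 hc)]
    ring

theorem Trf_add {d : F} {d' : L} (σ : F →+* L) (c : L) (hc : c ≠ 0) (h : d' = c ^ 2 * σ d)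
    (P Q : (W d).Point) : Trf σ c hc h (P + Q) = Trf σ c hc h P + Trf σ c hc h Q := by
  rcases P with _ | ⟨x1, y1, h1⟩
  · rfl
  rcases Q with _ | ⟨x2, y2, h2⟩
  · rfl
  by_cases hxy : x1 = x2 ∧ y1 = (W d).negY x2 y2
  · rw [Affine.Point.add_of_Y_eq hxy.1 hxy.2]
    simp only [Trf]
    rw [Affine.Point.add_of_Y_eq (by rw [hxy.1]) (by rw [hxy.2, W_negY, W_negY, map_neg]; ring)]
    rfl
  · rw [Affine.Point.add_some hxy]
    have hxy' : ¬ (c ^ 2 * σ x1 = c ^ 2 * σ x2 ∧
        c ^ 3 * σ y1 = (W d').negY (c ^ 2 * σ x2) (c ^ 3 * σ y2)) := by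
      rintro ⟨h3, h4⟩
      apply hxy
      refine ⟨σ.injective (mul_left_cancel₀ (pow_ne_zero 2 hc) h3), ?_⟩
      rw [W_negY] at h4 ⊢
      apply σ.injective
      apply mul_left_cancel₀ (pow_ne_zero 3 hc)
      rw [h4, map_neg]; ring
    simp only [Trf]
    rw [Affine.Point.add_some hxy']
    congr 1
    · rw [slope_Trf σ c hc h, W_addX, W_addX]
      simp only [map_sub, map_pow]
      ring
    · rw [slope_Trf σ c hc h, W_addY, W_addY]
      simp only [map_sub, map_pow, map_neg, map_add, map_mul]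
      ring

/-- the transfer as a homomorphism -/
def Tr {d : F} {d' : L} (σ : F →+* L) (c : L) (hc : c ≠ 0) (h : d' = c ^ 2 * σ d) :
    (W d).Point →+ (W d').Point where
  toFun := Trf σ c hc h
  map_zero' := rfl
  map_add' := Trf_add σ c hc h

/-- base change of points -/
def Bc (σ : F →+* L) (d : F) : (W d).Point →+ (W (σ d)).Point :=
  Tr σ 1 one_ne_zero (by ring)

omit [DecidableEq F] [DecidableEq L] in
theorem Trf_injective {d : F} {d' : L} (σ : F →+* L) (c : L) (hc : c ≠ 0)
    (h : d' = c ^ 2 * σ d) : Function.Injective (Trf (d := d) (d' := d') σ c hc h) := by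
  intro P Q hPQ
  rcases P with _ | ⟨x1, y1, h1⟩
  · rcases Q with _ | ⟨x2, y2, h2⟩
    · rfl
    · simp [Trf] at hPQ
  · rcases Q with _ | ⟨x2, y2, h2⟩
    · simp [Trf] at hPQ
    · simp only [Trf, Point.some.injEq] at hPQ
      have e1 := σ.injective (mul_left_cancel₀ (pow_ne_zero 2 hc) hPQ.1)
      have e2 := σ.injective (mul_left_cancel₀ (pow_ne_zero 3 hc) hPQ.2)
      subst e1 e2
      rfl

theorem Tr_gsm {d : F} {d' : L} (σ : F →+* L) (c : L) (hc : c ≠ 0) (h : d' = c ^ 2 * σ d)
    (φ : GaussianInt →+* F) (a : GaussianInt) (P : (W d).Point) :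
    Tr σ c hc h (gsm φ a P) = gsm (σ.comp φ) a (Tr σ c hc h P) := by
  simp only [gsm, map_add, map_zsmul]
  congr 2
  rcases P with _ | ⟨x1, y1, h1⟩
  · rfl
  · show Trf σ c hc h (Jf (gi φ) (gi_sq φ) (Point.some x1 y1 h1)) =
      Jf (gi (σ.comp φ)) (gi_sq _) (Trf σ c hc h (Point.some x1 y1 h1))
    simp only [Trf, Jf]
    congr 1
    · rw [map_neg]; ring
    · rw [map_mul]
      have : gi (σ.comp φ) = σ (gi φ) := rfl
      rw [this]; ring

end Transfer

end Pool.Agent.WAP
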