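import Pool.Agent.WAP.Curve

/-!
# Weak approximation on the K3 surface `y ^ 2 = (x ^ 3 - x) * (t ^ 3 - t)` over `Q(i)`: definitions

`R = Z[i]` is `GaussianInt`; all fields `F` are `R`-algebras (so they contain `i`).
`E : Y ^ 2 = X ^ 3 - X`; its quadratic twist by `d` is `W d : Y ^ 2 = X ^ 3 - d ^ 2 * X`
(file `Curve.lean`; `cX`, `cY`, `cz = cX / cY`, `gsm`; normalized coordinates `cX / d`,
`cY / d ^ 2`).  A pair `(P, Q)` of points of `W d` gives the point
`kum d P Q = (X(P)/d, X(Q)/d, Y(P) * Y(Q) / d ^ 3)` of the surface.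
-/

namespace Pool.Agent.WAP

open Classical

/-- `f(x) = x ^ 3 - x`. -/
def cub {A : Type*} [CommRing A] (x : A) : A := x ^ 3 - x

/-- The open part `y ≠ 0` of the affine surface `y ^ 2 = f(x) * f(t)`; a point is `(x, t, y)`. -/
def OnU {F : Type*} [Field F] (z : F × F × F) : Prop :=
  z.2.2 ^ 2 = cub z.1 * cub z.2.1 ∧ z.2.2 ≠ 0

/-- The points of the twist. -/
abbrev Pt {F : Type} [Field F] (d : F) : Type := (W d).Point

/-- the point of the surface given by a pair. -/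
noncomputable def kum {F : Type} [Field F] (d : F) (P Q : Pt d) : F × F × F :=
  (cX P / d, cX Q / d, cY P * cY Q / d ^ 3)

/-- the image of `i` in `F`. -/
noncomputable def ii (F : Type) [Field F] [Algebra GaussianInt F] : F :=
  gi (algebraMap GaussianInt F)

theorem ii_sq {F : Type} [Field F] [Algebra GaussianInt F] : ii F ^ 2 = -1 := gi_sq _

/-- multiplication by `i` on the twist: `(X, Y) ↦ (-X, i * Y)`. -/
noncomputable def iPt {F : Type} [Field F] [Algebra GaussianInt F] {d : F} (P : Pt d) : Pt d :=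
  Jf (ii F) ii_sq P

/-- multiplication by the Gaussian integer `a` on the twist. -/
noncomputable def sm {F : Type} [Field F] [Algebra GaussianInt F] {d : F} (a : GaussianInt)
    (P : Pt d) : Pt d := gsm (algebraMap GaussianInt F) a P

theorem sm_def {F : Type} [Field F] [Algebra GaussianInt F] {d : F} (a : GaussianInt)
    (P : Pt d) : sm a P = a.re • P + a.im • iPt P := rfl

section norm_coord
variable {F : Type} [Field F] {d : F}

/-- normalized coordinates `x = X / d`, `y = Y / d ^ 2` (0 at the origin), `d y ^ 2 = cub x`, and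
the parameter `z = X / Y` at the origin. -/
noncomputable def xn (P : Pt d) : F := cX P / d
noncomputable def yn (P : Pt d) : F := cY P / d ^ 2
noncomputable def zc (P : Pt d) : F := cz P

theorem xn_zero : xn (0 : Pt d) = 0 := by
  show (0 : F) / d = 0
  simp
theorem yn_zero : yn (0 : Pt d) = 0 := by
  show (0 : F) / d ^ 2 = 0
  simp
theorem zc_zero : zc (0 : Pt d) = 0 := by
  show (0 : F) / 0 = 0
  simp
theorem xn_some {X Y : F} (h : (W d).Nonsingular X Y) :
    xn (WeierstrassCurve.Affine.Point.some X Y h : Pt d) = X / d := rfl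
theorem yn_some {X Y : F} (h : (W d).Nonsingular X Y) :
    yn (WeierstrassCurve.Affine.Point.some X Y h : Pt d) = Y / d ^ 2 := rfl
theorem zc_some {X Y : F} (h : (W d).Nonsingular X Y) :
    zc (WeierstrassCurve.Affine.Point.some X Y h : Pt d) = X / Y := rfl

theorem kum_eq (hd : d ≠ 0) (P Q : Pt d) : kum d P Q = (xn P, xn Q, d * yn P * yn Q) := by
  unfold kum xn yn
  congr 2
  field_simp

end norm_coord

section frame
variable {F : Type} [Field F]

/-- the point `(X, Y)` of the twist if it lies on it (and is nonsingular), otherwise the origin. -/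
noncomputable def mkPt (d X Y : F) : Pt d :=
  if h : (W d).Nonsingular X Y then .some X Y h else .zero

/-- the canonical pair of a point `(x, t, y)` of the surface, `d = f(x)`. -/
noncomputable def frP (z : F × F × F) : Pt (cub z.1) :=
  mkPt (cub z.1) (z.1 * cub z.1) (cub z.1 ^ 2)
noncomputable def frQ (z : F × F × F) : Pt (cub z.1) :=
  mkPt (cub z.1) (z.2.1 * cub z.1) (z.2.2 * cub z.1)

/-- the 2-torsion points `(e * d, 0)`, `e = 0, 1, -1`. -/
noncomputable def tor (d e : F) : Pt d := mkPt d (e * d) 0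

end frame

/-! ## Moves -/

section moves
variable {F : Type} [Field F]

/-- `(P, Q) ↦ (a P + b Q, c P + e Q)` on triples. -/
noncomputable def actf [Algebra GaussianInt F] (a b c e : GaussianInt) (z : F × F × F) :
    F × F × F :=
  kum (cub z.1) (sm a (frP z) + sm b (frQ z)) (sm c (frP z) + sm e (frQ z))

/-- `(P, Q) ↦ (Q, P)`. -/
def swf (z : F × F × F) : F × F × F := (z.2.1, z.1, z.2.2)
/-- `(P, Q) ↦ (P, Q + (0, 0))`. -/
noncomputable def t0f (z : F × F × F) : F × F × F := (z.1, -1 / z.2.1, z.2.2 / z.2.1 ^ 2)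
/-- `(P, Q) ↦ (P, Q + (1, 0))`. -/
noncomputable def tpf (z : F × F × F) : F × F × F :=
  (z.1, (z.2.1 + 1) / (z.2.1 - 1), -2 * z.2.2 / (z.2.1 - 1) ^ 2)
/-- `(P, Q) ↦ (P, Q + (-1, 0))`. -/
noncomputable def tmf (z : F × F × F) : F × F × F :=
  (z.1, (1 - z.2.1) / (1 + z.2.1), -2 * z.2.2 / (z.2.1 + 1) ^ 2)

/-- the involution `ι` (third point on the line through `(1,1)` in the pencil
`f(x) = u ^ 2 * f(t)`): `D = 3xt - x - t - 1`, `λ = -2(x+t+1)/D`. -/
noncomputable def iotaf (z : F × F × F) : F × F × F :=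
  (1 + (-2 * (z.1 + z.2.1 + 1) / (3 * z.1 * z.2.1 - z.1 - z.2.1 - 1)) * (z.1 - 1),
   1 + (-2 * (z.1 + z.2.1 + 1) / (3 * z.1 * z.2.1 - z.1 - z.2.1 - 1)) * (z.2.1 - 1),
   (-4 * (z.1 + z.2.1 + 1) * (z.2.1 - 2 * z.1 + 1) * (2 * z.2.1 - z.1 - 1)
      / (3 * z.1 * z.2.1 - z.1 - z.2.1 - 1) ^ 3) * z.2.2)

/-- domain of `ι` -/
def iotaD (z : F × F × F) : Prop :=
  OnU z ∧ 3 * z.1 * z.2.1 - z.1 - z.2.1 - 1 ≠ 0 ∧ z.1 + z.2.1 + 1 ≠ 0 ∧
    z.2.1 - 2 * z.1 + 1 ≠ 0 ∧ 2 * z.2.1 - z.1 - 1 ≠ 0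

/-- `w = y / ((x ^ 2 - 1) * (t + 1))` -/
noncomputable def jw (z : F × F × F) : F := z.2.2 / ((z.1 ^ 2 - 1) * (z.2.1 + 1))
/-- `δ = w / (1 - w)` -/
noncomputable def jd (z : F × F × F) : F := jw z / (1 - jw z)
/-- `α = (x t - δ ^ 2) / (x - δ)` -/
noncomputable def ja (z : F × F × F) : F := (z.1 * z.2.1 - jd z ^ 2) / (z.1 - jd z)
/-- `x' = (δ - α)(δ(δ - α) + w ^ 2)/(w ^ 2 (α + 1) x)` -/
noncomputable def jx (z : F × F × F) : F :=
  (jd z - ja z) * (jd z * (jd z - ja z) + jw z ^ 2) / (jw z ^ 2 * (ja z + 1) * z.1)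
/-- `t' = α + δ(δ - α)/x'` -/
noncomputable def jt (z : F × F × F) : F := ja z + jd z * (jd z - ja z) / jx z
/-- the involution `j` (at the node `(0,0)`) -/
noncomputable def jf (z : F × F × F) : F × F × F :=
  (jx z, jt z, jw z * (jx z ^ 2 - 1) * (jt z + 1))

/-- domain of `j` (all conditions are invariant under `j`). -/
def jD (z : F × F × F) : Prop :=
  OnU z ∧ jw z ≠ 1 ∧ z.1 ≠ jd z ∧ ja z ≠ -1 ∧ jd z ≠ ja z ∧
    jd z * (jd z - ja z) + jw z ^ 2 ≠ 0 ∧ jx z ≠ jd z ∧ jx z ^ 2 ≠ 1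

/-- translation by `((0,0),(0,0))`: `(x, t, y) ↦ (-1/x, -1/t, y/(x^2 t^2))`. -/
noncomputable def t00f (z : F × F × F) : F × F × F :=
  (-1 / z.1, -1 / z.2.1, z.2.2 / (z.1 ^ 2 * z.2.1 ^ 2))

/-- `J = τ j τ`, the involution at the origin node. -/
noncomputable def JJf (z : F × F × F) : F × F × F := t00f (jf (t00f z))
/-- domain of `J` -/
def JD (z : F × F × F) : Prop := jD (t00f z)

/-- slope coordinate `m = z(Q)/z(P) = y / (x (t ^ 2 - 1))`. -/
noncomputable def mz (z : F × F × F) : F := z.2.2 / (z.1 * (z.2.1 ^ 2 - 1))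

end moves

/-- letters of the words. -/
inductive Letter
  | act (a b c e : GaussianInt)
  | sw | t0 | tp | tm | io | jj

/-- one step: `z'` is the image of `z` under the letter (matrices must have determinant 1). -/
def Step {F : Type} [Field F] [Algebra GaussianInt F] (l : Letter) (z z' : F × F × F) : Prop :=
  OnU z ∧ OnU z' ∧
  match l with
  | .act a b c e => a * e - b * c = 1 ∧ z' = actf a b c e z
  | .sw => z' = swf z
  | .t0 => z' = t0f z
  | .tp => z' = tpf z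
  | .tm => z' = tmf z
  | .io => iotaD z ∧ z' = iotaf z
  | .jj => JD z ∧ z' = JJf z

/-- a word maps `z` to `z'` (the letters are applied from the head of the list on). -/
def Run {F : Type} [Field F] [Algebra GaussianInt F] : List Letter → F × F × F → F × F × F → Prop
  | [], z, z' => OnU z ∧ z' = z
  | l :: L, z, z' => ∃ z1, Step l z z1 ∧ Run L z1 z'

/-! ## Local fields -/

/-- `F` behaves like the completion of `Q(i)` at the prime `ϖ` of `Z[i]`. -/
structure IsLoc (F : Type) [NormedField F] [Algebra GaussianInt F] (ϖ : GaussianInt) : Prop where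
  prime : Prime ϖ
  ultra : ∀ x y : F, ‖x + y‖ ≤ max ‖x‖ ‖y‖
  int : ∀ a : GaussianInt, ‖algebraMap GaussianInt F a‖ ≤ 1
  lt_one : ∀ a : GaussianInt, ‖algebraMap GaussianInt F a‖ < 1 ↔ ϖ ∣ a
  res : ∀ x : F, ‖x‖ ≤ 1 → ∃ a : GaussianInt, ‖x - algebraMap GaussianInt F a‖ < 1
  val : ∀ x : F, x ≠ 0 → ∃ n : ℤ, ‖x‖ = ‖algebraMap GaussianInt F ϖ‖ ^ n
  uni : 0 < ‖algebraMap GaussianInt F ϖ‖
  complete : CompleteSpace F
  sqrt : ∀ x : F, ‖x - 1‖ < ‖(4 : F)‖ → ∃ r : F, r ^ 2 = x ∧ ‖r - 1‖ * ‖(2 : F)‖ ≤ ‖x - 1‖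

/-- the prime above 2. -/
def lam : GaussianInt := ⟨1, 1⟩

/-- `F` is the field of complex numbers (with its absolute value). -/
def IsCx (F : Type) [NormedField F] : Prop := ∃ σ : F ≃+* ℂ, ∀ x, ‖σ x‖ = ‖x‖

section size
variable {F : Type} [NormedField F] {d : F}

/-- `P` is the origin or `N < |x(P)|`. -/
def Big (N : ℝ) (P : Pt d) : Prop := P = 0 ∨ N < ‖cX P / d‖

/-- `z` is near the point of the exceptional curve over the origin node with slope `m0`. -/
def NearE (m0 : F) (r : ℝ) (z : F × F × F) : Prop :=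
  OnU z ∧ 1 / r < ‖z.1‖ ∧ 1 / r < ‖z.2.1‖ ∧ ‖mz z - m0‖ < r

/-- `z` is near the point `x = x1` of the curve `Q = O`. -/
def NearG (x1 : F) (r : ℝ) (z : F × F × F) : Prop :=
  OnU z ∧ ‖z.1 - x1‖ < r ∧ 1 / r < ‖z.2.1‖

/-- the region `N_v` at an odd place: `|x|, |t| > 1`, `0 < |m| ≤ 1`. -/
def RegO (z : F × F × F) : Prop := OnU z ∧ 1 < ‖z.1‖ ∧ 1 < ‖z.2.1‖ ∧ ‖mz z‖ ≤ 1

/-- the region `N_v` at the place 2: `z = kum d P Q`, `Q` and some nonzero `2 ^ j P` in the kernel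
of reduction, `|z(Q)| ≤ |z(2 ^ j P)|`. -/
def Reg2 [Algebra GaussianInt F] (z : F × F × F) : Prop :=
  OnU z ∧ ∃ (d : F) (P Q : Pt d) (j : ℕ), d ≠ 0 ∧ z = kum d P Q ∧
    Big 1 (sm (2 ^ j) P) ∧ sm (2 ^ j) P ≠ 0 ∧ Big 1 Q ∧ ‖cz Q‖ ≤ ‖cz (sm (2 ^ j) P)‖

end size

end Pool.Agent.WAP
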