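import Pool.Agent.WAP.Exports

/-!
# Part I: induction, main step, final assembly
-/

namespace Pool.Agent.WAP

open Classical

/-- inverse word. -/
def invW (L : List Letter) : List Letter := (L.map Letter.inv).reverse

/-- APP. Concatenation: `Run (L ++ M) z z'` iff there is a middle point.
PROOF. Induction on `L`; `Run L z z'` implies `OnU z` and `OnU z'`. -/
def AppStmt : Prop :=
  ∀ (F : Type) [Field F] [Algebra GaussianInt F] (L M : List Letter) (z z' : F × F × F),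
    (Run (L ++ M) z z' ↔ ∃ z1, Run L z z1 ∧ Run M z1 z') ∧
    (Run L z z' → OnU z ∧ OnU z' ∧ ∀ l ∈ L, l.ok)

/-- FUN. `Run` is functional.  PROOF. In `Step l z z'` the point `z'` is a function of `z`. -/
def FunStmt : Prop :=
  ∀ (F : Type) [Field F] [Algebra GaussianInt F] (L : List Letter) (z z1 z2 : F × F × F),
    Run L z z1 → Run L z z2 → z1 = z2

/-- RUI (uses INV, APP). Inverse words. PROOF. Induction on `L`, `invW (l :: L) = invW L ++ [l.inv]`. -/
def RuiStmt : Prop :=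
  ∀ (F : Type) [Field F] [Algebra GaussianInt F], (2 : F) ≠ 0 →
  ∀ (L : List Letter) (z z' : F × F × F), Run L z z' → Run (invW L) z' z

/-- RUC (uses CON). Words are continuous with open domain.  PROOF. Induction on `L` (for `[]` take
`O = V`). -/
def RucStmt : Prop :=
  ∀ (F : Type) [NormedField F] [Algebra GaussianInt F], IsLC F →
  ∀ (L : List Letter) (z z' : F × F × F), Run L z z' → ∀ V : Set (F × F × F), IsOpen V → z' ∈ V →
    ∃ O : Set (F × F × F), IsOpen O ∧ z ∈ O ∧ ∀ z1 ∈ O, OnU z1 → ∃ z2 ∈ V, Run L z1 z2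

/-- RUD (uses INV, CON, DEN, APP, RUI). Domains and ranges of words of admissible letters are dense.
PROOF. Domain, induction on `L = l :: M`: `V` contains by DEN a point `z` with `Step l z z1`; by INV
`Step l.inv z1 z`, so by CON there is an open `V1 ∋ z1` which `l.inv` maps (on `U`) into `V`; by
induction there is `y1 ∈ V1` and `y2` with `Run M y1 y2`; `Step l.inv y1 y` with `y ∈ V`, hence
`Step l y y1` (INV again; `l.inv.inv = l` up to signs of the matrix entries: `-(-b) = b`), so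
`Run (l :: M) y y2`.  Range: apply this to `invW L` (its letters are admissible) and RUI
(`invW (invW L) = L`). -/
def RudStmt : Prop :=
  ∀ (F : Type) [NormedField F] [Algebra GaussianInt F], IsLC F →
  ∀ L : List Letter, (∀ l ∈ L, l.ok) → ∀ V : Set (F × F × F), IsOpen V → (∃ z ∈ V, OnU z) →
    (∃ z ∈ V, ∃ z', Run L z z') ∧ (∃ z, ∃ z' ∈ V, Run L z z')

/-- RUB (uses BCH). Base change for words. -/
def RubStmt : Prop :=
  ∀ (K F : Type) [Field K] [Field F] [Algebra GaussianInt K] [Algebra GaussianInt F]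
    (σ : K →ₐ[GaussianInt] F), (2 : F) ≠ 0 →
  ∀ (L : List Letter) (z : K × K × K) (z' : F × F × F), Run L (bc σ z) z' →
    ∃ z1 : K × K × K, Run L z z1 ∧ bc σ z1 = z'

/-- EGN. `SL_2(Z[i])` is generated by elementary matrices: a property of matrices which holds for
`(1,0,0,1)` and is stable under left multiplication by `(1,n,0,1)` and `(1,0,n,1)` holds for all
matrices of determinant 1.
PROOF. Euclid on the first column `(a, c)`: induction on `min (norm a) (norm c)`.  If `c = 0` then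
`a e = 1`, `a` is a unit `u`, `e = u⁻¹`; `(u, b; 0, u⁻¹)` is a product of elementary matrices:
`(u,0;0,u⁻¹) = (1,u;0,1)(1,0;-u⁻¹,1)(1,u;0,1)·(1,-1;0,1)(1,0;1,1)(1,-1;0,1)`-type identity
(Whitehead) and `(u,b;0,u⁻¹) = (1, b u; 0, 1) (u,0;0,u⁻¹)`.  If `a = 0` first add the second row to
the first.  If both are nonzero and `norm c ≤ norm a` write `a = q c + r`, `norm r < norm c` and use
the matrix `(1, q; 0, 1)` times `(r, ..; c, ..)`; otherwise the same with the roles exchanged. -/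
def EgnStmt : Prop :=
  ∀ p : GaussianInt → GaussianInt → GaussianInt → GaussianInt → Prop,
    p 1 0 0 1 →
    (∀ a b c e n, p a b c e → p (a + n * c) (b + n * e) c e) →
    (∀ a b c e n, p a b c e → p a b (c + n * a) (e + n * b)) →
    ∀ a b c e : GaussianInt, a * e - b * c = 1 → p a b c e

section fam
variable {ι : Type} (F : ι → Type) [∀ v, NormedField (F v)] [∀ v, Algebra GaussianInt (F v)]
  (ϖ : ι → GaussianInt)

/-- the family of local fields: completions at pairwise different primes. -/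
def IsFam : Prop := (∀ v, IsLoc (F v) (ϖ v)) ∧ ∀ v w, v ≠ w → ¬ Associated (ϖ v) (ϖ w)

/-- the region at the place `v`. -/
def Reg (v : ι) (u : F v × F v × F v) : Prop := (ϖ v ∣ 2 → Reg2 u) ∧ (¬ ϖ v ∣ 2 → RegO u)

/-- the induction hypothesis. -/
def HS (S : Finset ι) : Prop :=
  ∀ V : ∀ v, Set (F v × F v × F v), (∀ v ∈ S, IsOpen (V v) ∧ ∃ z ∈ V v, OnU z) →
    ∃ L : List Letter, (∀ l ∈ L, l.ok) ∧ ∀ v ∈ S, ∃ u w, Reg F ϖ v u ∧ w ∈ V v ∧ Run L u w

end fam

/-- SAP (uses NQT, CMP, EGN). Strong approximation with a matrix which is nearly the identity at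
the old places: for `g` of determinant 1 and `N` there is `g' ≡ g mod ϖ_q ^ N` of determinant 1
which moves each `u v` (`v ∈ S`) inside the open set `O v`.
PROOF. EGN for the property `p g` := for all `N`, all points `u v` and open `O v ∋ u v` (`v ∈ S`,
`OnU (u v)`) there is `g'` with the conclusion.  `p 1`: `g' = 1`; `Step (.act 1 0 0 1) u u` holds
(from NQT with `n = 0`, or directly).  If `p g` and `E = (1,n;0,1)`: take `g'` for `g`, it moves
`u v` to `u' v ∈ O v`; by NQT at `u' v` and `O v` there are `e v`, not divisible by `ϖ_q`, such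
that all multiples `n'` of `e v` give `Step (.act 1 n' 0 1) (u' v) (u'' v)`, `u'' v ∈ O v`.
Let `e` be the product of the `e v`, prime to `ϖ_q`; `s e ≡ n mod ϖ_q ^ N` for some `s`; `n' = s e`.
CMP gives the step of the product matrix `(1,n';0,1) g' ≡ E g mod ϖ_q ^ N`. -/
def SapStmt : Prop :=
  ∀ (ι : Type) (F : ι → Type) [∀ v, NormedField (F v)] [∀ v, Algebra GaussianInt (F v)]
    (ϖ : ι → GaussianInt) (S : Finset ι) (ϖq : GaussianInt), (∀ v ∈ S, IsLoc (F v) (ϖ v)) →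
    Prime ϖq → ¬ ϖq ∣ 2 → (∀ v ∈ S, ¬ Associated (ϖ v) ϖq) →
    (∀ v ∈ S, ϖ v ∣ 2 ∨ (ϖ v).norm ≤ ϖq.norm) →
    ∀ (u : ∀ v, F v × F v × F v) (O : ∀ v, Set (F v × F v × F v)),
      (∀ v ∈ S, OnU (u v) ∧ IsOpen (O v) ∧ u v ∈ O v) →
    ∀ a b c e : GaussianInt, a * e - b * c = 1 → ∀ N : ℕ,
      ∃ a' b' c' e' : GaussianInt, a' * e' - b' * c' = 1 ∧ ϖq ^ N ∣ a' - a ∧ ϖq ^ N ∣ b' - b ∧
        ϖq ^ N ∣ c' - c ∧ ϖq ^ N ∣ e' - e ∧
        ∀ v ∈ S, ∃ w ∈ O v, Step (.act a' b' c' e') (u v) w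

/-- APX. Every `m1 ≠ 0` of a local field is close to `c/a` with `(a, c)` unimodular, `a, c ≠ 0`.
PROOF. If `‖m1‖ ≤ 1`: digits (IsLoc.res, .val, repeated) give `c0` in `Z[i]` with
`‖m1 - c0‖ < min ε ‖m1‖`; then `c0 ≠ 0`, `a = 1`, `b = 0`, `e = 1`.  If `‖m1‖ > 1`: choose `k` with
`‖ϖ ^ k m1‖ ≤ 1`, approximate `ϖ ^ k m1` by `c0`, `a0 = ϖ ^ k`, divide `a0, c0` by their gcd and use
Bezout for `b, e`. -/
def ApxStmt : Prop :=
  ∀ (F : Type) [NormedField F] [Algebra GaussianInt F] (ϖ : GaussianInt), IsLoc F ϖ →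
  ∀ (m1 : F) (ε : ℝ), m1 ≠ 0 → 0 < ε → ∃ a b c e : GaussianInt, a * e - b * c = 1 ∧ a ≠ 0 ∧
    c ≠ 0 ∧ ‖algebraMap GaussianInt F c / algebraMap GaussianInt F a - m1‖ < ε

/-- MST (uses MEI, MEE, JCO, JNE, RCG, SAP, APX, RUC, RUD, RUI, INV, CMP). The main step.
PROOF. (1) RCG for `Vq`: `g = (a b c e)`, `x1`, `r1`.  JNE for `x1`, `ρ = r1`: radius `r2`,
`m1 = -1/(2 x1) ≠ 0`.  APX: `h` with `‖h c / h a - m1‖ < r2/2`.  MEE for `h`, `ρ = r2/2`:
`r3, N3`.  JCO for `ρ = r3`: `r4`.  MEI for `ρ = r4`: `N4`.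
(2) At `v ∈ S`: let `A = [act g⁻¹, jj]`.  By RUD (domain) replace `u v` by a point `u1 v ∈ O v` with
`Run A (u1 v) (q v)`; by RUI `Run (invW A) (q v) (u1 v)`; by RUC there is an open `Q v ∋ q v` with
`invW A : Q v → O v`, and by RUC for `A` an open `P v ∋ u1 v`, `P v ⊆ O v`, with `A : P v → Q v`.
(3) SAP for `g`, `N4`, at `u1 v`, `P v`: `g'`, `u2 v ∈ P v`.  `Run A (u2 v) (q2 v)`, `q2 v ∈ Q v`;
with CMP the matrix `g⁻¹ g'` moves `u1 v` to the point between.  SAP for `h`, `N3`, at `q2 v`,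
`Q v`: `h'`, `q3 v ∈ Q v`.  Then `invW A = [jj, act g]` (up to signs) maps `q3 v` into `O v`.
The word is `[act (g⁻¹ g'), jj, act h', jj, act g]`.
(4) At `q`: `g⁻¹ g' ≡ 1 mod ϖ_q ^ N4`; MEI gives `z` in `RegO` with image in `NearE 0 r4`; JCO, MEE
(with `NearE (c/a) (r2/2) ⊆ NearE m1 r2`), JNE, RCG bring it into `Vq`. -/
def MstStmt : Prop :=
  ∀ (ι : Type) (F : ι → Type) [∀ v, NormedField (F v)] [∀ v, Algebra GaussianInt (F v)]
    (ϖ : ι → GaussianInt) (S : Finset ι) (q : ι), IsFam F ϖ → q ∉ S → ¬ ϖ q ∣ 2 →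
    (∀ v ∈ S, ϖ v ∣ 2 ∨ (ϖ v).norm ≤ (ϖ q).norm) →
    ∀ (u : ∀ v, F v × F v × F v) (O : ∀ v, Set (F v × F v × F v)),
      (∀ v ∈ S, OnU (u v) ∧ IsOpen (O v) ∧ u v ∈ O v) →
    ∀ Vq : Set (F q × F q × F q), IsOpen Vq → (∃ z ∈ Vq, OnU z) →
    ∃ L : List Letter, (∀ l ∈ L, l.ok) ∧ (∀ v ∈ S, ∃ u' ∈ O v, ∃ w ∈ O v, Run L u' w) ∧
      ∃ z : F q × F q × F q, RegO z ∧ ∃ w ∈ Vq, Run L z w

/-- IND (uses MST, BAT, RUC, RUD, APP, RGO). `H(S)` for all finite `S`.
PROOF. Induction on the cardinality of `S`.  If all `ϖ v` (`v ∈ S`) divide 2 then `S` has at most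
one element (the primes dividing 2 are associated to `1 + i`, `IsFam`), and BAT (or `L = []` for
`S = ∅`).  Otherwise take `q ∈ S`, `¬ ϖ q ∣ 2`, with `norm (ϖ q)` maximal among these and
`S' = S.erase q`.  By induction there are `L0`, `u v`, `w v ∈ V v`, `v ∈ S'`.  RUD (range): `Vq`
contains `z'` with `Run L0 z z'`; RUC: an open `W ∋ z` with `L0 : W → Vq`.  RUC, RGO at `v ∈ S'`:
open `O v ∋ u v` with `L0 : O v → V v` and `Reg v` on the points of `O v` on `U`.  MST with `O v`,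
`W` gives `L1`; the word `L1 ++ L0` does it (APP). -/
def IndStmt : Prop :=
  ∀ (ι : Type) (F : ι → Type) [∀ v, NormedField (F v)] [∀ v, Algebra GaussianInt (F v)]
    (ϖ : ι → GaussianInt), IsFam F ϖ → ∀ S : Finset ι, HS F ϖ S

/-- CRT. Chinese remainder theorem for pairwise non-associated primes of `Z[i]`. -/
def CrtStmt : Prop :=
  ∀ (ι : Type) (ϖ : ι → GaussianInt) (S : Finset ι) (N : ι → ℕ) (k : ι → GaussianInt),
    (∀ v ∈ S, Prime (ϖ v)) → (∀ v ∈ S, ∀ w ∈ S, v ≠ w → ¬ Associated (ϖ v) (ϖ w)) →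
    ∃ k0 : GaussianInt, ∀ v ∈ S, ϖ v ^ N v ∣ k0 - k v

/-- FIN (uses IND, APO, APT, CXD, CRT, RUC, RUD, RUB, BCK, FUN). Weak approximation from weak
approximation for the line.
PROOF. IND: `L, u v, w v`.  RUC: open `O v ∋ u v` with `L : O v → V v`.  APO / APT: `k v, N v, T v`.
CRT: `k0`; `m = ∏ ϖ v ^ N v`.  RUD (range) and RUC over the complex field: open `W` with a point on
`U` and `L : W → V∞`.  CXD for `W, k0, m`: `k, T∞`.  The hypothesis gives `τ : K`.  The point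
`ck k τ` has base changes `ck k (σ τ)` (BCK) in `O v`, `W`, on `U`; RUB gives points over `K`, which
agree by FUN over `K`. -/
def FinStmt : Prop :=
  ∀ (ι : Type) (F : ι → Type) [∀ v, NormedField (F v)] [∀ v, Algebra GaussianInt (F v)]
    (ϖ : ι → GaussianInt) (C : Type) [NormedField C] [Algebra GaussianInt C] (K : Type) [Field K]
    [Algebra GaussianInt K] (σ : ∀ v, K →ₐ[GaussianInt] F v) (σC : K →ₐ[GaussianInt] C),
    IsFam F ϖ → IsCx C → ∀ S : Finset ι,
    (∀ (T : ∀ v, Set (F v)) (TC : Set C), (∀ v ∈ S, IsOpen (T v) ∧ (T v).Nonempty) → IsOpen TC →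
      TC.Nonempty → ∃ τ : K, (∀ v ∈ S, σ v τ ∈ T v) ∧ σC τ ∈ TC) →
    ∀ (V : ∀ v, Set (F v × F v × F v)) (VC : Set (C × C × C)),
      (∀ v ∈ S, IsOpen (V v) ∧ ∃ z ∈ V v, OnU z) → IsOpen VC → (∃ z ∈ VC, OnU z) →
      ∃ z : K × K × K, OnU z ∧ (∀ v ∈ S, bc (σ v) z ∈ V v) ∧ bc σC z ∈ VC

end Pool.Agent.WAP
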