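import Pool.Agent.WAP.Exports

/-!
# WAP, part L: local nonarchimedean theory (internal rows)

All rows are independent: use the statements in the column uses as hypotheses (in this order).
Proved algebra over a field (module laws, addition formulas, scaling, translations, z-formulas) is
in Pool/Agent/WAP/Alg.lean (helper40); the proofs of Pool/Agent/WAP/Curve.lean can be copied.
Notation in the proofs: M = Pt d, G = {P | Big 1 P} (kernel of reduction, |x| > 1 or origin),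
z = zc, |.| = norm, q = the norm of the image of varpi, N(a) = nm a.
-/

namespace Pool.Agent.WAP

open Classical Polynomial WeierstrassCurve.Affine

/-- the norm of a Gaussian integer as a natural number -/
def nm (a : GaussianInt) : ℕ := a.norm.natAbs

/-- level `r` in the kernel of reduction -/
def Lev {F : Type} [NormedField F] {d : F} (r : ℝ) (P : Pt d) : Prop := Big 1 P ∧ ‖zc P‖ ≤ r

/-- the absolute value of the uniformizer -/
noncomputable def qn (F : Type) [NormedField F] [Algebra GaussianInt F] (ϖ : GaussianInt) : ℝ :=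
  ‖algebraMap GaussianInt F ϖ‖

/-! ## 1. The kernel of reduction -/

/-- ZEQ. Proof. `|X^2| > |d^2|`, so `|Y|^2 = |X| |X^2 - d^2| = |X|^3` (ultrametric), `Y ≠ 0`,
`|X/Y|^2 = 1/|X|`, `|Y| |X/Y|^3 = |X|^3/|Y|^2 = 1`, `|d| |X/Y|^2 = |d|/|X| < 1`, a value of the value
group (powers of q, `IsLoc.val` for `d/X`), so `≤ q`.  The last equation is the equation of the
curve divided by `Y^3`. -/
def ZeqStmt : Prop := ∀ (F : Type) [NormedField F] [Algebra GaussianInt F] (ϖ : GaussianInt),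
  IsLoc F ϖ → ∀ (d X Y : F), d ≠ 0 → (W d).Nonsingular X Y → ‖d‖ < ‖X‖ →
    Y ≠ 0 ∧ ‖X‖ * ‖X / Y‖ ^ 2 = 1 ∧ ‖Y‖ * ‖X / Y‖ ^ 3 = 1 ∧ ‖d‖ * ‖X / Y‖ ^ 2 ≤ qn F ϖ ∧
    qn F ϖ < 1 ∧ 1 / Y = (X / Y) ^ 3 - d ^ 2 * (X / Y) * (1 / Y) ^ 2

/-- ZAL (uses ZEQ). Addition in the kernel of reduction, for EVERY d ≠ 0 and also at the place 2.
Proof.  The cases P = 0, Q = 0, Q = -P are trivial.  Otherwise let `l` be the slope of Mathlib
(`(Y1 - Y2)/(X1 - X2)` or `(3 X^2 - d^2)/(2 Y)`), `m = Y1 - l X1`, `X3 = l^2 - X1 - X2`,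
`P + Q = (X3, -(l X3 + m))`.  `X1, X2, X3` are the roots of `X^3 - l^2 X^2 - (d^2 + 2 l m) X - m^2`:
`e1 = l^2`, `e2 = -(d^2 + 2 l m)`, `e3 = m^2` (chord: from the two equations and the line; tangent:
directly).  Put `z_i = X_i/(l X_i + m)`, `w_i = 1/(l X_i + m)`, `α = -l/m`, `β = 1/m`: `w_i = α z_i + β`.
Let `M = max(|z1|, |z2|)`, so `|d| M^2 < 1`, `|w_i| = |z_i|^3 ≤ M^3` for i = 1, 2 (ZEQ).
`|α| ≤ M^2`: for the chord `(w1 - w2)(1 + d^2 z2 (w1 + w2)) = (z1 - z2)(z1^2 + z1 z2 + z2^2 - d^2 w1^2)`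
(from `w = z^3 - d^2 z w^2`), where the second factor on the left has absolute value 1
(`|d^2 z2 (w1+w2)| ≤ |d|^2 M^4 < 1`), and `w1 - w2 = α (z1 - z2)`, `z1 ≠ z2`; for the tangent
`m = -(X^3 + d^2 X)/(2 Y)` and `α = (3 X^2 - d^2)/(X^3 + d^2 X)`, `|X^3 + d^2 X| = |X|^3`.
(`m ≠ 0`: chord: `m (w1 - w2) = - l (z1 - z2)` and `m w1 + l z1 = 1`; if `m = 0` then `l ≠ 0` and
`z1 = z2 = 1/l`, then `w1 = w2` by the displayed identity.  Tangent: clear.)
`|β| = |w1 - α z1| ≤ M^3`.  `w3 = α z3 + β`.  Sum of the roots: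
`z1 + z2 + z3 = -2 l d^2/(m^2 - l^2 d^2) = 2 d^2 α β/(1 - d^2 α^2)` (common denominator
`∏ (l X_i + m) = m (m^2 - l^2 d^2)`, numerator `3 l^2 e3 + 2 l m e2 + m^2 e1 = -2 l m d^2`), of
absolute value `≤ |d|^2 M^5`.  `P + Q` has `z = -z3`.  And `|w3| ≤ M^3`, so `|Y3| ≥ M^-3`,
`|Y3|^2 > |d|^3`, so `|X3| ≤ |d|` is impossible: `P + Q` is in G.  (`l X3 + m ≠ 0`: otherwise
`X3 ∈ {0, d, -d}` is a root of the cubic with `l X3 = -m`: `m^2 = l^2 X3^2`, `X3 = ±d`,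
`|α| = 1/|d|`, but `|α| ≤ M^2 < 1/|d|`.) -/
def ZalStmt : Prop := ∀ (F : Type) [NormedField F] [Algebra GaussianInt F] (ϖ : GaussianInt),
  IsLoc F ϖ → ∀ (d : F), d ≠ 0 → ∀ P Q : Pt d, Big 1 P → Big 1 Q →
    Big 1 (P + Q) ∧ ‖zc (P + Q) - zc P - zc Q‖ ≤ ‖d‖ ^ 2 * (max ‖zc P‖ ‖zc Q‖) ^ 5

/-- ZSL (uses ZEQ, ZAL). Proof.  `zc (-P) = -zc P`, `zc (iPt P) = i zc P` (`-X/(iY) = i X/Y`), G is
stable.  For integers n: induction, `|z(nP) - n z(P)| ≤ |d|^2 |z(P)|^5` (all `|z(nP)| ≤ |z(P)|` by the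
induction hypothesis and `|d|^2 |z|^4 < 1`; ultrametric).  Then `sm a P = a.re P + a.im (iP)`. -/
def ZslStmt : Prop := ∀ (F : Type) [NormedField F] [Algebra GaussianInt F] (ϖ : GaussianInt),
  IsLoc F ϖ → ∀ (d : F), d ≠ 0 → ∀ (a : GaussianInt) (P : Pt d), Big 1 P →
    Big 1 (sm a P) ∧ ‖zc (sm a P) - algebraMap GaussianInt F a * zc P‖ ≤ ‖d‖ ^ 2 * ‖zc P‖ ^ 5

/-- ZLV (uses ZEQ, ZAL, ZSL). Levels.  Proof.  `|d| |z|^2 ≤ q < 1` on G minus the origin, so the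
errors above are `≤ q^2 |z|` resp. `≤ q^2 max`.  (1) Lev r is a subgroup stable under `sm a`.
(2) `|z(aP)| = |a| |z(P)|` if `|a| ≥ q`, i.e. if `ϖ^2` does not divide a; in general
`|z(aP)| ≤ max(|a|, q^2) |z(P)|`.  (3) `z(P) = 0` only for P = 0 (P in G). (4) iterate (2). -/
def ZlvStmt : Prop := ∀ (F : Type) [NormedField F] [Algebra GaussianInt F] (ϖ : GaussianInt),
  IsLoc F ϖ → ∀ (d : F), d ≠ 0 →
    (∀ (r : ℝ) (P Q : Pt d), Lev r P → Lev r Q → Lev r (P + Q) ∧ Lev r (-P) ∧ Lev r (P - Q)) ∧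
    (∀ (r : ℝ) (a : GaussianInt) (P : Pt d), Lev r P → Lev r (sm a P)) ∧
    (∀ P : Pt d, Big 1 P → (zc P = 0 ↔ P = 0)) ∧
    (∀ (a : GaussianInt) (P : Pt d), Big 1 P → ¬ ϖ ∣ a → ‖zc (sm a P)‖ = ‖zc P‖) ∧
    (∀ P : Pt d, Big 1 P → ‖zc (sm ϖ P)‖ = qn F ϖ * ‖zc P‖) ∧
    (∀ (k : ℕ) (a : GaussianInt) (P : Pt d), Big 1 P → ϖ ^ k ∣ a →
      ‖zc (sm a P)‖ ≤ qn F ϖ ^ k * ‖zc P‖) ∧
    (∀ r : ℝ, 0 < r → ∃ k : ℕ, ∀ (a : GaussianInt) (P : Pt d), Big 1 P → ϖ ^ k ∣ a →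
      Lev r (sm a P)) ∧
    (∀ P : Pt d, P ≠ 0 → Big 1 P → ‖d‖ * ‖zc P‖ ^ 2 ≤ qn F ϖ)

/-- DGN (uses ZAL, ZSL, ZLV). Digits.  Proof.  E = 0: R = 0, a = 0.  Otherwise by induction on k there
is `a` divisible by N0 with `|z(R - aE)| ≤ q^k |z(E)|` (and `R - aE` in G); k with `q^k |z(E)| ≤ ρ`
finishes.  Step: `E_k = ϖ^k E`, `|z(E_k)| = q^k |z(E)|` (ZLV), `R_k = R - aE`; the quotient
`u = z(R_k)/z(E_k)` has `|u| ≤ 1`; by `IsLoc.res` there is b with `|u/N0 - b| < 1` (|N0| = 1), so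
`|z(R_k) - N0 b z(E_k)| ≤ q |z(E_k)|` (value group), and
`|z(R_k - N0 b E_k) - (z(R_k) - N0 b z(E_k))| ≤ q^2 |z(E_k)|` by ZAL, ZSL. -/
def DgnStmt : Prop := ∀ (F : Type) [NormedField F] [Algebra GaussianInt F] (ϖ : GaussianInt),
  IsLoc F ϖ → ∀ (d : F), d ≠ 0 → ∀ (E R : Pt d) (N0 : GaussianInt) (ρ : ℝ), Big 1 E → Big 1 R →
    ‖zc R‖ ≤ ‖zc E‖ → ¬ ϖ ∣ N0 → 0 < ρ → ∃ a : GaussianInt, N0 ∣ a ∧ Lev ρ (R - sm a E)

/-- DIV (uses ZEQ, ZAL, ZSL, ZLV). Division by `a` prime to ϖ in the kernel of reduction (this is the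
only row where the completeness of F is used: `IsLoc.complete`).
Proof.  For every k choose b_k with `ϖ^k ∣ a b_k - 1` (Z[i] is a PID, a and ϖ^k coprime) and
`ϖ^k ∣ b_(k+1) - b_k` (automatic).  `Q_k = b_k P`; `Q_(k+1) - Q_k = (b_(k+1) - b_k) P` has
`|z| ≤ q^k |z(P)|`.  P ≠ 0: `|z(Q_k)| = |z(P)|` for k ≥ 1.  So `z(Q_k)` is a Cauchy sequence (ZAL:
`|z(Q + e) - z(Q)| ≤ max(|z(e)|, ...)`, use the exact formula
`|z(Q+e) - z(Q) - z(e)| ≤ |d|^2 max^5` only for levels: better: the coordinates `X_k, Y_k` of Q_k: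
`w_k = 1/Y_k` is a function of `z_k`: `w - w' = (z - z')(...)`, `|w - w'| ≤ |z - z'| M^2` by the identity
of ZAL, so also Cauchy).  To see that z(Q_k) is Cauchy: `z(Q+e) = -z3`, where by the formulas of ZAL
with (z1,w1) = Q, (z2,w2) = e: `z(Q+e) - z(Q) - z(e) = -2 d^2 α β/(1 - d^2 α^2)` and
`β = (w1 z2 - w2 z1)/(z2 - z1)` has `|β| ≤ |z1 z2| M`, so the error is `≤ |d|^2 M^3 |z1 z2| ≤ |z(e)|`.
Limits z, w with `w = z^3 - d^2 z w^2`, `|z| = |z(P)| ≠ 0`, w ≠ 0: the point `Q = (z/w, 1/w)` of G;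
`Q_k - Q` has level tending to 0 (as `Q_l - Q_k`, l → ∞, by continuity of `X(Q_l - Q_k)`), and
`a Q - P = a (Q - Q_k) + (a b_k - 1) P` has level tending to 0, so it is 0. -/
def DivStmt : Prop := ∀ (F : Type) [NormedField F] [Algebra GaussianInt F]
  (ϖ : GaussianInt), IsLoc F ϖ → ∀ (d : F), d ≠ 0 → ∀ (a : GaussianInt) (P : Pt d), ¬ ϖ ∣ a →
    Big 1 P → ∃ Q : Pt d, Big 1 Q ∧ sm a Q = P

/-! ## 2. Reduction at odd places -/

/-- CRI. Criterion for congruence.  Proof.  Not both in {Q = ±P} (trivial: if P = Q then P - Q = 0;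
if P = -Q, then X1 = X2, Y1 = -Y2, `P - Q = 2P` has `x = (X^2 + d^2)^2/(4 d X (X^2 - d^2))`, i.e.
`|X(2P)| = |X^2 + d^2|^2/|Y|^2`; big iff `|Y| < 1`, as `X^2 + d^2` is a unit if `X (X^2 - d^2)` is not
(2 is a unit); and `|Y1 - Y2| = |2 Y|`).  If `X1 ≠ X2`:
`X(P - Q) = ((Y1 + Y2)/(X1 - X2))^2 - X1 - X2`, so it is big iff `|Y1 + Y2| > |X1 - X2|`.
`(Y1 - Y2)(Y1 + Y2) = (X1 - X2) N`, `N = X1^2 + X1 X2 + X2^2 - d^2`.  (⇐) If `|Y1| = 1`:
`|Y1 + Y2| = |2 Y1| = 1 > |X1 - X2|`.  If `|Y1|, |Y2| < 1`: N is a unit (mod ϖ: X is a root of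
X^3 - d^2 X and N = 3X^2 - d^2), so `|X1 - X2| = |Y1 - Y2| |Y1 + Y2| < |Y1 + Y2|` (Y1 + Y2 ≠ 0, else
X1 = X2).  (⇒) `|X1 - X2| < |Y1 + Y2| ≤ 1`; if `|Y1 - Y2| = 1` then
`|Y1 + Y2| = |X1 - X2| |N| ≤ |X1 - X2|`, a contradiction. -/
def CriStmt : Prop := ∀ (F : Type) [NormedField F] [Algebra GaussianInt F] (ϖ : GaussianInt),
  IsLoc F ϖ → ¬ ϖ ∣ 2 → ∀ (d : F), ‖d‖ = 1 →
    ∀ (X1 Y1 X2 Y2 : F) (h1 : (W d).Nonsingular X1 Y1) (h2 : (W d).Nonsingular X2 Y2),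
    ‖X1‖ ≤ 1 → ‖X2‖ ≤ 1 →
    (Big 1 ((Point.some X1 Y1 h1 : Pt d) - Point.some X2 Y2 h2) ↔ ‖X1 - X2‖ < 1 ∧ ‖Y1 - Y2‖ < 1)

/-- CNT (uses CRI). Counting.  Proof.  At most one point of A is in G.  A point outside G has
`|X| ≤ 1` and so `|Y| ≤ 1`; by `IsLoc.res` choose a, b in Z[i] near X, Y and map the point to
(a mod ϖ, b mod ϖ) in (Z[i]/ϖ)^2; by CRI this map is injective on A minus G, and its values satisfy
`b^2 = a^3 - d0^2 a` in the field Z[i]/ϖ (d0 near d): at most 2 values of b for every a.  And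
Z[i]/ϖ has N(ϖ) elements. -/
def CntStmt : Prop := ∀ (F : Type) [NormedField F] [Algebra GaussianInt F] (ϖ : GaussianInt),
  IsLoc F ϖ → ¬ ϖ ∣ 2 → ∀ (d : F), ‖d‖ = 1 → ∀ A : Finset (Pt d),
    (∀ P ∈ A, ∀ Q ∈ A, P ≠ Q → ¬ Big 1 (P - Q)) → A.card ≤ 2 * nm ϖ + 1

/-- RAM. Ramified twists.  Proof.  Let P = (X,Y), `|X| ≤ |d|`, ξ = X/d.  `Y^2 = d^3 ξ(ξ^2-1)`; if
Y = 0 then P is one of the three points.  If `|ξ(ξ^2-1)| = 1` then `|Y|^2 = |d|^3 = q^3`, impossible in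
the value group.  So exactly one of ξ, ξ-1, ξ+1 is small (2 is a unit).  ξ small, P ≠ T0:
`X(P + T0) = -d^2/X`, normalized x = -1/ξ, big.  ξ near e = ±1: x(P + T_e) = e(ξ + e)/(ξ - e), big
(`|ξ + e| = 1`). -/
def RamStmt : Prop := ∀ (F : Type) [NormedField F] [Algebra GaussianInt F] (ϖ : GaussianInt),
  IsLoc F ϖ → ¬ ϖ ∣ 2 → ∀ (d : F), ‖d‖ = qn F ϖ → ∀ P : Pt d,
    Big 1 P ∨ Big 1 (P - tor d 0) ∨ Big 1 (P - tor d 1) ∨ Big 1 (P - tor d (-1))

/-! ## 3. The torsion bound -/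

/-- PRF. Product formula.  Proof.  `x3 = ((y1-y2)/(x1-x2))^2 - x1 - x2`,
`x4 = ((y1+y2)/(x1-x2))^2 - x1 - x2`; multiply out (helper90 has the formula in other coordinates). -/
def PrfStmt : Prop := ∀ (F : Type) [Field F] (d : F), (2 : F) ≠ 0 → d ≠ 0 →
  ∀ (x1 y1 x2 y2 x3 y3 x4 y4 : F) (h1 : (W d).Nonsingular x1 y1) (h2 : (W d).Nonsingular x2 y2)
    (h3 : (W d).Nonsingular x3 y3) (h4 : (W d).Nonsingular x4 y4), x1 ≠ x2 →
    (Point.some x1 y1 h1 : Pt d) + Point.some x2 y2 h2 = Point.some x3 y3 h3 →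
    (Point.some x1 y1 h1 : Pt d) - Point.some x2 y2 h2 = Point.some x4 y4 h4 →
    x3 * x4 * (x1 - x2) ^ 2 = (x1 * x2 + d ^ 2) ^ 2

/-- LMF. Multiplication by `1 + i`.  Proof.  `(X,Y) + (-X, iY)`: slope `(1-i)Y/(2X)`, so the new
X-coordinate is `-2i Y^2/(4X^2) = (X^2 - d^2)/(2 i X)`; for X = 0 the sum is 0. -/
def LmfStmt : Prop := ∀ (F : Type) [Field F] [Algebra GaussianInt F] (d : F), (2 : F) ≠ 0 →
  d ≠ 0 → ∀ (X Y : F) (h : (W d).Nonsingular X Y),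
    (X = 0 → sm lam (Point.some X Y h : Pt d) = 0) ∧
    (X ≠ 0 → ∃ Y' h', sm lam (Point.some X Y h : Pt d) = .some ((X ^ 2 - d ^ 2) / (2 * ii F * X)) Y' h')

/-- HAL (uses LMF). Division by `1 + i`.  Proof.  P = 0: Q = 0.  P = (x0,y0): X a root of
`X^2 - 2 i x0 X - d^2 = 0` (X ≠ 0), Y with `Y^2 = X^3 - d^2 X`; `(1+i)(X,Y)` has the X-coordinate x0, so
it is ±P; replace Y by -Y if necessary. -/
def HalStmt : Prop := ∀ (F : Type) [Field F] [IsAlgClosed F] [Algebra GaussianInt F] (d : F),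
  (2 : F) ≠ 0 → d ≠ 0 → ∀ P : Pt d, ∃ Q : Pt d, sm lam Q = P

/-- `P'` is the image of the point `P` under the map `ι` on coordinates -/
def BcR {K L : Type} [Field K] [Field L] (ι : K → L) {d : K} {d' : L} (P : Pt d) (P' : Pt d') :
    Prop :=
  (P = 0 ∧ P' = 0) ∨ ∃ X Y h h', P = .some X Y h ∧ P' = .some (ι X) (ι Y) h'

/-- a generic point `(X, Y)` of the curve over an extension `ι : F → L` -/
structure Gen (F : Type) [Field F] [Algebra GaussianInt F] (d : F) (L : Type) [Field L]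
    [Algebra GaussianInt L] (ι : F →ₐ[GaussianInt] L) (X Y : L)
    (h : (W (ι d)).Nonsingular X Y) : Prop where
  tr : ∀ p : F[X], p ≠ 0 → p.eval₂ (ι : F →+* L) X ≠ 0
  emb : ∀ (Q : Pt d) (Q' : Pt (ι d)), BcR ι Q Q' →
    ∃ (σ : L →ₐ[GaussianInt] L) (h' : (W (ι d)).Nonsingular (σ X) (σ Y)),
      (∀ c : F, σ (ι c) = ι c) ∧ (Point.some X Y h : Pt (ι d)) + Q' = .some (σ X) (σ Y) h'

/-- GNP. The generic point.  Proof.  L = the function field of `W d` (fraction field of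
`(W d).CoordinateRing`, Mathlib), X, Y the classes.  Every element of the coordinate ring is
`a + b Y` with a, b in F[X], unique (`CoordinateRing.basis`), so X is transcendental.  Let Q be a
point over F, R = (X,Y) + Q' = (X', Y').  R is not the origin and X' is not in ι(F): otherwise X' in
ι(F), so Y' in ι(F) too (Y'^2 is a square in the algebraically closed field F), R comes from F, and
(X,Y) = R - Q' too, a contradiction.  F is algebraically closed, so X' is transcendental over F (an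
algebraic element is a root of a product of linear factors).  The ring homomorphism
`a + bY ↦ a(X') + b(X') Y'` is injective: if `a(X') + b(X')Y' = 0` then
`(a^2 - b^2 (X^3 - d^2 X))(X') = 0`, so `a^2 = b^2 (X^3 - d^2 X)` in F[X], degrees are even and odd,
a = b = 0.  So it extends to the fraction field. -/
def GnpStmt : Prop := ∀ (F : Type) [Field F] [IsAlgClosed F] [Algebra GaussianInt F] (d : F),
  (2 : F) ≠ 0 → d ≠ 0 → ∃ (L : Type) (_ : Field L) (_ : Algebra GaussianInt L)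
    (ι : F →ₐ[GaussianInt] L) (X Y : L) (h : (W (ι d)).Nonsingular X Y), Gen F d L ι X Y h

/-- NCO (uses HAL). Multiples of the generic point P are not constant.  Proof.  Suppose a P = Q0'
comes from Q0.  For every Q in Pt d with image Q': σ(a P) = a (P + Q') = aP + aQ' (functoriality of
the group law under σ, copy `Tr_gsm` of Curve.lean), and σ(aP) = aP because aP is constant.  So
a Q' = 0, a Q = 0 for ALL Q.  Write a = lam^k a', a' = 1 mod lam (Z[i]/lam has two elements).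
T = tor d 0 = (0,0): iT = T, 2T = 0, so a' T = T ≠ 0.  Q with lam^k Q = T (HAL): a Q = a' T ≠ 0. -/
def NcoStmt : Prop := ∀ (F : Type) [Field F] [IsAlgClosed F] [Algebra GaussianInt F] (d : F),
  (2 : F) ≠ 0 → d ≠ 0 → ∀ (L : Type) [Field L] [Algebra GaussianInt L]
    (ι : F →ₐ[GaussianInt] L) (X Y : L) (h : (W (ι d)).Nonsingular X Y), Gen F d L ι X Y h →
    ∀ (a : GaussianInt), a ≠ 0 → ∀ (Q : Pt d) (Q' : Pt (ι d)), BcR ι Q Q' →
      sm a (Point.some X Y h : Pt (ι d)) ≠ Q'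

/-- DEG (uses PRF, LMF, NCO). Degrees.  Proof by strong induction on N(a).  a a unit: X' = ±X.
a = lam b: `X' = (x_b^2 - d^2)/(2 i x_b)`, degrees `≤ 2(2N(b)-1) ≤ 2N(a)-1` (x_b ≠ 0, otherwise bP is
constant).  a odd, not a unit: multiplying by a unit (X'(iaP) = -X'(aP)) we may assume a = 1 mod 2
(an odd element is congruent to 1 or i mod 2); b = (a+1)/2, c = (a-1)/2 are not 0,
N(b) + N(c) = (N(a)+1)/2, b + c = a, b - c = 1.  x_b ≠ x_c: otherwise bP = ±cP, so P = 0 or aP = 0.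
PRF: `X' X (x_b - x_c)^2 = (x_b x_c + d^2)^2`: `A = (A_b A_c + d^2 B_b B_c)^2`,
`B = X (A_b B_c - A_c B_b)^2`, degrees `≤ 2(2N(b)-1+2N(c)-1) + 1 = 2N(a)-1`. -/
def DegStmt : Prop := ∀ (F : Type) [Field F] [IsAlgClosed F] [Algebra GaussianInt F] (d : F),
  (2 : F) ≠ 0 → d ≠ 0 → ∀ (L : Type) [Field L] [Algebra GaussianInt L]
    (ι : F →ₐ[GaussianInt] L) (X Y : L) (h : (W (ι d)).Nonsingular X Y), Gen F d L ι X Y h →
    ∀ (a : GaussianInt), a ≠ 0 → ∃ (A B : F[X]) (X' Y' : L) (h' : (W (ι d)).Nonsingular X' Y'),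
      sm a (Point.some X Y h : Pt (ι d)) = .some X' Y' h' ∧ B ≠ 0 ∧
      A.natDegree ≤ 2 * nm a - 1 ∧ B.natDegree ≤ 2 * nm a - 1 ∧
      X' * B.eval₂ (ι : F →+* L) X = A.eval₂ (ι : F →+* L) X

/-- TOB (uses GNP, NCO, DEG). Torsion bound, algebraically closed.  Proof.  P the generic point, A, B, X'
from DEG.  For Q in the set, Q' its image, σ = σ_Q: σ(aP) = a(P + Q') = aP, so σ X' = X' and
`X' B(σX) = A(σX)` in L: σX = x(P + Q') is a root of the polynomial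
`Φ = A^ι - X' B^ι` over L, of degree ≤ 2N(a)-1.  Φ ≠ 0: otherwise X' = ι(A_j)/ι(B_j) for a coefficient
B_j ≠ 0, so X' is constant, then aP is constant (F algebraically closed), against NCO.  The roots are
different for different Q1, Q2: x(P+Q1') = x(P+Q2') implies Q1 = Q2 or 2P = -Q1'-Q2', against NCO. -/
def TobStmt : Prop := ∀ (F : Type) [Field F] [IsAlgClosed F] [Algebra GaussianInt F] (d : F),
  (2 : F) ≠ 0 → d ≠ 0 → ∀ (a : GaussianInt), a ≠ 0 → ∀ A : Finset (Pt d),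
    (∀ P ∈ A, sm a P = 0) → A.card ≤ 2 * nm a - 1

/-- TOR (uses TOB). Torsion bound for all fields.  Proof.  Base change to AlgebraicClosure F (injective
on points, commutes with sm: copy Trf_injective, Tr_gsm of Curve.lean). -/
def TorStmt : Prop := ∀ (F : Type) [Field F] [Algebra GaussianInt F] (d : F),
  (2 : F) ≠ 0 → d ≠ 0 → ∀ (a : GaussianInt), a ≠ 0 → ∀ A : Finset (Pt d),
    (∀ P ∈ A, sm a P = 0) → A.card ≤ 2 * nm a - 1

/-! ## 4. Modules over Z[i] (pure algebra) -/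

/-- DEP. Proof.  Otherwise `(a, b) ↦ a x + b y` on (Z[i]/λ)^2 (take representatives; λ x = λ y = 0) is
injective: if a x + b y = 0 and λ does not divide b, then b' b = 1 mod λ gives y = -b' a x; if λ
divides b then a x = 0 and λ x = 0 give λ ∣ a.  So there are N(λ)^2 > 2N(λ)-1 elements (Z[i]/λ has
N(λ) elements). -/
def DepStmt : Prop := ∀ (M : Type) [AddCommGroup M] [Module GaussianInt M] (l : GaussianInt),
  Prime l → (∀ A : Finset M, (∀ m ∈ A, l • m = 0) → A.card ≤ 2 * nm l - 1) →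
  ∀ x y : M, l • x = 0 → l • y = 0 → x ≠ 0 → ∃ a : GaussianInt, y = a • x

/-- MCA. A finite module whose λ-torsion is at most one-dimensional for every prime λ is cyclic.
Proof.  N = M/G is finite.  Either the structure theorem of finite torsion modules over a PID in
Mathlib (`Module.equiv_directSum_of_isTorsion`, two associated primes would give a two-dimensional
λ-torsion, so CRT), or directly: take g with the largest `R g`; suppose `R g ≠ N`.  There are x not in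
R g and a prime λ with λ x = b g (take x0 not in R g, the ideal {a : a x0 in R g} = (c), λ ∣ c,
x = (c/λ) x0).  Ann(g) = (m).  If b g is in λ R g, change x by an element of R g: λ x = 0; if λ ∣ m,
then x is a multiple of (m/λ) g by the hypothesis, a contradiction; if λ does not divide m then
R(g + x) contains m (g + x) = m x, so x, so g: larger.  Otherwise λ ∣ m and λ does not divide b:
m = λ^k m', λ not dividing m'; g' = m' x + λ^(k+1) g: it generates a larger module: λ m' x = m' b g and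
b is invertible mod λ, so R g' contains m' g and λ^(k+1) g, hence g, and so m' x, but m' x is not in
R g (m' x = c g would give, with u m' + v λ = 1, x = u m' x + v λ x in R g). -/
def McaStmt : Prop := ∀ (M : Type) [AddCommGroup M] [Module GaussianInt M]
  (G : Submodule GaussianInt M) (n : ℕ),
  (∀ A : Finset M, (∀ x ∈ A, ∀ y ∈ A, x ≠ y → x - y ∉ G) → A.card ≤ n) →
  (∀ l : GaussianInt, Prime l → ∀ x y : M, l • x ∈ G → l • y ∈ G → x ∉ G →
    ∃ a : GaussianInt, y - a • x ∈ G) →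
  ∃ g : M, ∀ m : M, ∃ a : GaussianInt, m - a • g ∈ G

/-! ## 5. The local module -/

/-- PT2 (uses ZLV, CNT, RAM). No torsion for large primes.  Proof.  ‖d‖ = q: 2P is in G (RAM), ϖ' P in G,
and 1 = 2u + ϖ' v.  ‖d‖ = 1: suppose P is not in G.  The elements e + aP, e in the four 2-torsion
points 0, tor d 0, tor d 1, tor d (-1), a in a set of N(ϖ') representatives of Z[i]/ϖ', are pairwise
incongruent mod G: if (e - e') + bP in G, then 2bP in G and ϖ'P in G, so P in G if ϖ' does not divide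
b; if b = 0 then e - e' is a 2-torsion point in G, so 0 (x = 0, 1, -1 is not big).  CNT:
4 N(ϖ') ≤ 2 N(ϖ) + 1, a contradiction. -/
def Pt2Stmt : Prop := ∀ (F : Type) [NormedField F] [Algebra GaussianInt F] (ϖ : GaussianInt),
  IsLoc F ϖ → ¬ ϖ ∣ 2 → ∀ (d : F), (‖d‖ = 1 ∨ ‖d‖ = qn F ϖ) → ∀ l : GaussianInt, Prime l →
    ¬ l ∣ 2 → nm ϖ ≤ nm l → ∀ P : Pt d, Big 1 (sm l P) → Big 1 P

/-- MCY (uses ZLV, DIV, CNT, RAM, TOR, DEP, MCA, PT2). M/G is cyclic.  Proof.  ‖d‖ = q: g = tor d 1: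
i g = tor d (-1), (1+i) g = tor d 0 (RAM).  ‖d‖ = 1: MCA with the submodule G (ZLV) and n = 2N(ϖ)+1
(CNT).  Let λ be a prime, λ x, λ y in G, x not in G.  λ ~ ϖ is impossible by PT2.  Otherwise DIV:
λ x' = λ x, λ y' = λ y with x', y' in G; x - x', y - y' are killed by λ, x - x' ≠ 0, DEP with TOR. -/
def McyStmt : Prop := ∀ (F : Type) [NormedField F] [Algebra GaussianInt F]
  (ϖ : GaussianInt), IsLoc F ϖ → ¬ ϖ ∣ 2 → ∀ (d : F), (‖d‖ = 1 ∨ ‖d‖ = qn F ϖ) →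
    ∃ g : Pt d, ∀ P : Pt d, ∃ a : GaussianInt, Big 1 (P - sm a g)

/-- KIL (uses ZLV, CNT, RAM, PT2). Proof.  Some a ≠ 0 has aP in G (‖d‖ = q: a = 2; ‖d‖ = 1: CNT for the
multiples 0, P, 2P, ...).  The ideal {a : aP in G} = (c0), c0 ≠ 0.  If l ∣ c0 then P' = (c0/l)P is not
in G but lP' is: PT2.  If ϖ ∣ c0 the same with PT2 for ϖ, so c0 is prime to ϖ (not needed).
c = c0 ϖ^k, k large (ZLV); l does not divide ϖ^k. -/
def KilStmt : Prop := ∀ (F : Type) [NormedField F] [Algebra GaussianInt F] (ϖ : GaussianInt),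
  IsLoc F ϖ → ¬ ϖ ∣ 2 → ∀ (d : F), (‖d‖ = 1 ∨ ‖d‖ = qn F ϖ) → ∀ l : GaussianInt, Prime l →
    ¬ l ∣ 2 → ¬ Associated ϖ l → nm ϖ ≤ nm l → ∀ (P : Pt d) (ρ : ℝ), 0 < ρ →
    ∃ c : GaussianInt, ¬ l ∣ c ∧ ∀ n : GaussianInt, c ∣ n → Lev ρ (sm n P)

/-- MCK (uses ZLV, DGN, CNT, RAM, PT2, MCY). M modulo a level is cyclic.  Proof.  g0 from MCY; the ideal
{a : a g0 in G} = (c0) with c0 prime to ϖ (as in KIL, PT2 for l = ϖ).  If G = 0 take g0.  Otherwise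
let E in G, E ≠ 0, have the largest |z(E)| (the values |z(E)| are powers of q and |d| |z|^2 < 1, so
there is a largest one).  k with `ϖ^k G ⊆ Lev ρ` (ZLV), v with c0 ∣ v ϖ^k - 1, g1 = v ϖ^k g0: g1 - g0 in
G and c0 g1 = v ϖ^k (c0 g0) in Lev ρ.  g = g1 + E.  Given P: P - a g0 in G, so R = P - a g in G; by
DGN with N0 = c0: R - c0 b E in Lev ρ, and c0 b E = c0 b g - b (c0 g1), so P - (a + c0 b) g in Lev ρ. -/
def MckStmt : Prop := ∀ (F : Type) [NormedField F] [Algebra GaussianInt F]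
  (ϖ : GaussianInt), IsLoc F ϖ → ¬ ϖ ∣ 2 → ∀ (d : F), (‖d‖ = 1 ∨ ‖d‖ = qn F ϖ) →
    ∀ ρ : ℝ, 0 < ρ → ∃ g : Pt d, ∀ P : Pt d, ∃ a : GaussianInt, Lev ρ (P - sm a g)

/-- UNI (uses ZLV, MCK). Proof.  P - p g, Q - r g in Lev ρ.  If p = r = 0 take the identity.  Otherwise
δ = gcd(p, r), p = δ p', r = δ r', u p' + v r' = 1: the matrix (u, v; -r', p') has determinant
u p' + v r' = 1 and -r' P + p' Q = -r'(P - pg) + p'(Q - rg) in Lev ρ. -/
def UniStmt : Prop := ∀ (F : Type) [NormedField F] [Algebra GaussianInt F]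
  (ϖ : GaussianInt), IsLoc F ϖ → ¬ ϖ ∣ 2 → ∀ (d : F), (‖d‖ = 1 ∨ ‖d‖ = qn F ϖ) →
    ∀ (P Q : Pt d) (ρ : ℝ), 0 < ρ → ∃ a b c e : GaussianInt, a * e - b * c = 1 ∧
      Lev ρ (sm c P + sm e Q)

/-- NRM. Normalized frame.  Proof.  d0 = cub z.1 ≠ 0 has absolute value q^n; u = ϖ^(-m) with
n - 2m in {0, 1}, d = u^2 d0.  The scaling (X,Y) ↦ (u^2 X, u^3 Y) (helper40: Sc) maps the canonical
frame to a frame over d. -/
def NrmStmt : Prop := ∀ (F : Type) [NormedField F] [Algebra GaussianInt F] (ϖ : GaussianInt),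
  IsLoc F ϖ → ∀ z : F × F × F, OnU z → ∃ (d : F) (P Q : Pt d), (‖d‖ = 1 ∨ ‖d‖ = qn F ϖ) ∧
    z = kum d P Q

end Pool.Agent.WAP
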